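import Pool.Agent.ELL.Defs2

open scoped Manifold Topology
open Filter Metric Set

namespace Pool.Agent.ELL

section ASC

theorem ascoli_metric {S : Type*} [MetricSpace S] [CompactSpace S] (g : ℕ → ℂ → S)
    (h : ∀ R : ℝ, ∀ ε > 0, ∃ δ > 0, ∃ K : ℕ, ∀ k ≥ K, ∀ x : ℂ, ‖x‖ ≤ R → ∀ y ∈ ball x δ,
      dist (g k y) (g k x) ≤ ε) :
    ∃ s : ℕ → ℕ, StrictMono s ∧ ∃ G : ℂ → S, Continuous G ∧ Conv (fun k => g (s k)) G := by
  classical
  obtain ⟨q, hq⟩ := TopologicalSpace.exists_dense_seq ℂ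
  obtain ⟨L, s, hs, hL⟩ : ∃ L : ℕ → S, ∃ s : ℕ → ℕ, StrictMono s ∧
      Tendsto ((fun k n => g k (q n)) ∘ s) atTop (𝓝 L) :=
    CompactSpace.tendsto_subseq (fun k n => g k (q n))
  have hLn : ∀ n, Tendsto (fun k => g (s k) (q n)) atTop (𝓝 (L n)) := fun n =>
    (tendsto_pi_nhds.1 hL n)
  have hC : ∀ R : ℝ, ∀ ε > 0, ∃ K, ∀ k ≥ K, ∀ l ≥ K, ∀ x, ‖x‖ ≤ R →
      dist (g (s k) x) (g (s l) x) < ε := by
    intro R ε hε
    obtain ⟨δ, hδ, K, hK⟩ := h R (ε / 4) (by positivity)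
    have hcpt : IsCompact (closedBall (0 : ℂ) R) := isCompact_closedBall _ _
    obtain ⟨t, ht⟩ := hcpt.elim_finite_subcover (fun n => ball (q n) δ) (fun n => isOpen_ball)
      (by
        intro x hx
        obtain ⟨n, hn⟩ := hq.exists_dist_lt x hδ
        exact mem_iUnion.2 ⟨n, hn⟩)
    have h1 : ∀ n : ℕ, ∃ N, ∀ k ≥ N, ∀ l ≥ N,
        dist (g (s k) (q n)) (g (s l) (q n)) < ε / 4 := fun n => by
      have := (hLn n).cauchySeq
      rw [Metric.cauchySeq_iff] at this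
      exact this _ (by positivity)
    choose N hN using h1
    refine ⟨max K (t.sup N), fun k hk l hl x hx => ?_⟩
    have hx' : x ∈ closedBall (0 : ℂ) R := by simpa using hx
    obtain ⟨n, hn⟩ := mem_iUnion.1 (ht hx')
    obtain ⟨hnt, hn⟩ := mem_iUnion.1 hn
    have hqx : q n ∈ ball x δ := by rw [mem_ball_comm]; exact hn
    have hNn : N n ≤ t.sup N := Finset.le_sup hnt
    have hk1 : K ≤ s k := le_trans (le_trans (le_max_left _ _) hk) (hs.id_le k)
    have hl1 : K ≤ s l := le_trans (le_trans (le_max_left _ _) hl) (hs.id_le l)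
    have a1 := hK (s k) hk1 x hx (q n) hqx
    have a2 := hK (s l) hl1 x hx (q n) hqx
    have a3 := hN n k (le_trans hNn (le_trans (le_max_right _ _) hk)) l
      (le_trans hNn (le_trans (le_max_right _ _) hl))
    have a4 := dist_triangle4 (g (s k) x) (g (s k) (q n)) (g (s l) (q n)) (g (s l) x)
    rw [dist_comm] at a1
    linarith
  have hex : ∀ x, ∃ y, Tendsto (fun k => g (s k) x) atTop (𝓝 y) := by
    intro x
    refine cauchySeq_tendsto_of_complete (Metric.cauchySeq_iff.2 fun ε hε => ?_)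
    obtain ⟨K, hK⟩ := hC ‖x‖ ε hε
    exact ⟨K, fun k hk l hl => hK k hk l hl x le_rfl⟩
  choose G hG using hex
  refine ⟨s, hs, G, ?_, ?_⟩
  · rw [Metric.continuous_iff]
    intro x ε hε
    obtain ⟨δ, hδ, K, hK⟩ := h ‖x‖ (ε / 2) (by positivity)
    refine ⟨δ, hδ, fun y hy => ?_⟩
    have h1 : Tendsto (fun k => dist (g (s k) y) (g (s k) x)) atTop (𝓝 (dist (G y) (G x))) :=
      (hG y).dist (hG x)
    have h2 : dist (G y) (G x) ≤ ε / 2 := by
      refine le_of_tendsto h1 ?_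
      rw [eventually_atTop]
      exact ⟨K, fun k hk => hK (s k) (le_trans hk (hs.id_le k)) x le_rfl y hy⟩
    linarith
  · intro R ε hε
    obtain ⟨K, hK⟩ := hC R (ε / 2) (by positivity)
    refine ⟨K, fun k hk x hx => ?_⟩
    have h1 : Tendsto (fun l => dist (g (s k) x) (g (s l) x)) atTop
        (𝓝 (dist (g (s k) x) (G x))) := tendsto_const_nhds.dist (hG x)
    have h2 : dist (g (s k) x) (G x) ≤ ε / 2 := by
      refine le_of_tendsto h1 ?_
      rw [eventually_atTop]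
      exact ⟨K, fun l hl => (hK k hk l hl x hx).le⟩
    linarith

end ASC

end Pool.Agent.ELL
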