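import Pool.Agent.ELL.Cht

open scoped Manifold Topology
open Filter Metric Set

namespace Pool.Agent.ELL

section LIM

theorem Conv.subseq {S : Type*} [MetricSpace S] {g : ℕ → ℂ → S} {G : ℂ → S} (h : Conv g G)
    {s : ℕ → ℕ} (hs : Tendsto s atTop atTop) : Conv (fun k => g (s k)) G := by
  intro R ε hε
  obtain ⟨K, hK⟩ := h R ε hε
  obtain ⟨K', hK'⟩ := (eventually_atTop.1 (hs.eventually_ge_atTop K))
  exact ⟨K', fun k hk x hx => hK (s k) (hK' k hk) x hx⟩

theorem Conv.tendsto {S : Type*} [MetricSpace S] {g : ℕ → ℂ → S} {G : ℂ → S} (h : Conv g G)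
    (hG : Continuous G) {x : ℕ → ℂ} {a : ℂ} (hx : Tendsto x atTop (𝓝 a)) :
    Tendsto (fun k => g k (x k)) atTop (𝓝 (G a)) := by
  rw [Metric.tendsto_atTop]
  intro ε hε
  obtain ⟨K, hK⟩ := h (‖a‖ + 1) (ε / 2) (by positivity)
  have h1 : Tendsto (fun k => G (x k)) atTop (𝓝 (G a)) := (hG.tendsto a).comp hx
  rw [Metric.tendsto_atTop] at h1
  obtain ⟨K1, hK1⟩ := h1 (ε / 2) (by positivity)
  rw [Metric.tendsto_atTop] at hx
  obtain ⟨K2, hK2⟩ := hx 1 one_pos
  refine ⟨max K (max K1 K2), fun k hk => ?_⟩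
  have hk0 : K ≤ k := le_trans (le_max_left _ _) hk
  have hk1 : K1 ≤ k := le_trans (le_trans (le_max_left _ _) (le_max_right _ _)) hk
  have hk2 : K2 ≤ k := le_trans (le_trans (le_max_right _ _) (le_max_right _ _)) hk
  have hb : ‖x k‖ ≤ ‖a‖ + 1 := by
    have h3 := (hK2 k hk2).le
    rw [dist_eq_norm] at h3
    calc ‖x k‖ = ‖a + (x k - a)‖ := by ring_nf
      _ ≤ ‖a‖ + ‖x k - a‖ := norm_add_le _ _
      _ ≤ ‖a‖ + 1 := by linarith
  calc dist (g k (x k)) (G a) ≤ dist (g k (x k)) (G (x k)) + dist (G (x k)) (G a) :=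
        dist_triangle _ _ _
    _ < ε / 2 + ε / 2 := add_lt_add (hK k hk0 _ hb) (hK1 k hk1)
    _ = ε := by ring

theorem Conv.unif {S : Type*} [MetricSpace S] {g : ℕ → ℂ → S} {G : ℂ → S} (h : Conv g G)
    (a : ℂ) (r : ℝ) : TendstoUniformlyOn g G atTop (closedBall a r) := by
  rw [Metric.tendstoUniformlyOn_iff]
  intro ε hε
  obtain ⟨K, hK⟩ := h (‖a‖ + r) ε hε
  rw [eventually_atTop]
  refine ⟨K, fun k hk x hx => ?_⟩
  rw [dist_comm]
  refine hK k hk x ?_
  rw [mem_closedBall, dist_eq_norm] at hx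
  calc ‖x‖ = ‖a + (x - a)‖ := by ring_nf
    _ ≤ ‖a‖ + ‖x - a‖ := norm_add_le _ _
    _ ≤ ‖a‖ + r := by linarith

/-- composition with a function continuous near the limit value -/
theorem Conv.comp_unif {S E : Type*} [MetricSpace S] [MetricSpace E]
    {g : ℕ → ℂ → S} {G : ℂ → S} (h : Conv g G) (hG : Continuous G) {F : S → E} {U : Set S}
    (hU : IsOpen U) (hF : ContinuousOn F U) {a : ℂ} (ha : G a ∈ U) :
    ∃ r > 0, (∀ ζ ∈ closedBall a r, G ζ ∈ U) ∧
      (∀ᶠ k in atTop, ∀ ζ ∈ closedBall a r, g k ζ ∈ U) ∧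
      TendstoUniformlyOn (fun k ζ => F (g k ζ)) (fun ζ => F (G ζ)) atTop (closedBall a r) := by
  obtain ⟨r, hr, hrU⟩ : ∃ r > 0, closedBall a r ⊆ G ⁻¹' U := by
    have h1 : G ⁻¹' U ∈ 𝓝 a := hG.continuousAt.preimage_mem_nhds (hU.mem_nhds ha)
    exact Metric.nhds_basis_closedBall.mem_iff.1 h1
  have hK : IsCompact (G '' closedBall a r) := (isCompact_closedBall a r).image hG
  have hKU : G '' closedBall a r ⊆ U := by
    rintro _ ⟨ζ, hζ, rfl⟩
    exact hrU hζ
  obtain ⟨δ, hδ, hδU⟩ := hK.exists_thickening_subset_open hU hKU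
  have hu := h.unif a r
  have hgU : ∀ᶠ k in atTop, ∀ ζ ∈ closedBall a r, g k ζ ∈ U := by
    have h2 := Metric.tendstoUniformlyOn_iff.1 hu δ hδ
    filter_upwards [h2] with k hk ζ hζ
    refine hδU (mem_thickening_iff.2 ⟨G ζ, mem_image_of_mem _ hζ, ?_⟩)
    rw [dist_comm]
    exact hk ζ hζ
  refine ⟨r, hr, fun ζ hζ => hrU hζ, hgU, ?_⟩
  rw [Metric.tendstoUniformlyOn_iff]
  intro ε hε
  -- uniform continuity near the compact set
  have key : ∃ η > 0, ∀ u ∈ G '' closedBall a r, ∀ v, dist v u < η → dist (F v) (F u) < ε := by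
    have hloc : ∀ u ∈ G '' closedBall a r, ∃ η > 0, ∀ v, dist v u < 2 * η →
        dist (F v) (F u) < ε / 2 := by
      intro u hu
      have hc : ContinuousAt F u := (hF u (hKU hu)).continuousAt (hU.mem_nhds (hKU hu))
      rw [Metric.continuousAt_iff] at hc
      obtain ⟨η, hη, hh⟩ := hc (ε / 2) (by positivity)
      exact ⟨η / 2, by positivity, fun v hv => hh (by linarith)⟩
    choose! η hη hη2 using hloc
    obtain ⟨t, htK, htc⟩ := hK.elim_nhds_subcover (fun u => ball u (η u))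
      (fun u hu => ball_mem_nhds _ (hη u hu))
    rcases t.eq_empty_or_nonempty with hte | hte
    · exfalso
      have : G a ∈ ⋃ x ∈ t, ball x (η x) := htc (mem_image_of_mem _ (mem_closedBall_self hr.le))
      rw [hte] at this
      simp at this
    · refine ⟨t.inf' hte η, ?_, fun u hu v hv => ?_⟩
      · rw [gt_iff_lt, Finset.lt_inf'_iff]
        exact fun i hi => hη i (htK i hi)
      · obtain ⟨w, hw, hw2⟩ := mem_iUnion₂.1 (htc hu)
        rw [mem_ball] at hw2
        have h3 : t.inf' hte η ≤ η w := Finset.inf'_le _ hw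
        have h4 : dist v w < 2 * η w := by
          calc dist v w ≤ dist v u + dist u w := dist_triangle _ _ _
            _ < η w + η w := by linarith
            _ = 2 * η w := by ring
        have h5 : dist u w < 2 * η w := by
          have := hη w (htK w hw)
          linarith
        have h6 := hη2 w (htK w hw) v h4
        have h7 := hη2 w (htK w hw) u h5
        calc dist (F v) (F u) ≤ dist (F v) (F w) + dist (F w) (F u) := dist_triangle _ _ _
          _ < ε / 2 + ε / 2 := by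
            rw [dist_comm (F w)]
            linarith
          _ = ε := by ring
  obtain ⟨η, hη, hη2⟩ := key
  have h2 := Metric.tendstoUniformlyOn_iff.1 hu η hη
  filter_upwards [h2] with k hk ζ hζ
  rw [dist_comm]
  refine hη2 (G ζ) (mem_image_of_mem _ hζ) _ ?_
  rw [dist_comm]
  exact hk ζ hζ

variable {S : Type*} [MetricSpace S] [ChartedSpace (ℂ × ℂ) S] [IsManifold 𝓘(ℂ, ℂ × ℂ) 1 S]

theorem conv_holC {g : ℕ → ℂ → S} {G : ℂ → S} (hg : ∀ k, HolC (g k)) (hG : Continuous G)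
    (h : Conv g G) : HolC G := by
  refine holC_of_charts hG fun x => ?_
  have hφ : chartAt (ℂ × ℂ) (G x) ∈ MA S := IsManifold.chart_mem_maximalAtlas (G x)
  refine ⟨chartAt (ℂ × ℂ) (G x), hφ, mem_chart_source _ _, ?_⟩
  obtain ⟨r, hr, hGU, hgU, hun⟩ := h.comp_unif hG (chartAt (ℂ × ℂ) (G x)).open_source
    (chartAt (ℂ × ℂ) (G x)).continuousOn (mem_chart_source _ _)
  have hlu : TendstoLocallyUniformlyOn (fun k ζ => chartAt (ℂ × ℂ) (G x) (g k ζ))
      (fun ζ => chartAt (ℂ × ℂ) (G x) (G ζ)) atTop (ball x r) :=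
    (hun.mono ball_subset_closedBall).tendstoLocallyUniformlyOn
  have hd : ∀ᶠ k in atTop, DifferentiableOn ℂ (fun ζ => chartAt (ℂ × ℂ) (G x) (g k ζ))
      (ball x r) := by
    filter_upwards [hgU] with k hk ζ hζ
    exact ((hg k).chart hφ (hk ζ (ball_subset_closedBall hζ))).differentiableWithinAt
  exact (hlu.differentiableOn hd isOpen_ball).differentiableAt (isOpen_ball.mem_nhds
    (mem_ball_self hr))

end LIM

end Pool.Agent.ELL
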