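import Pool.Agent.ELL.Covx
import Pool.Agent.ELL.Asc
import Pool.Agent.ELL.Lim

open scoped Manifold Topology
open Filter Metric Set

namespace Pool.Agent.ELL

section ASH
variable {S : Type*} [MetricSpace S] [CompactSpace S] [ChartedSpace (ℂ × ℂ) S]
  [IsManifold 𝓘(ℂ, ℂ × ℂ) 1 S]

theorem ascoli_hol (C : Cov S) {r : ℝ} (hr : 0 < r) (g : ℕ → ℂ → S) (hg : ∀ k, HolC (g k))
    (hgood : ∀ R : ℝ, ∃ K : ℕ, ∀ k ≥ K, ∀ x : ℂ, ‖x‖ ≤ R → Good C (g k) x r) :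
    ∃ s : ℕ → ℕ, StrictMono s ∧ ∃ G : ℂ → S, HolC G ∧ Conv (fun k => g (s k)) G := by
  obtain ⟨s, hs, G, hG, hc⟩ := ascoli_metric g (fun R ε hε => by
    obtain ⟨δ, hδ, -, h⟩ := Good.modulus C hr hε
    obtain ⟨K, hK⟩ := hgood R
    exact ⟨δ, hδ, K, fun k hk x hx y hy => h (g k) (hg k) x (hK k hk x hx) y hy⟩)
  exact ⟨s, hs, G, conv_holC (fun k => hg (s k)) hG hc, hc⟩

end ASH

end Pool.Agent.ELL
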