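import Pool.Agent.ELL.Defs2

open scoped Manifold Topology
open Filter Metric Set

namespace Pool.Agent.ELL

section HUR

theorem hurwitz {F : ℕ → ℂ → ℂ} {f : ℂ → ℂ} {x : ℂ} {r : ℝ} (hr : 0 < r)
    (hF : ∀ᶠ k in atTop, DifferentiableOn ℂ (F k) (ball x r))
    (hf : DifferentiableOn ℂ f (ball x r)) (hconv : TendstoUniformlyOn F f atTop (ball x r))
    (h0 : f x = 0) (hne : ¬ ∀ᶠ ζ in 𝓝 x, f ζ = 0) :
    ∀ δ > 0, ∀ᶠ k in atTop, ∃ ζ ∈ ball x δ, F k ζ = 0 := by
  intro δ hδ
  have hana : AnalyticAt ℂ f x :=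
    hf.analyticAt (isOpen_ball.mem_nhds (mem_ball_self hr))
  have hpunct : ∀ᶠ z in 𝓝[≠] x, f z ≠ 0 := by
    rcases hana.eventually_eq_zero_or_eventually_ne_zero with h | h
    · exact absurd h hne
    · exact h
  rw [eventually_nhdsWithin_iff, Metric.eventually_nhds_iff] at hpunct
  obtain ⟨s₀, hs₀, hs₀'⟩ := hpunct
  -- the radius
  obtain ⟨s, hs, hsr, hsδ, hss₀⟩ : ∃ s > 0, s < r ∧ s < δ ∧ s < s₀ :=
    ⟨min (min (r / 2) (δ / 2)) (s₀ / 2), by positivity,
      lt_of_le_of_lt ((min_le_left _ _).trans (min_le_left _ _)) (by linarith),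
      lt_of_le_of_lt ((min_le_left _ _).trans (min_le_right _ _)) (by linarith),
      lt_of_le_of_lt (min_le_right _ _) (by linarith)⟩
  have hcb : closedBall x s ⊆ ball x r := closedBall_subset_ball hsr
  have hsph : sphere x s ⊆ closedBall x s := sphere_subset_closedBall
  have hfne : ∀ z ∈ sphere x s, f z ≠ 0 := by
    intro z hz
    rw [mem_sphere] at hz
    refine hs₀' (by rw [hz]; exact hss₀) ?_
    intro hzx
    simp only [mem_singleton_iff] at hzx
    rw [hzx, dist_self] at hz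
    linarith
  have hcont : ContinuousOn (fun z => ‖f z‖) (sphere x s) :=
    (hf.continuousOn.mono (hsph.trans hcb)).norm
  have hne' : (sphere x s).Nonempty := ⟨x + s, by simp [abs_of_pos hs]⟩
  obtain ⟨z₀, hz₀, hmin⟩ := (isCompact_sphere x s).exists_isMinOn hne' hcont
  set c : ℝ := ‖f z₀‖ with hc
  have hcpos : 0 < c := norm_pos_iff.2 (hfne z₀ hz₀)
  have hev : ∀ᶠ k in atTop, ∀ z ∈ ball x r, dist (f z) (F k z) < c / 2 :=
    (Metric.tendstoUniformlyOn_iff.1 hconv) (c / 2) (by positivity)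
  filter_upwards [hF, hev] with k hFk hk
  by_contra hcon
  push Not at hcon
  have hnz : ∀ z ∈ closedBall x s, F k z ≠ 0 := fun z hz =>
    hcon z (closedBall_subset_ball hsδ hz)
  have hxr : x ∈ ball x r := mem_ball_self hr
  have hFdiff : DifferentiableOn ℂ (fun z => (F k z)⁻¹) (closedBall x s) :=
    (hFk.mono hcb).inv hnz
  have hDC : DiffContOnCl ℂ (fun z => (F k z)⁻¹) (ball x s) := by
    refine ⟨hFdiff.mono ball_subset_closedBall, ?_⟩
    rw [closure_ball x hs.ne']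
    exact hFdiff.continuousOn
  have hbd : ∀ z ∈ frontier (ball x s), ‖(F k z)⁻¹‖ ≤ 2 / c := by
    intro z hz
    rw [frontier_ball x hs.ne'] at hz
    have h1 : c ≤ ‖f z‖ := hmin hz
    have h2 := hk z (hcb (hsph hz))
    have h3 : c / 2 ≤ ‖F k z‖ := by
      have := norm_sub_norm_le (f z) (F k z)
      rw [dist_eq_norm] at h2
      linarith
    rw [norm_inv]
    calc ‖F k z‖⁻¹ ≤ (c / 2)⁻¹ := by
          apply inv_anti₀ (by positivity) h3
      _ = 2 / c := by rw [inv_div]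
  have hx := Complex.norm_le_of_forall_mem_frontier_norm_le isBounded_ball hDC hbd
    (subset_closure (mem_ball_self hs))
  have h4 := hk x hxr
  rw [h0, dist_eq_norm, zero_sub, norm_neg] at h4
  have h5 : 0 < ‖F k x‖ := norm_pos_iff.2 (hnz x (mem_closedBall_self hs.le))
  rw [norm_inv] at hx
  have h6 : (c / 2)⁻¹ < ‖F k x‖⁻¹ := by
    apply inv_strictAnti₀ h5 h4
  rw [inv_div] at h6
  linarith

end HUR

end Pool.Agent.ELL
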