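import Pool.Agent.ELL.Lim
import Pool.Agent.ELL.Hur

open scoped Manifold Topology
open Filter Metric Set

set_option linter.unusedSectionVars false

namespace Pool.Agent.ELL

section AVO
variable {S : Type*} [MetricSpace S] [ChartedSpace (ℂ × ℂ) S] [IsManifold 𝓘(ℂ, ℂ × ℂ) 1 S]

/-- Hurwitz for a holomorphic function on the surface along convergent entire curves -/
theorem conv_zero {g : ℕ → ℂ → S} {G : ℂ → S} (hg : ∀ k, HolC (g k)) (hG : HolC G)
    (h : Conv g G) {F : S → ℂ} {U : Set S} (hF : HolOn F U) {a : ℂ} (hU : U ∈ 𝓝 (G a))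
    (h0 : F (G a) = 0) (hne : ¬ ∀ᶠ ζ in 𝓝 a, F (G ζ) = 0) :
    ∀ δ > 0, ∀ᶠ k in atTop, ∃ ζ ∈ ball a δ, g k ζ ∈ interior U ∧ F (g k ζ) = 0 := by
  intro δ hδ
  have hFc : ContinuousOn F (interior U) := fun q hq =>
    (hF.contAt (mem_interior_iff_mem_nhds.1 hq)).continuousWithinAt
  obtain ⟨r, hr, h1, h2, h3⟩ := h.comp_unif hG.cont isOpen_interior hFc
    (mem_interior_iff_mem_nhds.2 hU)
  have h4 := hurwitz (F := fun k ζ => F (g k ζ)) (f := fun ζ => F (G ζ)) hr ?_ ?_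
    (h3.mono ball_subset_closedBall) h0 hne (min r δ) (lt_min hr hδ)
  · filter_upwards [h2, h4] with k hk2 hk4
    obtain ⟨ζ, hζ, hζ0⟩ := hk4
    exact ⟨ζ, ball_subset_ball (min_le_right _ _) hζ,
      hk2 ζ (ball_subset_closedBall (ball_subset_ball (min_le_left _ _) hζ)), hζ0⟩
  · filter_upwards [h2] with k hk2 ζ hζ
    exact ((hg k).fn hF (mem_interior_iff_mem_nhds.1
      (hk2 ζ (ball_subset_closedBall hζ)))).differentiableWithinAt
  · intro ζ hζ
    exact (hG.fn hF (mem_interior_iff_mem_nhds.1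
      (h1 ζ (ball_subset_closedBall hζ)))).differentiableWithinAt

theorem conv_avoid {D : Set S} (hD : IsDivisor D) {g : ℕ → ℂ → S} {G : ℂ → S}
    (hg : ∀ k, HolC (g k)) (hG : HolC G) (h : Conv g G) (hav : ∀ k ζ, g k ζ ∉ D) :
    (∀ ζ, G ζ ∉ D) ∨ ∀ ζ, G ζ ∈ D := by
  have hclosed : IsClosed (G ⁻¹' D) := hD.1.preimage hG.cont
  have hopen : IsOpen (G ⁻¹' D) := by
    rw [isOpen_iff_mem_nhds]
    intro a ha
    obtain ⟨U, hU, F, hF, hFU⟩ := hD.2 (G a) ha
    have h0 : F (G a) = 0 := (hFU _ (mem_of_mem_nhds hU)).1 ha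
    have hev : ∀ᶠ ζ in 𝓝 a, F (G ζ) = 0 := by
      by_contra hne
      obtain ⟨k, ζ, _, hζU, hζ0⟩ := (conv_zero hg hG h hF hU h0 hne 1 one_pos).exists
      exact hav k ζ ((hFU _ (interior_subset hζU)).2 hζ0)
    filter_upwards [hev, hG.cont.continuousAt.preimage_mem_nhds hU] with ζ hζ hζU
    exact (hFU _ hζU).2 hζ
  rcases isClopen_iff.1 ⟨hclosed, hopen⟩ with h1 | h1
  · left
    intro ζ hζ
    have : ζ ∈ G ⁻¹' D := hζ
    rw [h1] at this
    exact this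
  · right
    intro ζ
    have : ζ ∈ G ⁻¹' D := by rw [h1]; trivial
    exact this

end AVO

end Pool.Agent.ELL
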