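import Pool.Agent.ELL.Defs2

open scoped Manifold Topology
open Filter Metric Set

namespace Pool.Agent.ELL

section BAR

theorem bar_norm_sq (a b c : ℂ) :
    ‖b - c‖ ^ 2 = ‖b - a‖ ^ 2 + ‖a - c‖ ^ 2 + 2 * ((b - a) * starRingEnd ℂ (a - c)).re := by
  have h := Complex.normSq_add (b - a) (a - c)
  rw [show b - a + (a - c) = b - c by ring] at h
  rw [← Complex.normSq_eq_norm_sq, ← Complex.normSq_eq_norm_sq, ← Complex.normSq_eq_norm_sq, h]

theorem bar_half {u x a : ℂ} (hu : ‖u‖ = 1) {R t : ℝ}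
    (ht : t = -(starRingEnd ℂ u * (a - x)).re) :
    ball (a - (R - t) * u) R ⊆ {ζ : ℂ | (starRingEnd ℂ u * (ζ - x)).re < 0} := by
  intro ζ hζ
  rw [mem_ball, dist_eq_norm] at hζ
  have h1 : (starRingEnd ℂ u * (ζ - (a - (R - t) * u))).re ≤ ‖ζ - (a - (R - t) * u)‖ := by
    refine (Complex.re_le_norm _).trans ?_
    rw [norm_mul, RCLike.norm_conj, hu, one_mul]
  have h2 : starRingEnd ℂ u * (ζ - x) = starRingEnd ℂ u * (ζ - (a - (R - t) * u)) +
      (starRingEnd ℂ u * (a - x) - (R - t) * (starRingEnd ℂ u * u)) := by ring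
  have h3 : starRingEnd ℂ u * u = 1 := by
    rw [mul_comm, Complex.mul_conj, Complex.normSq_eq_norm_sq, hu]
    simp
  have h4 : (((R : ℂ) - t) * 1).re = R - t := by
    rw [mul_one, Complex.sub_re, Complex.ofReal_re, Complex.ofReal_re]
  show (starRingEnd ℂ u * (ζ - x)).re < 0
  rw [h2, h3, Complex.add_re, Complex.sub_re, h4]
  linarith

theorem bar_disc {r κ B A R : ℝ} {c : ℂ} (hr : 0 < r) (hκ0 : 0 ≤ κ) (hA : 0 < A)
    (hk1 : κ * Real.exp (A * r ^ 2) < 1) (hRr : r < R) {N : ℂ → ℝ}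
    (hN : ∀ ζ, 0 ≤ N ζ ∧ N ζ ≤ B)
    (hP : ∀ a, closedBall a r ⊆ ball c R → ∀ β : ℂ,
      ∃ b ∈ sphere a r, N a ≤ κ * (N b * Real.exp ((β * (b - a)).re))) :
    ∀ z ∈ ball c R,
      N z ≤ Real.exp (A * (‖z - c‖ ^ 2 - R ^ 2)) * (B * Real.exp (2 * A * R * r)) := by
  have hB : 0 ≤ B := (hN 0).1.trans (hN 0).2
  set k1 : ℝ := κ * Real.exp (A * r ^ 2) with hk1def
  have hk10 : 0 ≤ k1 := mul_nonneg hκ0 (Real.exp_pos _).le
  set P : ℝ := B * Real.exp (A * R ^ 2) with hPdef
  set Q : ℝ := B * Real.exp (2 * A * R * r) with hQdef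
  have hP0 : 0 ≤ P := mul_nonneg hB (Real.exp_pos _).le
  have hQ0 : 0 ≤ Q := mul_nonneg hB (Real.exp_pos _).le
  have key : ∀ n : ℕ, ∀ z ∈ ball c R,
      N z ≤ Real.exp (A * (‖z - c‖ ^ 2 - R ^ 2)) * (k1 ^ n * P + Q) := by
    intro n
    induction n with
    | zero =>
      intro z _
      have h1 : B ≤ Real.exp (A * (‖z - c‖ ^ 2 - R ^ 2)) * P := by
        rw [hPdef, mul_left_comm, ← Real.exp_add]
        have : 1 ≤ Real.exp (A * (‖z - c‖ ^ 2 - R ^ 2) + A * R ^ 2) := by
          apply Real.one_le_exp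
          have : A * (‖z - c‖ ^ 2 - R ^ 2) + A * R ^ 2 = A * ‖z - c‖ ^ 2 := by ring
          rw [this]
          positivity
        nlinarith
      have h2 : 0 ≤ Real.exp (A * (‖z - c‖ ^ 2 - R ^ 2)) * Q :=
        mul_nonneg (Real.exp_pos _).le hQ0
      calc N z ≤ B := (hN z).2
        _ ≤ Real.exp (A * (‖z - c‖ ^ 2 - R ^ 2)) * (k1 ^ 0 * P + Q) := by
          rw [pow_zero, one_mul, mul_add]
          linarith
    | succ n ih =>
      intro z hz
      by_cases hsub : closedBall z r ⊆ ball c R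
      · obtain ⟨b, hb, hNb⟩ := hP z hsub (-2 * A * starRingEnd ℂ (z - c))
        have hbc : b ∈ ball c R := hsub (sphere_subset_closedBall hb)
        have hb' : ‖b - z‖ = r := by
          rw [mem_sphere, dist_eq_norm] at hb
          exact hb
        have hre : ((-2 * (A : ℂ) * starRingEnd ℂ (z - c)) * (b - z)).re =
            -(2 * A) * ((b - z) * starRingEnd ℂ (z - c)).re := by
          rw [show (-2 * (A : ℂ) * starRingEnd ℂ (z - c)) * (b - z) =
            ((-(2 * A) : ℝ) : ℂ) * ((b - z) * starRingEnd ℂ (z - c)) by push_cast; ring,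
            Complex.re_ofReal_mul]
        have hsq := bar_norm_sq z b c
        rw [hb'] at hsq
        have hexp : A * (‖b - c‖ ^ 2 - R ^ 2) +
            ((-2 * (A : ℂ) * starRingEnd ℂ (z - c)) * (b - z)).re =
            A * r ^ 2 + A * (‖z - c‖ ^ 2 - R ^ 2) := by
          rw [hre, hsq]
          ring
        have hIH := ih b hbc
        have hM0 : 0 ≤ k1 ^ n * P + Q := by positivity
        calc N z ≤ κ * (N b * Real.exp
              (((-2 * (A : ℂ) * starRingEnd ℂ (z - c)) * (b - z)).re)) := hNb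
          _ ≤ κ * ((Real.exp (A * (‖b - c‖ ^ 2 - R ^ 2)) * (k1 ^ n * P + Q)) * Real.exp
              (((-2 * (A : ℂ) * starRingEnd ℂ (z - c)) * (b - z)).re)) := by
            apply mul_le_mul_of_nonneg_left _ hκ0
            exact mul_le_mul_of_nonneg_right hIH (Real.exp_pos _).le
          _ = κ * (k1 ^ n * P + Q) * Real.exp (A * (‖b - c‖ ^ 2 - R ^ 2) +
              ((-2 * (A : ℂ) * starRingEnd ℂ (z - c)) * (b - z)).re) := by
            rw [Real.exp_add]
            ring
          _ = Real.exp (A * (‖z - c‖ ^ 2 - R ^ 2)) * (k1 * (k1 ^ n * P + Q)) := by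
            rw [hexp, Real.exp_add, hk1def]
            ring
          _ ≤ Real.exp (A * (‖z - c‖ ^ 2 - R ^ 2)) * (k1 ^ (n + 1) * P + Q) := by
            apply mul_le_mul_of_nonneg_left _ (Real.exp_pos _).le
            have : k1 * Q ≤ Q := by nlinarith
            calc k1 * (k1 ^ n * P + Q) = k1 ^ (n + 1) * P + k1 * Q := by ring
              _ ≤ k1 ^ (n + 1) * P + Q := by linarith
      · rw [not_subset] at hsub
        obtain ⟨w, hw, hw'⟩ := hsub
        rw [mem_closedBall, dist_eq_norm] at hw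
        rw [mem_ball, dist_eq_norm, not_lt] at hw'
        have h1 : R - r ≤ ‖z - c‖ := by
          have : ‖w - c‖ ≤ ‖w - z‖ + ‖z - c‖ := by
            have := norm_add_le (w - z) (z - c)
            rwa [show w - z + (z - c) = w - c by ring] at this
          linarith
        have h2 : (R - r) ^ 2 ≤ ‖z - c‖ ^ 2 := by
          apply pow_le_pow_left₀ (by linarith) h1
        have h3 : 0 ≤ A * (‖z - c‖ ^ 2 - R ^ 2) + 2 * A * R * r := by
          have : A * (‖z - c‖ ^ 2 - R ^ 2) + 2 * A * R * r =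
            A * (‖z - c‖ ^ 2 - (R - r) ^ 2) + A * r ^ 2 := by ring
          rw [this]
          have h4 : 0 ≤ A * (‖z - c‖ ^ 2 - (R - r) ^ 2) := mul_nonneg hA.le (by linarith)
          positivity
        calc N z ≤ B := (hN z).2
          _ ≤ Real.exp (A * (‖z - c‖ ^ 2 - R ^ 2)) * Q := by
            rw [hQdef, mul_left_comm, ← Real.exp_add]
            have := Real.one_le_exp h3
            nlinarith
          _ ≤ Real.exp (A * (‖z - c‖ ^ 2 - R ^ 2)) * (k1 ^ (n + 1) * P + Q) := by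
            apply mul_le_mul_of_nonneg_left _ (Real.exp_pos _).le
            have : 0 ≤ k1 ^ (n + 1) * P := by positivity
            linarith
  intro z hz
  have hlim : Tendsto (fun n : ℕ => Real.exp (A * (‖z - c‖ ^ 2 - R ^ 2)) * (k1 ^ n * P + Q))
      atTop (𝓝 (Real.exp (A * (‖z - c‖ ^ 2 - R ^ 2)) * (0 * P + Q))) := by
    apply Tendsto.const_mul
    apply Tendsto.add_const
    apply Tendsto.mul_const
    exact tendsto_pow_atTop_nhds_zero_of_lt_one hk10 hk1
  have := ge_of_tendsto' hlim (fun n => key n z hz)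
  rwa [zero_mul, zero_add] at this

theorem barrier {u x : ℂ} (hu : ‖u‖ = 1) {r κ B : ℝ} (hr : 0 < r) (hκ0 : 0 ≤ κ) (hκ : κ < 1)
    {N : ℂ → ℝ} (hN : ∀ ζ, 0 ≤ N ζ ∧ N ζ ≤ B)
    (hP : ∀ a, closedBall a r ⊆ {ζ : ℂ | (starRingEnd ℂ u * (ζ - x)).re < 0} → ∀ β : ℂ,
      ∃ b ∈ sphere a r, N a ≤ κ * (N b * Real.exp ((β * (b - a)).re)))
    {a : ℂ} (ha : (starRingEnd ℂ u * (a - x)).re < -r) : N a = 0 := by
  have hB : 0 ≤ B := (hN 0).1.trans (hN 0).2
  obtain ⟨A, hA, hk1⟩ : ∃ A > 0, κ * Real.exp (A * r ^ 2) < 1 := by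
    refine ⟨(1 - κ) / 2 / r ^ 2, by
      have : 0 < 1 - κ := by linarith
      positivity, ?_⟩
    rw [div_mul_cancel₀ _ (by positivity)]
    have h1 : 1 - (1 - κ) / 2 ≤ Real.exp (-((1 - κ) / 2)) := by
      have := Real.add_one_le_exp (-((1 - κ) / 2))
      linarith
    have h2 : Real.exp ((1 - κ) / 2) * Real.exp (-((1 - κ) / 2)) = 1 := by
      rw [← Real.exp_add]
      simp
    have h3 : 0 < Real.exp ((1 - κ) / 2) := Real.exp_pos _
    nlinarith
  set t : ℝ := -(starRingEnd ℂ u * (a - x)).re with ht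
  have htr : r < t := by linarith
  have hbound : ∀ R : ℝ, t < R → N a ≤ B * Real.exp (A * t ^ 2 - 2 * A * (t - r) * R) := by
    intro R hR
    have hsub := bar_half (R := R) hu ht
    have hmem : a ∈ ball (a - (R - t) * u) R := by
      rw [mem_ball, dist_eq_norm, sub_sub_cancel, norm_mul, hu, mul_one, ← Complex.ofReal_sub,
        Complex.norm_real, Real.norm_eq_abs, abs_of_pos (by linarith)]
      linarith
    have h := bar_disc (B := B) (c := a - (R - t) * u) hr hκ0 hA hk1 (by linarith : r < R) hN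
      (fun b hb β => hP b (hb.trans hsub) β) a hmem
    rw [sub_sub_cancel, norm_mul, hu, mul_one, ← Complex.ofReal_sub, Complex.norm_real,
      Real.norm_eq_abs, sq_abs, mul_left_comm, ← Real.exp_add] at h
    refine h.trans (le_of_eq ?_)
    congr 2
    ring
  have hlim : Tendsto (fun R : ℝ => B * Real.exp (A * t ^ 2 - 2 * A * (t - r) * R)) atTop
      (𝓝 (B * 0)) := by
    apply Tendsto.const_mul
    apply Real.tendsto_exp_atBot.comp
    apply tendsto_atBot_add_const_left _ _ |>.comp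
    apply tendsto_neg_atTop_atBot.comp
    apply Tendsto.const_mul_atTop _ tendsto_id
    have : 0 < t - r := by linarith
    positivity
  have h0 : N a ≤ B * 0 := by
    apply ge_of_tendsto hlim
    filter_upwards [eventually_gt_atTop t] with R hR
    exact hbound R hR
  rw [mul_zero] at h0
  exact le_antisymm h0 (hN a).1

end BAR

end Pool.Agent.ELL
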