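import Pool.Agent.ELL.Lpi
import Pool.Agent.ELL.Avo

open scoped Manifold Topology
open Filter Metric Set

set_option linter.unusedSectionVars false

namespace Pool.Agent.ELL

section NOD
variable {S : Type*} [MetricSpace S] [ChartedSpace (ℂ × ℂ) S] [IsManifold 𝓘(ℂ, ℂ × ℂ) 1 S]
  {Λ : Submodule ℤ ℂ} [DiscreteTopology Λ] [IsZLattice ℝ Λ] {π : S → ℂ ⧸ Λ}

theorem holOn_coord {φ : OpenPartialHomeomorph S (ℂ × ℂ)} (hφ : φ ∈ MA S)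
    (L : ℂ × ℂ →L[ℂ] ℂ) : HolOn (fun q => L (φ q)) φ.source := by
  have h1 : ContMDiffOn 𝓘(ℂ, ℂ × ℂ) 𝓘(ℂ, ℂ × ℂ) 1 φ φ.source :=
    contMDiffOn_of_mem_maximalAtlas hφ
  have h2 : ContMDiff 𝓘(ℂ, ℂ × ℂ) 𝓘(ℂ, ℂ) 1 L := L.contDiff.contMDiff
  exact h2.comp_contMDiffOn h1

theorem holC_const (p : S) : HolC (fun _ : ℂ => p) := mdifferentiable_const

theorem node_hit {g : ℕ → ℂ → S} {G : ℂ → S} (hg : ∀ k, HolC (g k))
    (hG : HolC G) (h : Conv g G) (hne : ∃ ζ, G ζ ≠ G 0) {z : ℂ} (hn : IsNode Λ π (G z)) :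
    ∃ c : ℂ, π (G z) = Λ.mkQ c ∧
      ∀ δ > 0, ∀ᶠ k in atTop, ∃ ζ ∈ ball z δ, π (g k ζ) = Λ.mkQ c := by
  obtain ⟨φ, hφ, hp, hp0, c, hc⟩ := hn
  refine ⟨c, ?_, ?_⟩
  · rw [hc _ hp, hp0]
    simp
  have hsrc : φ.source ∈ 𝓝 (G z) := φ.open_source.mem_nhds hp
  -- the two coordinates do not both vanish near z
  have hnot : ¬ ((∀ᶠ ζ in 𝓝 z, ContinuousLinearMap.fst ℂ ℂ ℂ (φ (G ζ)) = 0) ∧
      ∀ᶠ ζ in 𝓝 z, ContinuousLinearMap.snd ℂ ℂ ℂ (φ (G ζ)) = 0) := by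
    rintro ⟨h1, h2⟩
    have h3 : ∀ᶠ ζ in 𝓝 z, G ζ = (fun _ : ℂ => G z) ζ := by
      filter_upwards [h1, h2, hG.cont.continuousAt.preimage_mem_nhds hsrc] with ζ a b hζ
      apply φ.injOn hζ hp
      rw [hp0]
      exact Prod.ext a b
    have h4 := hG.eq_of_eventuallyEq (holC_const (G z)) h3
    obtain ⟨ζ, hζ⟩ := hne
    apply hζ
    rw [h4]
  have key : ∀ L : ℂ × ℂ →L[ℂ] ℂ, (∀ v : ℂ × ℂ, L v = 0 → v.1 * v.2 = 0) →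
      (¬ ∀ᶠ ζ in 𝓝 z, L (φ (G ζ)) = 0) →
      ∀ δ > 0, ∀ᶠ k in atTop, ∃ ζ ∈ ball z δ, π (g k ζ) = Λ.mkQ c := by
    intro L hL hL' δ hδ
    have h0 : L (φ (G z)) = 0 := by rw [hp0, map_zero]
    filter_upwards [conv_zero hg hG h (holOn_coord hφ L) hsrc h0 hL' δ hδ] with k hk
    obtain ⟨ζ, hζ, hζs, hζ0⟩ := hk
    refine ⟨ζ, hζ, ?_⟩
    rw [hc _ (interior_subset hζs), hL _ hζ0, add_zero]
  by_cases hfst : ∀ᶠ ζ in 𝓝 z, ContinuousLinearMap.fst ℂ ℂ ℂ (φ (G ζ)) = 0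
  · have hsnd : ¬ ∀ᶠ ζ in 𝓝 z, ContinuousLinearMap.snd ℂ ℂ ℂ (φ (G ζ)) = 0 :=
      fun h2 => hnot ⟨hfst, h2⟩
    exact key (ContinuousLinearMap.snd ℂ ℂ ℂ) (fun v hv => by
      have hv' : v.2 = 0 := hv
      rw [hv', mul_zero]) hsnd
  · exact key (ContinuousLinearMap.fst ℂ ℂ ℂ) (fun v hv => by
      have hv' : v.1 = 0 := hv
      rw [hv', zero_mul]) hfst

theorem conv_node (hπ : HolTo Λ π) {g : ℕ → ℂ → S} {G : ℂ → S} (hg : ∀ k, HolC (g k))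
    (hG : HolC G) (h : Conv g G) {t : ℕ → ℂ} {ρ : ℕ → ℝ}
    (hgp : ∀ k ζ, π (g k ζ) = Λ.mkQ (t k + ρ k * ζ)) (hρpos : ∀ k, 0 < ρ k)
    (hρ : Tendsto ρ atTop (𝓝 0)) (hne : ∃ ζ, G ζ ≠ G 0) {ζ₁ ζ₂ : ℂ}
    (h1 : IsNode Λ π (G ζ₁)) (h2 : IsNode Λ π (G ζ₂)) : ζ₁ = ζ₂ := by
  by_contra hz
  obtain ⟨c₁, hc₁, hit₁⟩ := node_hit hg hG h hne h1
  obtain ⟨c₂, hc₂, hit₂⟩ := node_hit hg hG h hne h2
  have hρc : Tendsto (fun k => (ρ k : ℂ)) atTop (𝓝 0) := by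
    have := (Complex.continuous_ofReal.tendsto 0).comp hρ
    rwa [Complex.ofReal_zero] at this
  obtain ⟨t0, ht0⟩ := conv_pi hπ hG.cont h hgp hρc
  have hcc : c₁ - c₂ ∈ Λ := by
    rw [← mkQ_eq_iff, ← hc₁, ← hc₂, ht0, ht0, zero_mul, zero_mul]
  obtain ⟨μ, hμ, hμΛ⟩ := lat_min Λ
  have hd : 0 < dist ζ₁ ζ₂ := dist_pos.2 hz
  set d := dist ζ₁ ζ₂ with hd_def
  have hρμ : ∀ᶠ k in atTop, ρ k < μ / (2 * d) :=
    hρ.eventually_lt_const (by positivity)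
  obtain ⟨k, ⟨a, ha, hak⟩, ⟨b, hb, hbk⟩, hk⟩ :=
    ((hit₁ (d / 2) (by positivity)).and ((hit₂ (d / 2) (by positivity)).and hρμ)).exists
  rw [hgp, mkQ_eq_iff] at hak hbk
  have h3 : (ρ k : ℂ) * (a - b) ∈ Λ := by
    have h4 := Λ.sub_mem (Λ.add_mem hak hcc) hbk
    have h5 : t k + ρ k * a - c₁ + (c₁ - c₂) - (t k + ρ k * b - c₂) = (ρ k : ℂ) * (a - b) := by
      ring
    rwa [h5] at h4
  rw [mem_ball] at ha hb
  have hab : dist a b < 2 * d := by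
    have h6 := dist_triangle a ζ₁ b
    have h7 := dist_triangle ζ₁ ζ₂ b
    rw [dist_comm ζ₂ b] at h7
    linarith
  have hne' : a ≠ b := by
    intro hab'
    rw [← hab'] at hb
    have h6 := dist_triangle ζ₁ a ζ₂
    rw [dist_comm ζ₁ a] at h6
    linarith
  have hne0 : (ρ k : ℂ) * (a - b) ≠ 0 :=
    mul_ne_zero (by exact_mod_cast (hρpos k).ne') (sub_ne_zero.2 hne')
  have h8 := hμΛ _ h3 hne0
  rw [norm_mul, Complex.norm_real, Real.norm_eq_abs, abs_of_pos (hρpos k), ← dist_eq_norm] at h8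
  have h9 : ρ k * dist a b < μ := by
    have h10 : 0 ≤ dist a b := dist_nonneg
    have h11 := hρpos k
    calc ρ k * dist a b ≤ ρ k * (2 * d) := by
          apply mul_le_mul_of_nonneg_left hab.le h11.le
      _ < μ / (2 * d) * (2 * d) := by
          apply mul_lt_mul_of_pos_right hk (by positivity)
      _ = μ := by field_simp
  linarith

end NOD

end Pool.Agent.ELL
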