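import Pool.Agent.ELL.Covx

open scoped Manifold Topology
open Filter Metric Set

namespace Pool.Agent.ELL

section ZAL
variable {S : Type*} [MetricSpace S] [CompactSpace S] [ChartedSpace (ℂ × ℂ) S]
  [IsManifold 𝓘(ℂ, ℂ × ℂ) 1 S]

/-- The radius function of the rescaling argument: it is positive, 1-Lipschitz, and decides
the goodness up to the boundary value. -/
theorem zal_exists_radius {S : Type*} [MetricSpace S] [CompactSpace S]
    [ChartedSpace (ℂ × ℂ) S] [IsManifold 𝓘(ℂ, ℂ × ℂ) 1 S] (C : Cov S) (g : ℂ → S)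
    (hg : Continuous g) :
    ∃ R : ℂ → ℝ, (∀ x, 0 < R x) ∧ (∀ x r, r < R x → Good C g x r) ∧
      (∀ x r, 0 ≤ r → r ≤ 1 → Good C g x r → r ≤ R x) ∧ Continuous R := by
  classical
  let T : ℂ → Set ℝ := fun x => {r : ℝ | 0 ≤ r ∧ r ≤ 1 ∧ Good C g x r}
  have h0 : ∀ x, (0 : ℝ) ∈ T x := by
    intro x
    obtain ⟨i, -⟩ := C.cover (g x)
    refine ⟨le_refl _, zero_le_one, i, ?_⟩
    intro ζ hζ
    simp at hζ
  have hne : ∀ x, (T x).Nonempty := fun x => ⟨0, h0 x⟩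
  have hbdd : ∀ x, BddAbove (T x) := fun x => ⟨1, fun r hr => hr.2.1⟩
  have hle : ∀ x r, 0 ≤ r → r ≤ 1 → Good C g x r → r ≤ sSup (T x) := by
    intro x r h1 h2 h3
    exact le_csSup (hbdd x) ⟨h1, h2, h3⟩
  have hlt : ∀ x r, r < sSup (T x) → Good C g x r := by
    intro x r hr
    obtain ⟨s, hs, hrs⟩ := exists_lt_of_lt_csSup (hne x) hr
    exact Good.mono hs.2.2 (by simpa using hrs.le)
  have hlip : ∀ x y, sSup (T x) ≤ sSup (T y) + dist y x := by
    intro x y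
    apply csSup_le (hne x)
    intro r hr
    by_cases hd : r - dist y x ≤ 0
    · have : 0 ≤ sSup (T y) := le_csSup (hbdd y) (h0 y)
      linarith
    · push Not at hd
      have : r - dist y x ≤ sSup (T y) := by
        apply hle y _ hd.le
        · have := hr.2.1
          have h2 : 0 ≤ dist y x := dist_nonneg
          linarith
        · exact Good.mono hr.2.2 (by linarith)
      linarith
  refine ⟨fun x => sSup (T x), ?_, hlt, hle, ?_⟩
  · intro x
    obtain ⟨i, hi⟩ := C.cover (g x)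
    have hU : IsOpen (g ⁻¹' C.U i) := (C.isOpen_U i).preimage hg
    obtain ⟨ε, hε, hb⟩ := Metric.isOpen_iff.1 hU x hi
    have hpos : 0 < min ε 1 := lt_min hε one_pos
    have : min ε 1 ≤ sSup (T x) := by
      apply hle x _ hpos.le (min_le_right _ _)
      refine ⟨i, ?_⟩
      intro ζ hζ
      exact hb (ball_subset_ball (min_le_left _ _) hζ)
    exact lt_of_lt_of_le hpos this
  · have : LipschitzWith 1 (fun x => sSup (T x)) := by
      apply LipschitzWith.of_le_add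
      intro x y
      have := hlip x y
      rw [dist_comm] at this
      exact this
    exact this.continuous

/-- One step of the rescaling argument. -/
theorem zal_step {S : Type*} [MetricSpace S] [CompactSpace S]
    [ChartedSpace (ℂ × ℂ) S] [IsManifold 𝓘(ℂ, ℂ × ℂ) 1 S] (C : Cov S) (g : ℂ → S)
    (hg : Continuous g) (k : ℕ) (x₀ : ℂ)
    (hbad : ¬ Good C g x₀ (1 / (((2 * k + 1 : ℕ) : ℝ) + 1))) :
    ∃ (a : ℂ) (ρ : ℝ), 0 < ρ ∧ ρ ≤ 1 / ((k : ℝ) + 1) ∧
      ¬ Good C (fun ζ => g (a + ρ * ζ)) 0 2 ∧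
      ∀ x : ℂ, ‖x‖ ≤ k → Good C (fun ζ => g (a + ρ * ζ)) x (1 / 4) := by
  obtain ⟨R, hpos, hlt, hle, hcont⟩ := zal_exists_radius C g hg
  have hn : (0 : ℝ) ≤ k := Nat.cast_nonneg k
  have hN : (((2 * k + 1 : ℕ) : ℝ) + 1) = 2 * ((k : ℝ) + 1) := by push_cast; ring
  rw [hN] at hbad
  have hRx : R x₀ ≤ 1 / (2 * ((k : ℝ) + 1)) := by
    by_contra h
    push Not at h
    exact hbad (hlt _ _ h)
  have hf : ContinuousOn (fun z => (1 - dist z x₀) / R z) (closedBall x₀ 1) := by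
    apply Continuous.continuousOn
    exact (continuous_const.sub (continuous_id.dist continuous_const)).div hcont
      (fun z => (hpos z).ne')
  obtain ⟨a, ha, hmax⟩ := (isCompact_closedBall x₀ 1).exists_isMaxOn
    ⟨x₀, by simp⟩ hf
  have hmax' : ∀ z ∈ closedBall x₀ 1, (1 - dist z x₀) / R z ≤ (1 - dist a x₀) / R a :=
    fun z hz => hmax hz
  set ρ := R a with hρ
  have hρpos : 0 < ρ := hpos a
  set t := 1 - dist a x₀ with ht
  have ht1 : t ≤ 1 := by
    have : 0 ≤ dist a x₀ := dist_nonneg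
    linarith
  -- value at the centre
  have hc : 2 * ((k : ℝ) + 1) ≤ t / ρ := by
    have h1 := hmax' x₀ (by simp)
    rw [dist_self, sub_zero] at h1
    refine le_trans ?_ h1
    rw [le_div_iff₀ (hpos x₀)]
    calc 2 * ((k : ℝ) + 1) * R x₀ ≤ 2 * ((k : ℝ) + 1) * (1 / (2 * ((k : ℝ) + 1))) := by
          apply mul_le_mul_of_nonneg_left hRx (by positivity)
      _ = 1 := by field_simp
  have hct : 2 * ((k : ℝ) + 1) * ρ ≤ t := (le_div_iff₀ hρpos).1 hc
  have hρ1 : ρ ≤ 1 / (2 * ((k : ℝ) + 1)) := by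
    rw [le_div_iff₀ (by positivity)]
    linarith
  have hρ2 : ρ ≤ 1 / ((k : ℝ) + 1) := by
    refine le_trans hρ1 ?_
    apply one_div_le_one_div_of_le (by positivity)
    linarith
  have htpos : 0 < t := by
    have : 0 < 2 * ((k : ℝ) + 1) * ρ := by positivity
    linarith
  have h2ρ : 2 * ρ ≤ 1 := by nlinarith
  refine ⟨a, ρ, hρpos, hρ2, ?_, ?_⟩
  · rintro ⟨i, hi⟩
    have : Good C g a (2 * ρ) := by
      refine ⟨i, ?_⟩
      intro w hw
      have h1 : (w - a) / ρ ∈ ball (0 : ℂ) 2 := by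
        rw [mem_ball_zero_iff, norm_div, Complex.norm_real, Real.norm_eq_abs,
          abs_of_pos hρpos, div_lt_iff₀ hρpos]
        rw [mem_ball, dist_eq_norm] at hw
        exact hw
      have h2 := hi _ h1
      have h3 : a + (ρ : ℂ) * ((w - a) / ρ) = w := by
        have : (ρ : ℂ) ≠ 0 := by exact_mod_cast hρpos.ne'
        field_simp
        ring
      simpa only [h3] using h2
    have h1 := hle a _ (by positivity) h2ρ this
    linarith
  · intro x hx
    -- the point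
    have hz1 : dist (a + ρ * x) a ≤ t / 2 := by
      rw [dist_eq_norm]
      have : a + (ρ : ℂ) * x - a = ρ * x := by ring
      rw [this, norm_mul, Complex.norm_real, Real.norm_eq_abs, abs_of_pos hρpos]
      have : ρ * ‖x‖ ≤ ρ * k := mul_le_mul_of_nonneg_left hx hρpos.le
      nlinarith
    have hz2 : t / 2 ≤ 1 - dist (a + ρ * x) x₀ := by
      have := dist_triangle (a + ρ * x) a x₀
      linarith
    have hz3 : a + ρ * x ∈ closedBall x₀ 1 := by
      rw [mem_closedBall]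
      linarith
    have hz4 := hmax' _ hz3
    have hRz : ρ / 2 ≤ R (a + ρ * x) := by
      rw [div_le_div_iff₀ (hpos _) hρpos] at hz4
      have h5 : t / 2 * ρ ≤ t * R (a + ρ * x) := by
        refine le_trans ?_ hz4
        exact mul_le_mul_of_nonneg_right hz2 hρpos.le
      have h6 : t * (ρ / 2) ≤ t * R (a + ρ * x) := by linarith
      exact le_of_mul_le_mul_left h6 htpos
    obtain ⟨i, hi⟩ := hlt (a + ρ * x) (ρ / 4) (by linarith)
    refine ⟨i, ?_⟩
    intro ζ hζ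
    apply hi
    rw [mem_ball, dist_eq_norm] at hζ ⊢
    have : a + (ρ : ℂ) * ζ - (a + ρ * x) = ρ * (ζ - x) := by ring
    rw [this, norm_mul, Complex.norm_real, Real.norm_eq_abs, abs_of_pos hρpos]
    have := mul_lt_mul_of_pos_left hζ hρpos
    linarith

theorem zalcman (C : Cov S) (P : Set (ℂ → S)) (hP : ∀ g ∈ P, Continuous g)
    (hbad : ∀ n : ℕ, ∃ g ∈ P, ∃ x : ℂ, ¬ Good C g x (1 / ((n : ℝ) + 1))) :
    ∃ (g : ℕ → ℂ → S) (a : ℕ → ℂ) (ρ : ℕ → ℝ), (∀ k, g k ∈ P) ∧ (∀ k, 0 < ρ k) ∧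
      Tendsto ρ atTop (𝓝 0) ∧ (∀ k, ¬ Good C (fun ζ => g k (a k + ρ k * ζ)) 0 2) ∧
      ∀ k : ℕ, ∀ x : ℂ, ‖x‖ ≤ k → Good C (fun ζ => g k (a k + ρ k * ζ)) x (1 / 4) := by
  have key : ∀ k : ℕ, ∃ g ∈ P, ∃ (a : ℂ) (ρ : ℝ), 0 < ρ ∧ ρ ≤ 1 / ((k : ℝ) + 1) ∧
      ¬ Good C (fun ζ => g (a + ρ * ζ)) 0 2 ∧
      ∀ x : ℂ, ‖x‖ ≤ k → Good C (fun ζ => g (a + ρ * ζ)) x (1 / 4) := by
    intro k
    obtain ⟨g, hg, x₀, hx₀⟩ := hbad (2 * k + 1)
    exact ⟨g, hg, zal_step C g (hP g hg) k x₀ hx₀⟩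
  choose g hg a ρ h1 h2 h3 h4 using key
  refine ⟨g, a, ρ, hg, h1, ?_, h3, h4⟩
  exact squeeze_zero (fun k => (h1 k).le) h2 tendsto_one_div_add_atTop_nhds_zero_nat

end ZAL

end Pool.Agent.ELL
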