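import Pool.Agent.ELL.Ash
import Pool.Agent.ELL.Avo
import Pool.Agent.ELL.Nod
import Pool.Agent.ELL.Zal

open scoped Manifold Topology
open Filter Metric Set

namespace Pool.Agent.ELL

section BND
variable {S : Type*} [MetricSpace S] [CompactSpace S] [ChartedSpace (ℂ × ℂ) S]
  [IsManifold 𝓘(ℂ, ℂ × ℂ) 1 S] {Λ : Submodule ℤ ℂ} [DiscreteTopology Λ] [IsZLattice ℝ Λ]
  {π : S → ℂ ⧸ Λ} {D : Set S}

omit [CompactSpace S] [DiscreteTopology Λ] [IsZLattice ℝ Λ] in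
theorem sec_translate {e : ℂ → S} (he : e ∈ Sec π D) {ω : ℂ} (hω : ω ∈ Λ) :
    (fun ζ => e (ζ + ω)) ∈ Sec π D := by
  refine ⟨?_, fun ζ => he.2.1 _, fun ζ => ?_⟩
  · have h1 := he.1.comp_affine 1 ω
    simpa using h1
  · rw [he.2.2, mkQ_eq_iff]
    simpa using hω

/-- the rescaling argument, with the base points in a bounded region -/
theorem speed_aux (hπ : HolTo Λ π) (hD : IsDivisor D) (hf : FibresHyperbolic π D)
    (C : Cov S) (g : ℕ → ℂ → S) (a : ℕ → ℂ) (ρ : ℕ → ℝ) (b : ℂ) (hg : ∀ k, g k ∈ Sec π D)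
    (hρ : ∀ k, 0 < ρ k) (hρ0 : Tendsto ρ atTop (𝓝 0)) (hab : Tendsto a atTop (𝓝 b))
    (hbad : ∀ k, ¬ Good C (fun ζ => g k (a k + ρ k * ζ)) 0 2)
    (hgood : ∀ R : ℝ, ∃ K : ℕ, ∀ k ≥ K, ∀ x : ℂ, ‖x‖ ≤ R →
      Good C (fun ζ => g k (a k + ρ k * ζ)) x (1 / 4)) : False := by
  rcases hf b with hfb | hfb
  · have hhol : ∀ k, HolC (fun ζ => g k (a k + ρ k * ζ)) := by
      intro k
      have h1 := (hg k).1.comp_affine (ρ k : ℂ) (a k)
      have h2 : (fun ζ => g k (a k + ρ k * ζ)) = fun ζ => g k (ρ k * ζ + a k) := by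
        funext ζ
        rw [add_comm]
      rw [h2]
      exact h1
    obtain ⟨s, hs, G, hG, hconv⟩ := ascoli_hol C (by norm_num : (0 : ℝ) < 1 / 4)
      (fun k ζ => g k (a k + ρ k * ζ)) hhol hgood
    have hst := hs.tendsto_atTop
    -- the limit is not constant
    have hne : ∃ ζ, G ζ ≠ G 0 := by
      by_contra hc
      push Not at hc
      obtain ⟨δ, hδ, hδ'⟩ := C.lebesgue
      obtain ⟨i, hi⟩ := hδ' (G 0)
      obtain ⟨K, hK⟩ := hconv 2 δ hδ
      apply hbad (s K)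
      refine ⟨i, fun ζ hζ => hi ?_⟩
      rw [mem_ball_zero_iff] at hζ
      have h1 := hK K le_rfl ζ hζ.le
      rw [hc ζ] at h1
      exact h1
    have hgp : ∀ k ζ, π (g (s k) (a (s k) + ρ (s k) * ζ)) = Λ.mkQ (a (s k) + ρ (s k) * ζ) :=
      fun k ζ => (hg (s k)).2.2 _
    have hρ1 : Tendsto (fun k => ((ρ (s k) : ℝ) : ℂ)) atTop (𝓝 0) := by
      have h1 : Tendsto (fun k => ((ρ (s k) : ℝ) : ℂ)) atTop (𝓝 ((0 : ℝ) : ℂ)) :=
        (Complex.continuous_ofReal.tendsto 0).comp (hρ0.comp hst)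
      rwa [Complex.ofReal_zero] at h1
    have hfib : ∀ ζ, π (G ζ) = Λ.mkQ b := by
      intro ζ
      refine pi_tendsto hπ (hconv.tendsto hG.cont (tendsto_const_nhds (x := ζ)))
        (t := fun k => a (s k) + ρ (s k) * ζ) ?_ (fun k => hgp k ζ)
      have h1 := (hab.comp hst).add (hρ1.mul_const ζ)
      rw [zero_mul, add_zero] at h1
      exact h1
    rcases hfb G hG hfib hne with ⟨⟨ζ1, h1⟩, ⟨ζ2, h2⟩⟩ | ⟨ζ1, ζ2, h12, h1, h2⟩
    · rcases conv_avoid hD (fun k => hhol (s k)) hG hconv (fun k ζ => (hg (s k)).2.1 _) with h | h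
      · exact h ζ1 h1
      · exact h2 (h ζ2)
    · exact h12 (conv_node hπ (fun k => hhol (s k)) hG hconv (t := fun k => a (s k))
        (ρ := fun k => ρ (s k)) hgp (fun k => hρ _) (hρ0.comp hst) hne h1 h2)
  · obtain ⟨r, hr, hr'⟩ := hfb
    obtain ⟨δ, hδ, hδ'⟩ := C.lebesgue
    obtain ⟨η, hη, hη'⟩ := hr' (δ / 2) (by positivity)
    have h1 : ∀ᶠ k in atTop, dist (a k) b < η / 2 := by
      have := Metric.tendsto_nhds.1 hab (η / 2) (by positivity)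
      exact this
    have h2 : ∀ᶠ k in atTop, ρ k < η / 4 := hρ0.eventually_lt_const (by positivity)
    obtain ⟨k, hk1, hk2⟩ := (h1.and h2).exists
    obtain ⟨i, hi⟩ := hδ' (g k b)
    apply hbad k
    refine ⟨i, fun ζ hζ => hi ?_⟩
    rw [mem_ball_zero_iff] at hζ
    have h3 : dist (a k + ρ k * ζ) (a k) = ρ k * ‖ζ‖ := by
      rw [dist_eq_norm, add_sub_cancel_left, norm_mul, Complex.norm_real, Real.norm_eq_abs,
        abs_of_pos (hρ k)]
    have h4 : a k + ρ k * ζ ∈ ball b η := by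
      rw [mem_ball]
      have h5 := dist_triangle (a k + ρ k * ζ) (a k) b
      have h6 : ρ k * ‖ζ‖ ≤ η / 2 := by
        have := hρ k
        nlinarith [norm_nonneg ζ]
      linarith
    have h7 := hη' (g k) (fun x _ => ((hg k).1 x).mdifferentiableWithinAt)
      (fun x _ => ⟨(hg k).2.1 x, (hg k).2.2 x⟩) _ h4
    rw [mem_ball]
    linarith

theorem bounded_speed (hπ : HolTo Λ π) (hD : IsDivisor D) (hf : FibresHyperbolic π D)
    (C : Cov S) : ∃ r > 0, ∀ e ∈ Sec π D, ∀ x, Good C e x r := by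
  by_contra hcon
  push Not at hcon
  obtain ⟨g, a, ρ, hg, hρ, hρ0, hbad, hgood⟩ := zalcman C (Sec π D)
    (fun g hg => hg.1.cont) (fun n => hcon (1 / ((n : ℝ) + 1)) (by positivity))
  obtain ⟨R, hR, hR'⟩ := lat_bdd Λ
  choose w hw hwR using fun k => hR' (a k)
  obtain ⟨b, -, s, hs, hb⟩ := (isCompact_closedBall (0 : ℂ) R).tendsto_subseq
    (x := fun k => a k - w k) (fun k => by
      rw [mem_closedBall_zero_iff]
      exact hwR _)
  have heq : ∀ k, (fun ζ => g (s k) ((a (s k) - w (s k)) + ρ (s k) * ζ + w (s k))) =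
      fun ζ => g (s k) (a (s k) + ρ (s k) * ζ) := by
    intro k
    funext ζ
    congr 1
    ring
  refine speed_aux hπ hD hf C (fun k ζ => g (s k) (ζ + w (s k))) (fun k => a (s k) - w (s k))
    (fun k => ρ (s k)) b (fun k => sec_translate (hg (s k)) (hw (s k))) (fun k => hρ _)
    (hρ0.comp hs.tendsto_atTop) hb ?_ ?_
  · intro k
    show ¬ Good C (fun ζ => g (s k) ((a (s k) - w (s k)) + ρ (s k) * ζ + w (s k))) 0 2
    rw [heq]
    exact hbad (s k)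
  · intro R
    refine ⟨⌈R⌉₊, fun k hk x hx => ?_⟩
    show Good C (fun ζ => g (s k) ((a (s k) - w (s k)) + ρ (s k) * ζ + w (s k))) x (1 / 4)
    rw [heq]
    refine hgood (s k) x ?_
    have h1 : k ≤ s k := hs.le_apply
    exact hx.trans ((Nat.le_ceil R).trans (by exact_mod_cast hk.trans h1))

theorem sec_modulus (hπ : HolTo Λ π) (hD : IsDivisor D) (hf : FibresHyperbolic π D)
    {ε : ℝ} (hε : 0 < ε) :
    ∃ δ > 0, ∀ e ∈ Sec π D, ∀ x y : ℂ, dist y x < δ → dist (e y) (e x) ≤ ε := by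
  obtain ⟨C⟩ := exists_cov (S := S)
  obtain ⟨r, hr, hr'⟩ := bounded_speed hπ hD hf C
  obtain ⟨δ, hδ, -, hδ'⟩ := Good.modulus C hr hε
  exact ⟨δ, hδ, fun e he x y hxy => hδ' e he.1 x (hr' e he x) y hxy⟩

theorem sec_compact (hπ : HolTo Λ π) (hD : IsDivisor D) (hf : FibresHyperbolic π D)
    (hs : NoSecIn π D) (e : ℕ → ℂ → S) (he : ∀ k, e k ∈ Sec π D) :
    ∃ s : ℕ → ℕ, StrictMono s ∧ ∃ E ∈ Sec π D, Conv (fun k => e (s k)) E := by
  obtain ⟨C⟩ := exists_cov (S := S)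
  obtain ⟨r, hr, hr'⟩ := bounded_speed hπ hD hf C
  obtain ⟨s, hs', G, hG, hconv⟩ := ascoli_hol C hr e (fun k => (he k).1)
    (fun R => ⟨0, fun k _ x _ => hr' _ (he k) x⟩)
  have hpi : ∀ ζ, π (G ζ) = Λ.mkQ ζ := by
    intro ζ
    exact pi_tendsto hπ (hconv.tendsto hG.cont (tendsto_const_nhds (x := ζ)))
      (t := fun _ => ζ) tendsto_const_nhds (fun k => (he (s k)).2.2 ζ)
  refine ⟨s, hs', G, ⟨hG, ?_, hpi⟩, hconv⟩
  rcases conv_avoid hD (fun k => (he (s k)).1) hG hconv (fun k ζ => (he (s k)).2.1 ζ) with h | h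
  · exact h
  · obtain ⟨ζ₀, U, hU, F, hF, hFD, h0, hne⟩ := hs G hG hpi h
    obtain ⟨k, ζ, _, hζU, hζ0⟩ :=
      (conv_zero (fun k => (he (s k)).1) hG hconv hF hU h0 hne 1 one_pos).exists
    exact absurd (hFD _ (interior_subset hζU) hζ0) ((he (s k)).2.1 ζ)

/-- the form in which compactness is used: pairs, and one or two points moved to a bounded region -/
theorem sec_compact₂ (hπ : HolTo Λ π) (hD : IsDivisor D) (hf : FibresHyperbolic π D)
    (hs : NoSecIn π D) (e e' : ℕ → ℂ → S) (he : ∀ k, e k ∈ Sec π D) (he' : ∀ k, e' k ∈ Sec π D)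
    (x : ℕ → ℂ) :
    ∃ s : ℕ → ℕ, StrictMono s ∧ ∃ ω : ℕ → ℂ, (∀ k, ω k ∈ Λ) ∧
      ∃ E ∈ Sec π D, ∃ E' ∈ Sec π D, ∃ a : ℂ,
        Conv (fun k ζ => e (s k) (ζ + ω k)) E ∧ Conv (fun k ζ => e' (s k) (ζ + ω k)) E' ∧
        Tendsto (fun k => x (s k) - ω k) atTop (𝓝 a) := by
  obtain ⟨R, hR, hR'⟩ := lat_bdd Λ
  choose ω hω hωR using fun k => hR' (x k)
  obtain ⟨s1, hs1, E, hE, hc1⟩ := sec_compact hπ hD hf hs (fun k ζ => e k (ζ + ω k))
    (fun k => sec_translate (he k) (hω k))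
  obtain ⟨s2, hs2, E', hE', hc2⟩ := sec_compact hπ hD hf hs
    (fun k ζ => e' (s1 k) (ζ + ω (s1 k))) (fun k => sec_translate (he' _) (hω _))
  obtain ⟨a, -, s3, hs3, ha⟩ := (isCompact_closedBall (0 : ℂ) R).tendsto_subseq
    (x := fun k => x (s1 (s2 k)) - ω (s1 (s2 k))) (fun k => by
      rw [mem_closedBall_zero_iff]
      exact hωR _)
  refine ⟨fun k => s1 (s2 (s3 k)), hs1.comp (hs2.comp hs3), fun k => ω (s1 (s2 (s3 k))),
    fun k => hω _, E, hE, E', hE', a, ?_, ?_, ha⟩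
  · exact hc1.subseq (s := fun k => s2 (s3 k)) ((hs2.comp hs3).tendsto_atTop)
  · exact hc2.subseq (s := s3) hs3.tendsto_atTop

end BND

end Pool.Agent.ELL
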