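import Pool.Agent.ELL.Defs2

open scoped Manifold Topology
open Filter Metric Set

set_option linter.unusedSectionVars false

namespace Pool.Agent.ELL

section LAT
variable (Λ : Submodule ℤ ℂ) [DiscreteTopology Λ] [IsZLattice ℝ Λ]

theorem lat_bdd : ∃ R : ℝ, 0 < R ∧ ∀ ζ : ℂ, ∃ ω ∈ Λ, ‖ζ - ω‖ ≤ R := by
  classical
  have : Module.Finite ℤ Λ := ZLattice.module_finite ℝ Λ
  have : Module.Free ℤ Λ := ZLattice.module_free ℝ Λ
  let b := (Module.Free.chooseBasis ℤ Λ).ofZLatticeBasis ℝ Λ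
  obtain ⟨R, hR⟩ := (ZSpan.fundamentalDomain_isBounded b).exists_norm_le
  refine ⟨max R 1, by positivity, fun ζ => ?_⟩
  refine ⟨ζ - ZSpan.fract b ζ, ?_, ?_⟩
  · have h1 : ζ - ZSpan.fract b ζ = (ZSpan.floor b ζ : ℂ) := by
      rw [ZSpan.fract_apply, sub_sub_cancel]
    rw [h1]
    have h2 := (ZSpan.floor b ζ).2
    have h3 := (Module.Free.chooseBasis ℤ Λ).ofZLatticeBasis_span ℝ (L := Λ)
    exact h3.le h2
  · rw [sub_sub_cancel]
    exact (hR _ (ZSpan.fract_mem_fundamentalDomain b ζ)).trans (le_max_left _ _)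

theorem lat_min : ∃ μ : ℝ, 0 < μ ∧ ∀ ω ∈ Λ, ω ≠ 0 → μ ≤ ‖ω‖ := by
  have h : IsOpen ({0} : Set Λ) := isOpen_discrete _
  rw [Metric.isOpen_iff] at h
  obtain ⟨ε, hε, hball⟩ := h 0 (mem_singleton _)
  refine ⟨ε, hε, fun w hw hne => ?_⟩
  by_contra hlt
  push Not at hlt
  have h1 : (⟨w, hw⟩ : Λ) ∈ ball (0 : Λ) ε := by
    rw [mem_ball, dist_eq_norm, sub_zero]
    exact hlt
  have h2 := hball h1
  rw [mem_singleton_iff] at h2
  exact hne (congrArg Subtype.val h2)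

omit [IsZLattice ℝ Λ] in
theorem lat_isClosed : IsClosed (Λ : Set ℂ) := by
  have : DiscreteTopology Λ.toAddSubgroup := inferInstanceAs (DiscreteTopology Λ)
  exact AddSubgroup.isClosed_of_discrete (H := Λ.toAddSubgroup)

theorem lat_closed {u : ℕ → ℂ} {v : ℂ} (hu : Tendsto u atTop (𝓝 v)) (h : ∀ k, u k ∈ Λ) :
    v ∈ Λ :=
  (lat_isClosed Λ).mem_of_tendsto hu (Eventually.of_forall h)

theorem mkQ_eq_iff (Λ : Submodule ℤ ℂ) (a b : ℂ) : Λ.mkQ a = Λ.mkQ b ↔ a - b ∈ Λ := by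
  rw [Submodule.mkQ_apply, Submodule.mkQ_apply, Submodule.Quotient.eq]

end LAT

end Pool.Agent.ELL
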