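import Pool.Agent.ELL.Cht
import Pool.Agent.ELL.Lat

open scoped Manifold Topology
open Filter Metric Set

namespace Pool.Agent.ELL

section BRO
variable {S : Type*} [MetricSpace S] [CompactSpace S] [ChartedSpace (ℂ × ℂ) S]
  [IsManifold 𝓘(ℂ, ℂ × ℂ) 1 S] {Λ : Submodule ℤ ℂ} [DiscreteTopology Λ] [IsZLattice ℝ Λ]
  {π : S → ℂ ⧸ Λ}

omit [DiscreteTopology Λ] [IsZLattice ℝ Λ] in
/-- local lifts along a uniformly continuous holomorphic curve, on discs of a fixed radius and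
with a common bound -/
theorem bro_lifts (hπ : HolTo Λ π) {f : ℂ → S} (hf : HolC f) (hu : UniformContinuous f) :
    ∃ r > 0, ∃ B : ℝ, ∃ F : ℂ → ℂ → ℂ, ∀ x, (∀ ζ ∈ ball x r, DifferentiableAt ℂ (F x) ζ ∧
      ‖F x ζ‖ ≤ B ∧ π (f ζ) = Λ.mkQ (F x ζ)) := by
  classical
  have h1 : ∀ p : S, ∃ V : Set S, IsOpen V ∧ p ∈ V ∧ ∃ h : S → ℂ, ∃ B : ℝ, ∃ U : Set S, V ⊆ U ∧
      HolOn h U ∧ (∀ q ∈ U, π q = Λ.mkQ (h q)) ∧ ∀ q ∈ V, ‖h q‖ ≤ B := by
    intro p
    obtain ⟨U, hU, h, hh, hq⟩ := hπ p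
    have hc := hh.contAt hU
    have h2 : ∀ᶠ q in 𝓝 p, ‖h q‖ < ‖h p‖ + 1 :=
      (hc.norm).eventually (gt_mem_nhds (by linarith))
    have h3 : ∀ᶠ q in 𝓝 p, q ∈ U ∧ ‖h q‖ < ‖h p‖ + 1 := (Filter.eventually_mem_set.2 hU).and h2
    obtain ⟨V, hV1, hV2, hV3⟩ := _root_.eventually_nhds_iff.1 h3
    exact ⟨V, hV2, hV3, h, ‖h p‖ + 1, U, fun q hq => (hV1 q hq).1, hh, hq,
      fun q hq => (hV1 q hq).2.le⟩
  choose V hVo hpV h B U hVU hhol hpi hB using h1
  obtain ⟨t, -, ht⟩ := isCompact_univ.elim_nhds_subcover V (fun p _ => (hVo p).mem_nhds (hpV p))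
  obtain ⟨δ, hδ, hδ'⟩ := lebesgue_number_lemma_of_metric (c := fun p : t => V p.1)
    isCompact_univ (fun p => hVo p.1) (by
      intro q hq
      have := ht hq
      simp only [mem_iUnion] at this ⊢
      obtain ⟨p, hp, hqp⟩ := this
      exact ⟨⟨p, hp⟩, hqp⟩)
  obtain ⟨B0, hB0⟩ : ∃ B0 : ℝ, ∀ p ∈ t, B p ≤ B0 := by
    obtain ⟨B0, hB0⟩ := (t.image B).bddAbove
    exact ⟨B0, fun p hp => hB0 (Finset.mem_coe.2 (Finset.mem_image_of_mem _ hp))⟩
  obtain ⟨r, hr, hr'⟩ := Metric.uniformContinuous_iff.1 hu δ hδ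
  have h4 : ∀ x : ℂ, ∃ p : t, ball (f x) δ ⊆ V p.1 := fun x => hδ' (f x) (mem_univ _)
  choose i hi using h4
  refine ⟨r, hr, B0, fun x ζ => h (i x).1 (f ζ), fun x ζ hζ => ?_⟩
  have h5 : f ζ ∈ V (i x).1 := hi x (hr' hζ)
  have h6 : U (i x).1 ∈ 𝓝 (f ζ) := Filter.mem_of_superset ((hVo _).mem_nhds h5) (hVU _)
  exact ⟨hf.fn (hhol _) h6, (hB _ _ h5).trans (hB0 _ (i x).2), hpi _ _ (hVU _ h5)⟩

theorem brody_affine (hπ : HolTo Λ π) {f : ℂ → S} (hf : HolC f) (hu : UniformContinuous f) :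
    ∃ a b : ℂ, ∀ ζ, π (f ζ) = Λ.mkQ (a * ζ + b) := by
  obtain ⟨r, hr, B, F, hF⟩ := bro_lifts hπ hf hu
  obtain ⟨μ, hμ, hμ'⟩ := lat_min Λ
  have hdF : ∀ x, ∀ ζ ∈ ball x r, DifferentiableAt ℂ (F x) ζ := fun x ζ hζ => (hF x ζ hζ).1
  -- two lifts differ by a locally constant function
  have hloc : ∀ x, ∀ y ∈ ball x r, ∀ᶠ ζ in 𝓝 y, F x ζ - F y ζ = F x y - F y y := by
    intro x y hy
    have hyy : y ∈ ball y r := mem_ball_self hr
    have hc : ContinuousAt (fun ζ => F x ζ - F y ζ) y :=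
      ((hdF x y hy).continuousAt).sub ((hdF y y hyy).continuousAt)
    have h1 : ∀ᶠ ζ in 𝓝 y, dist (F x ζ - F y ζ) (F x y - F y y) < μ :=
      Metric.continuousAt_iff'.1 hc μ hμ
    filter_upwards [h1, isOpen_ball.mem_nhds hy, isOpen_ball.mem_nhds hyy] with ζ h2 h3 h4
    have h5 : ∀ ξ, ξ ∈ ball x r → ξ ∈ ball y r → F x ξ - F y ξ ∈ Λ := by
      intro ξ h6 h7
      rw [← mkQ_eq_iff Λ, ← (hF x ξ h6).2.2, ← (hF y ξ h7).2.2]
    by_contra hne
    have h8 := hμ' _ (Λ.sub_mem (h5 ζ h3 h4) (h5 y hy hyy)) (sub_ne_zero.2 hne)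
    rw [dist_eq_norm] at h2
    linarith
  have hder : ∀ x, ∀ y ∈ ball x r, deriv (F x) y = deriv (F y) y := by
    intro x y hy
    have hyy : y ∈ ball y r := mem_ball_self hr
    have h1 : deriv (fun ζ => F x ζ - F y ζ) y = 0 := by
      have h2 : (fun ζ => F x ζ - F y ζ) =ᶠ[𝓝 y] fun _ => F x y - F y y := hloc x y hy
      rw [h2.deriv_eq]
      simp
    rw [deriv_fun_sub (hdF x y hy) (hdF y y hyy)] at h1
    exact sub_eq_zero.1 h1
  have hdiffOn : ∀ x, DifferentiableOn ℂ (F x) (ball x r) := fun x ζ hζ =>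
    (hdF x ζ hζ).differentiableWithinAt
  -- the derivative
  have ha : Differentiable ℂ (fun x => deriv (F x) x) := by
    intro x
    have h1 : DifferentiableAt ℂ (deriv (F x)) x :=
      ((hdiffOn x).deriv isOpen_ball).differentiableAt (isOpen_ball.mem_nhds (mem_ball_self hr))
    refine h1.congr_of_eventuallyEq ?_
    filter_upwards [isOpen_ball.mem_nhds (mem_ball_self hr)] with y hy
    exact (hder x y hy).symm
  have hb : Bornology.IsBounded (range (fun x => deriv (F x) x)) := by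
    rw [isBounded_iff_forall_norm_le]
    refine ⟨B / (r / 2), ?_⟩
    rintro _ ⟨x, rfl⟩
    have hsub : closedBall x (r / 2) ⊆ ball x r := closedBall_subset_ball (by linarith)
    apply Complex.norm_deriv_le_of_forall_mem_sphere_norm_le (by linarith)
    · exact (hdiffOn x).diffContOnCl_ball hsub
    · intro ζ hζ
      exact (hF x ζ (hsub (sphere_subset_closedBall hζ))).2.1
  have hconst : ∀ x, deriv (F x) x = deriv (F 0) 0 := fun x =>
    ha.apply_eq_apply_of_bounded hb x 0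
  set a := deriv (F 0) 0 with ha_def
  -- the difference is locally constant
  have hlc : IsLocallyConstant (fun ζ => π (f ζ) - Λ.mkQ (a * ζ)) := by
    rw [IsLocallyConstant.iff_eventually_eq]
    intro x
    filter_upwards [isOpen_ball.mem_nhds (mem_ball_self (x := x) hr)] with y hy
    have h1 : F x y - a * y = F x x - a * x := by
      have h2 : DifferentiableOn ℂ (fun ζ => F x ζ - a * ζ) (ball x r) :=
        (hdiffOn x).sub ((differentiable_id.const_mul a).differentiableOn)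
      refine isOpen_ball.is_const_of_deriv_eq_zero (convex_ball x r).isPreconnected h2 ?_ hy
        (mem_ball_self hr)
      intro ζ hζ
      have h3 : HasDerivAt (fun ζ => F x ζ - a * ζ) (deriv (F x) ζ - a * 1) ζ :=
        ((hdF x ζ hζ).hasDerivAt).sub ((hasDerivAt_id ζ).const_mul a)
      rw [h3.deriv, hder x ζ hζ, hconst ζ]
      simp
    have hx := (hF x x (mem_ball_self hr)).2.2
    have hy' := (hF x y hy).2.2
    rw [hx, hy', ← map_sub, ← map_sub, h1]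
  have hall : ∀ ζ, π (f ζ) - Λ.mkQ (a * ζ) = π (f 0) - Λ.mkQ (a * 0) := fun ζ =>
    hlc.apply_eq_of_preconnectedSpace ζ 0
  refine ⟨a, F 0 0, fun ζ => ?_⟩
  have h1 := hall ζ
  rw [(hF 0 0 (mem_ball_self hr)).2.2, mul_zero, map_zero, sub_zero] at h1
  rw [map_add, ← h1]
  abel

end BRO

end Pool.Agent.ELL
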