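import Pool.Agent.ELL.Defs2

open scoped Manifold Topology
open Filter Metric Set

namespace Pool.Agent.ELL

section CHT
variable {S : Type*} [TopologicalSpace S] [ChartedSpace (ℂ × ℂ) S]
  [IsManifold 𝓘(ℂ, ℂ × ℂ) 1 S]

theorem HolC.cont {g : ℂ → S} (hg : HolC g) : Continuous g :=
  MDifferentiable.continuous hg

theorem HolC.chart {g : ℂ → S} (hg : HolC g) {φ : OpenPartialHomeomorph S (ℂ × ℂ)}
    (hφ : φ ∈ MA S) {x : ℂ} (hx : g x ∈ φ.source) :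
    DifferentiableAt ℂ (fun ζ => φ (g ζ)) x := by
  have h1 : MDifferentiableAt 𝓘(ℂ, ℂ × ℂ) 𝓘(ℂ, ℂ × ℂ) φ (g x) :=
    mdifferentiableAt_of_mem_maximalAtlas hφ hx
  have h2 : MDifferentiableAt 𝓘(ℂ, ℂ) 𝓘(ℂ, ℂ × ℂ) (φ ∘ g) x := h1.comp x (hg x)
  exact h2.differentiableAt

theorem HolC.fn {g : ℂ → S} (hg : HolC g) {F : S → ℂ} {U : Set S} (hF : HolOn F U) {x : ℂ}
    (hU : U ∈ 𝓝 (g x)) : DifferentiableAt ℂ (fun ζ => F (g ζ)) x := by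
  have h1 : MDifferentiableAt 𝓘(ℂ, ℂ × ℂ) 𝓘(ℂ, ℂ) F (g x) :=
    (ContMDiffOn.contMDiffAt hF hU).mdifferentiableAt one_ne_zero
  have h2 : MDifferentiableAt 𝓘(ℂ, ℂ) 𝓘(ℂ, ℂ) (F ∘ g) x := h1.comp x (hg x)
  exact h2.differentiableAt

theorem holC_of_charts {g : ℂ → S} (hc : Continuous g)
    (h : ∀ x, ∃ φ ∈ MA S, g x ∈ φ.source ∧ DifferentiableAt ℂ (fun ζ => φ (g ζ)) x) :
    HolC g := by
  intro x
  obtain ⟨φ, hφ, hx, hd⟩ := h x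
  have h1 : MDifferentiableAt 𝓘(ℂ, ℂ × ℂ) 𝓘(ℂ, ℂ × ℂ) φ.symm (φ (g x)) :=
    mdifferentiableAt_symm_of_mem_maximalAtlas hφ (φ.map_source hx)
  have h2 : MDifferentiableAt 𝓘(ℂ, ℂ) 𝓘(ℂ, ℂ × ℂ) (fun ζ => φ (g ζ)) x :=
    hd.mdifferentiableAt
  have h3 : MDifferentiableAt 𝓘(ℂ, ℂ) 𝓘(ℂ, ℂ × ℂ) (φ.symm ∘ fun ζ => φ (g ζ)) x :=
    MDifferentiableAt.comp x h1 h2
  refine h3.congr_of_eventuallyEq ?_
  have h4 : ∀ᶠ ζ in 𝓝 x, g ζ ∈ φ.source :=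
    hc.continuousAt.eventually (φ.open_source.mem_nhds hx)
  filter_upwards [h4] with ζ hζ
  simp [φ.left_inv hζ]

theorem HolC.comp_affine {g : ℂ → S} (hg : HolC g) (a b : ℂ) :
    HolC (fun ζ => g (a * ζ + b)) := by
  have h1 : MDifferentiable 𝓘(ℂ, ℂ) 𝓘(ℂ, ℂ) (fun ζ : ℂ => a * ζ + b) := by
    apply Differentiable.mdifferentiable
    fun_prop
  exact MDifferentiable.comp hg h1

theorem HolC.eq_of_eventuallyEq [T2Space S] {g g' : ℂ → S} (hg : HolC g) (hg' : HolC g')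
    {x : ℂ} (h : ∀ᶠ ζ in 𝓝 x, g ζ = g' ζ) : g = g' := by
  have hc := hg.cont
  have hc' := hg'.cont
  set A : Set ℂ := {x | ∀ᶠ ζ in 𝓝 x, g ζ = g' ζ} with hA
  have hopen : IsOpen A := by
    rw [isOpen_iff_mem_nhds]
    intro y hy
    exact eventually_eventually_nhds.2 hy
  have hclosed : IsClosed A := by
    rw [← closure_subset_iff_isClosed]
    intro y hy
    -- the values at `y` agree
    have hE : IsClosed {z : ℂ | g z = g' z} := isClosed_eq hc hc'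
    have hy' : g y = g' y := by
      have hsub : A ⊆ {z : ℂ | g z = g' z} := fun z hz => hz.self_of_nhds
      exact closure_minimal hsub hE hy
    set φ := chartAt (ℂ × ℂ) (g y) with hφ
    have hφm : φ ∈ MA S := IsManifold.chart_mem_maximalAtlas (g y)
    have hs : g y ∈ φ.source := mem_chart_source _ _
    have h1 : ∀ᶠ ζ in 𝓝 y, g ζ ∈ φ.source :=
      hc.continuousAt.eventually (φ.open_source.mem_nhds hs)
    have h2 : ∀ᶠ ζ in 𝓝 y, g' ζ ∈ φ.source :=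
      hc'.continuousAt.eventually (φ.open_source.mem_nhds (hy' ▸ hs))
    obtain ⟨r, hr, hb⟩ := Metric.eventually_nhds_iff_ball.1 (h1.and h2)
    have ha : AnalyticOnNhd ℂ (fun ζ => φ (g ζ)) (ball y r) := by
      apply DifferentiableOn.analyticOnNhd _ isOpen_ball
      intro z hz
      exact (hg.chart hφm (hb z hz).1).differentiableWithinAt
    have ha' : AnalyticOnNhd ℂ (fun ζ => φ (g' ζ)) (ball y r) := by
      apply DifferentiableOn.analyticOnNhd _ isOpen_ball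
      intro z hz
      exact (hg'.chart hφm (hb z hz).2).differentiableWithinAt
    obtain ⟨z, hz, hzA⟩ := Metric.mem_closure_iff.1 hy r hr
    have hzb : z ∈ ball y r := by rw [mem_ball, dist_comm]; exact hzA
    have hev : (fun ζ => φ (g ζ)) =ᶠ[𝓝 z] (fun ζ => φ (g' ζ)) := by
      have hz' : ∀ᶠ ζ in 𝓝 z, g ζ = g' ζ := hz
      filter_upwards [hz'] with ζ hζ
      simp only [hζ]
    have heq := ha.eqOn_of_preconnected_of_eventuallyEq ha' (convex_ball y r).isPreconnected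
      hzb hev
    have : ∀ᶠ ζ in 𝓝 y, g ζ = g' ζ := by
      filter_upwards [isOpen_ball.mem_nhds (mem_ball_self hr)] with ζ hζ
      exact φ.injOn (hb ζ hζ).1 (hb ζ hζ).2 (heq hζ)
    exact this
  have huniv : A = univ := IsClopen.eq_univ ⟨hclosed, hopen⟩ ⟨x, h⟩
  funext z
  have hz : z ∈ A := huniv ▸ mem_univ z
  have hz' : ∀ᶠ ζ in 𝓝 z, g ζ = g' ζ := hz
  exact hz'.self_of_nhds

theorem HolOn.contDiffAt {F : S → ℂ} {U : Set S} (hF : HolOn F U)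
    {φ : OpenPartialHomeomorph S (ℂ × ℂ)} (hφ : φ ∈ MA S) {p : S} (hp : p ∈ φ.source)
    (hU : U ∈ 𝓝 p) : ContDiffAt ℂ 1 (fun v => F (φ.symm v)) (φ p) := by
  have h1 : ContMDiffAt 𝓘(ℂ, ℂ × ℂ) 𝓘(ℂ, ℂ × ℂ) 1 φ.symm (φ p) :=
    contMDiffAt_symm_of_mem_maximalAtlas hφ (φ.map_source hp)
  have h2 : ContMDiffAt 𝓘(ℂ, ℂ × ℂ) 𝓘(ℂ, ℂ) 1 F (φ.symm (φ p)) := by
    rw [φ.left_inv hp]
    exact ContMDiffOn.contMDiffAt hF hU
  have h3 : ContMDiffAt 𝓘(ℂ, ℂ × ℂ) 𝓘(ℂ, ℂ) 1 (F ∘ φ.symm) (φ p) := h2.comp (φ p) h1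
  exact contMDiffAt_iff_contDiffAt.1 h3

theorem HolOn.contAt {F : S → ℂ} {U : Set S} (hF : HolOn F U) {p : S}
    (hU : U ∈ 𝓝 p) : ContinuousAt F p :=
  (ContMDiffOn.contMDiffAt hF hU).continuousAt

theorem contDiffAt_trans {φ ψ : OpenPartialHomeomorph S (ℂ × ℂ)} (hφ : φ ∈ MA S)
    (hψ : ψ ∈ MA S) {p : S} (hp : p ∈ φ.source) (hp' : p ∈ ψ.source) :
    ContDiffAt ℂ 1 (ψ ∘ φ.symm) (φ p) := by
  have h1 : ContMDiffAt 𝓘(ℂ, ℂ × ℂ) 𝓘(ℂ, ℂ × ℂ) 1 φ.symm (φ p) :=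
    contMDiffAt_symm_of_mem_maximalAtlas hφ (φ.map_source hp)
  have h2 : ContMDiffAt 𝓘(ℂ, ℂ × ℂ) 𝓘(ℂ, ℂ × ℂ) 1 ψ (φ.symm (φ p)) := by
    rw [φ.left_inv hp]
    exact contMDiffAt_of_mem_maximalAtlas hψ hp'
  exact contMDiffAt_iff_contDiffAt.1 (h2.comp (φ p) h1)

end CHT

end Pool.Agent.ELL
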