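import Pool.Agent.ELL.Cht

open scoped Manifold Topology
open Filter Metric Set

namespace Pool.Agent.ELL

section COVX
variable {S : Type*} [MetricSpace S] [CompactSpace S] [ChartedSpace (ℂ × ℂ) S]
  [IsManifold 𝓘(ℂ, ℂ × ℂ) 1 S]

theorem exists_cov : Nonempty (Cov S) := by
  classical
  have hex : ∀ p : S, ∃ r > 0, closedBall (chartAt (ℂ × ℂ) p p) r ⊆ (chartAt (ℂ × ℂ) p).target := by
    intro p
    have : (chartAt (ℂ × ℂ) p).target ∈ 𝓝 (chartAt (ℂ × ℂ) p p) :=
      (chartAt (ℂ × ℂ) p).open_target.mem_nhds (mem_chart_target _ _)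
    exact Metric.nhds_basis_closedBall.mem_iff.1 this
  choose r hr hsub using hex
  let V : S → Set S := fun p =>
    (chartAt (ℂ × ℂ) p).source ∩ (chartAt (ℂ × ℂ) p) ⁻¹' ball (chartAt (ℂ × ℂ) p p) (r p)
  have hVo : ∀ p, IsOpen (V p) := fun p =>
    (chartAt (ℂ × ℂ) p).isOpen_inter_preimage isOpen_ball
  have hVm : ∀ p, p ∈ V p := fun p => ⟨mem_chart_source _ _, mem_ball_self (hr p)⟩
  obtain ⟨t, ht⟩ := CompactSpace.elim_nhds_subcover V (fun p => (hVo p).mem_nhds (hVm p))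
  let e := t.equivFin
  refine ⟨{
    n := t.card
    φ := fun i => chartAt (ℂ × ℂ) ((e.symm i : S))
    c := fun i => chartAt (ℂ × ℂ) ((e.symm i : S)) (e.symm i : S)
    r := fun i => r (e.symm i : S)
    mem := fun i => IsManifold.chart_mem_maximalAtlas _
    rpos := fun i => hr _
    sub := fun i => hsub _
    cover := ?_ }⟩
  intro p
  have hp : p ∈ ⋃ x ∈ t, V x := by rw [ht]; trivial
  simp only [mem_iUnion] at hp
  obtain ⟨x, hx, hpx⟩ := hp
  refine ⟨e ⟨x, hx⟩, ?_⟩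
  simpa [V] using hpx

theorem Cov.isOpen_U {S : Type*} [MetricSpace S] [ChartedSpace (ℂ × ℂ) S] (C : Cov S)
    (i : Fin C.n) : IsOpen (C.U i) :=
  (C.φ i).isOpen_inter_preimage isOpen_ball

theorem Cov.lebesgue (C : Cov S) : ∃ δ > 0, ∀ p, ∃ i, ball p δ ⊆ C.U i := by
  have h := lebesgue_number_lemma_of_metric (s := (univ : Set S)) (c := C.U) isCompact_univ
    (fun i => C.isOpen_U i) (by
      intro p _
      obtain ⟨i, hi⟩ := C.cover p
      exact mem_iUnion.2 ⟨i, hi⟩)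
  obtain ⟨δ, hδ, h⟩ := h
  exact ⟨δ, hδ, fun p => h p (mem_univ p)⟩

theorem Good.mono {C : Cov S} {g : ℂ → S} {x y : ℂ} {r s : ℝ} (h : Good C g x r)
    (hs : s + dist y x ≤ r) : Good C g y s := by
  obtain ⟨i, hi⟩ := h
  refine ⟨i, fun ζ hζ => hi ζ ?_⟩
  rw [mem_ball] at hζ ⊢
  have := dist_triangle ζ y x
  linarith

theorem Good.modulus (C : Cov S) {r : ℝ} (hr : 0 < r) {ε : ℝ} (hε : 0 < ε) :
    ∃ δ > 0, δ ≤ r ∧ ∀ g : ℂ → S, HolC g → ∀ x, Good C g x r →
      ∀ ζ ∈ ball x δ, dist (g ζ) (g x) ≤ ε := by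
  classical
  -- moduli of continuity of the inverse charts
  have hη : ∀ i : Fin C.n, ∃ η > 0, ∀ u ∈ closedBall (C.c i) (C.r i),
      ∀ v ∈ closedBall (C.c i) (C.r i), dist u v < η →
      dist ((C.φ i).symm u) ((C.φ i).symm v) < ε := by
    intro i
    have hc : ContinuousOn (C.φ i).symm (closedBall (C.c i) (C.r i)) :=
      (C.φ i).continuousOn_symm.mono (C.sub i)
    have hu := (isCompact_closedBall (C.c i) (C.r i)).uniformContinuousOn_of_continuous hc
    rw [Metric.uniformContinuousOn_iff] at hu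
    obtain ⟨η, hη, h⟩ := hu ε hε
    exact ⟨η, hη, fun u hu v hv huv => h u hu v hv huv⟩
  choose η hηpos hη using hη
  have hδi : ∀ i : Fin C.n, 0 < η i * r / (4 * C.r i) := by
    intro i
    have h1 := hηpos i
    have h2 := C.rpos i
    positivity
  obtain ⟨δ, hδ, hδr, hδle⟩ : ∃ δ > 0, δ ≤ r ∧ ∀ i, δ ≤ η i * r / (4 * C.r i) := by
    have hfin : (Set.range (fun i : Fin C.n => η i * r / (4 * C.r i))).Finite :=
      Set.finite_range _
    have hev : ∀ᶠ δ in 𝓝[>] (0 : ℝ), δ ≤ r ∧ ∀ i, δ ≤ η i * r / (4 * C.r i) := by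
      refine Filter.Eventually.and ?_ ?_
      · exact mem_nhdsWithin_of_mem_nhds (Iic_mem_nhds hr)
      · rw [Filter.eventually_all]
        intro i
        exact mem_nhdsWithin_of_mem_nhds (Iic_mem_nhds (hδi i))
    obtain ⟨δ, h1, h2⟩ := (hev.and self_mem_nhdsWithin).exists
    exact ⟨δ, h2, h1.1, h1.2⟩
  refine ⟨δ, hδ, hδr, ?_⟩
  rintro g hg x ⟨i, hi⟩ ζ hζ
  have hx : x ∈ ball x r := mem_ball_self hr
  have hζr : ζ ∈ ball x r := ball_subset_ball hδr hζ
  set F : ℂ → ℂ × ℂ := fun z => C.φ i (g z) with hF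
  have hdiff : DifferentiableOn ℂ F (ball x r) := by
    intro z hz
    exact (hg.chart (C.mem i) (hi z hz).1).differentiableWithinAt
  have hmaps : MapsTo F (ball x r) (ball (F x) (2 * C.r i)) := by
    intro z hz
    have h1 : F z ∈ ball (C.c i) (C.r i) := (hi z hz).2
    have h2 : F x ∈ ball (C.c i) (C.r i) := (hi x hx).2
    rw [mem_ball] at h1 h2 ⊢
    have := dist_triangle_right (F z) (F x) (C.c i)
    linarith
  have hschw := Complex.dist_le_div_mul_dist_of_mapsTo_ball hdiff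
    (hmaps.mono_right ball_subset_closedBall) hζr
  have hri := C.rpos i
  have hηi := hηpos i
  have hlt : dist (F ζ) (F x) < η i := by
    rw [mem_ball] at hζ
    calc dist (F ζ) (F x) ≤ 2 * C.r i / r * dist ζ x := hschw
      _ ≤ 2 * C.r i / r * (η i * r / (4 * C.r i)) := by
          apply mul_le_mul_of_nonneg_left _ (by positivity)
          exact hζ.le.trans (hδle i)
      _ = η i / 2 := by field_simp; ring
      _ < η i := by linarith
  have hζU := hi ζ hζr
  have hxU := hi x hx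
  have := hη i (F ζ) (ball_subset_closedBall hζU.2) (F x) (ball_subset_closedBall hxU.2) hlt
  rw [hF] at this
  simp only [(C.φ i).left_inv hζU.1, (C.φ i).left_inv hxU.1] at this
  exact this.le

end COVX

end Pool.Agent.ELL
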