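import Mathlib

/-!
# Surfaces fibred over an elliptic curve: definitions

`S` is a complex surface: a manifold modelled on `ℂ × ℂ` whose coordinate changes are of class `C^1`
over `ℂ`, that is, holomorphic. The elliptic curve is `ℂ / Λ`, `Λ` a lattice.
-/

open scoped Manifold Topology

namespace Pool.Agent.ELL

section Defs

variable {S : Type*} [TopologicalSpace S] [ChartedSpace (ℂ × ℂ) S]

/-- `g` is a holomorphic map from the complex line to the surface `S` (an entire curve). -/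
def HolC (g : ℂ → S) : Prop := MDifferentiable 𝓘(ℂ, ℂ) 𝓘(ℂ, ℂ × ℂ) g

/-- `F` is holomorphic on the subset `U` of the surface `S`. -/
def HolOn (F : S → ℂ) (U : Set S) : Prop := ContMDiffOn 𝓘(ℂ, ℂ × ℂ) 𝓘(ℂ, ℂ) 1 F U

/-- `π` is a holomorphic map from `S` to the elliptic curve `ℂ / Λ`: locally it is the class of a
holomorphic function. -/
def HolTo (Λ : Submodule ℤ ℂ) (π : S → ℂ ⧸ Λ) : Prop :=
  ∀ p : S, ∃ U ∈ 𝓝 p, ∃ h : S → ℂ, HolOn h U ∧ ∀ q ∈ U, π q = Λ.mkQ (h q)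

/-- `p` is a node of a fibre of `π`: in suitable holomorphic coordinates `(x, y)` around `p`, which
vanish at `p`, the map `π` is (the class of) `c + x y`. -/
def IsNode (Λ : Submodule ℤ ℂ) (π : S → ℂ ⧸ Λ) (p : S) : Prop :=
  ∃ φ ∈ IsManifold.maximalAtlas 𝓘(ℂ, ℂ × ℂ) 1 S, p ∈ φ.source ∧ φ p = 0 ∧
    ∃ c : ℂ, ∀ q ∈ φ.source, π q = Λ.mkQ (c + (φ q).1 * (φ q).2)

/-- `D` is a (possibly empty) closed subset of `S` which is locally the zero set of one holomorphic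
function. -/
def IsDivisor (D : Set S) : Prop :=
  IsClosed D ∧ ∀ p ∈ D, ∃ U ∈ 𝓝 p, ∃ F : S → ℂ, HolOn F U ∧ ∀ q ∈ U, (q ∈ D ↔ F q = 0)

end Defs

/-- A holomorphic `m`-canonical form on the complement of `D` in `S`, given by its coefficients in
all holomorphic charts: `coeff φ` is the coefficient of `(dx ∧ dy)^m` in the chart `φ = (x, y)`. -/
structure PluriForm (S : Type*) [TopologicalSpace S] [ChartedSpace (ℂ × ℂ) S] (m : ℕ)
    (D : Set S) where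
  coeff : OpenPartialHomeomorph S (ℂ × ℂ) → S → ℂ
  hol : ∀ φ ∈ IsManifold.maximalAtlas 𝓘(ℂ, ℂ × ℂ) 1 S, HolOn (coeff φ) (φ.source \ D)
  trans : ∀ φ ∈ IsManifold.maximalAtlas 𝓘(ℂ, ℂ × ℂ) 1 S,
    ∀ ψ ∈ IsManifold.maximalAtlas 𝓘(ℂ, ℂ × ℂ) 1 S, ∀ p ∈ φ.source ∩ ψ.source, p ∉ D →
      coeff φ p = coeff ψ p * (fderiv ℂ (ψ ∘ φ.symm) (φ p)).det ^ m

section Hyp

variable {S : Type*} [TopologicalSpace S] [ChartedSpace (ℂ × ℂ) S]

/-- The forms `σ i` separate the points of `S \ D` which lie in different fibres of `π`: their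
coefficient vectors at two such points are linearly independent. -/
def Separates {Λ : Submodule ℤ ℂ} (π : S → ℂ ⧸ Λ) (D : Set S) {m : ℕ} {ι : Type}
    (σ : ι → PluriForm S m D) : Prop :=
  ∀ p q : S, p ∉ D → q ∉ D → π p ≠ π q →
    LinearIndependent ℂ ![fun i => (σ i).coeff (chartAt (ℂ × ℂ) p) p,
      fun i => (σ i).coeff (chartAt (ℂ × ℂ) q) q]

/-- Hyperbolicity of the fibre of `π` over the class of `b`: every nonconstant entire curve in it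
either meets `D` without lying in `D`, or is at two different parameters in a node. -/
def FibHyp {Λ : Submodule ℤ ℂ} (π : S → ℂ ⧸ Λ) (D : Set S) (b : ℂ) : Prop :=
  ∀ g : ℂ → S, HolC g → (∀ ζ, π (g ζ) = Λ.mkQ b) → (∃ ζ, g ζ ≠ g 0) →
    ((∃ ζ, g ζ ∈ D) ∧ ∃ ζ, g ζ ∉ D) ∨
      ∃ ζ ζ' : ℂ, ζ ≠ ζ' ∧ IsNode Λ π (g ζ) ∧ IsNode Λ π (g ζ')

/-- The holomorphic maps from `ℂ` to `S` which avoid `D` and lift the projection to `ℂ / Λ`. -/
def Sec {Λ : Submodule ℤ ℂ} (π : S → ℂ ⧸ Λ) (D : Set S) : Set (ℂ → S) :=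
  {e | HolC e ∧ (∀ ζ, e ζ ∉ D) ∧ ∀ ζ, π (e ζ) = Λ.mkQ ζ}

/-- Every holomorphic lift of the projection to `ℂ / Λ` which lies in `D` meets another branch
`F = 0` of `D`. -/
def NoSecIn {Λ : Submodule ℤ ℂ} (π : S → ℂ ⧸ Λ) (D : Set S) : Prop :=
  ∀ e : ℂ → S, HolC e → (∀ ζ, π (e ζ) = Λ.mkQ ζ) → (∀ ζ, e ζ ∈ D) →
    ∃ ζ₀ : ℂ, ∃ U ∈ 𝓝 (e ζ₀), ∃ F : S → ℂ, HolOn F U ∧ (∀ q ∈ U, F q = 0 → q ∈ D) ∧
      F (e ζ₀) = 0 ∧ ¬ ∀ᶠ ζ in 𝓝 ζ₀, F (e ζ) = 0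

/-- The fibre over the class of `b` contains a node or is not hyperbolic in the above sense. -/
def BadFibre {Λ : Submodule ℤ ℂ} (π : S → ℂ ⧸ Λ) (D : Set S) (b : ℂ) : Prop :=
  (∃ p, IsNode Λ π p ∧ π p = Λ.mkQ b) ∨ ¬ FibHyp π D b

end Hyp

section Fib

variable {S : Type*} [MetricSpace S] [ChartedSpace (ℂ × ℂ) S]

/-- Local normality at `b`: the holomorphic sections of `π` over a fixed disc around `b` which
avoid `D` are equicontinuous at `b`. -/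
def LocNormal {Λ : Submodule ℤ ℂ} (π : S → ℂ ⧸ Λ) (D : Set S) (b : ℂ) : Prop :=
  ∃ r > 0, ∀ ε > 0, ∃ δ > 0, ∀ g : ℂ → S,
    MDifferentiableOn 𝓘(ℂ, ℂ) 𝓘(ℂ, ℂ × ℂ) g (Metric.ball b r) →
    (∀ ζ ∈ Metric.ball b r, g ζ ∉ D ∧ π (g ζ) = Λ.mkQ ζ) →
      ∀ ζ ∈ Metric.ball b δ, dist (g ζ) (g b) ≤ ε

/-- Every fibre of `π` is hyperbolic in the sense of `FibHyp`, or the sections near it are normal
in the sense of `LocNormal`. -/
def FibresHyperbolic {Λ : Submodule ℤ ℂ} (π : S → ℂ ⧸ Λ) (D : Set S) : Prop :=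
  ∀ b : ℂ, FibHyp π D b ∨ LocNormal π D b

end Fib

end Pool.Agent.ELL
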