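import Pool.Agent.ELL.Defs

/-!
# Working definitions (none of them occurs in the final statement)
-/

open scoped Manifold Topology
open Filter Metric Set

namespace Pool.Agent.ELL

/-- all holomorphic charts of `S` -/
abbrev MA (S : Type*) [TopologicalSpace S] [ChartedSpace (ℂ × ℂ) S] :
    Set (OpenPartialHomeomorph S (ℂ × ℂ)) :=
  IsManifold.maximalAtlas 𝓘(ℂ, ℂ × ℂ) 1 S

/-- locally uniform convergence, in explicit form -/
def Conv {S : Type*} [MetricSpace S] (g : ℕ → ℂ → S) (G : ℂ → S) : Prop :=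
  ∀ R : ℝ, ∀ ε > 0, ∃ K : ℕ, ∀ k ≥ K, ∀ x : ℂ, ‖x‖ ≤ R → dist (g k x) (G x) < ε

/-- A finite cover of `S` by coordinate balls. -/
structure Cov (S : Type*) [MetricSpace S] [ChartedSpace (ℂ × ℂ) S] where
  n : ℕ
  φ : Fin n → OpenPartialHomeomorph S (ℂ × ℂ)
  c : Fin n → ℂ × ℂ
  r : Fin n → ℝ
  mem : ∀ i, φ i ∈ MA S
  rpos : ∀ i, 0 < r i
  sub : ∀ i, closedBall (c i) (r i) ⊆ (φ i).target
  cover : ∀ p, ∃ i, p ∈ (φ i).source ∧ φ i p ∈ ball (c i) (r i)

/-- The coordinate balls of a cover. -/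
def Cov.U {S : Type*} [MetricSpace S] [ChartedSpace (ℂ × ℂ) S] (C : Cov S) (i : Fin C.n) :
    Set S := (C.φ i).source ∩ C.φ i ⁻¹' ball (C.c i) (C.r i)

/-- `g` maps the disc of radius `r` around `x` into one coordinate ball of the cover. -/
def Good {S : Type*} [MetricSpace S] [ChartedSpace (ℂ × ℂ) S] (C : Cov S) (g : ℂ → S) (x : ℂ)
    (r : ℝ) : Prop := ∃ i, ∀ ζ ∈ ball x r, g ζ ∈ C.U i

/-- A finite family of vertical charts (the first coordinate is a local lift of `π`) which covers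
the images of all the elements of `Sec π D`, with Lebesgue number `δ`. -/
structure VCov {S : Type*} [MetricSpace S] [ChartedSpace (ℂ × ℂ) S] {Λ : Submodule ℤ ℂ}
    (π : S → ℂ ⧸ Λ) (D : Set S) (μ : ℝ) where
  n : ℕ
  φ : Fin n → OpenPartialHomeomorph S (ℂ × ℂ)
  δ : ℝ
  mem : ∀ i, φ i ∈ MA S
  vert : ∀ i, ∀ q ∈ (φ i).source, π q = Λ.mkQ (φ i q).1
  osc : ∀ i, ∀ q ∈ (φ i).source, ∀ q' ∈ (φ i).source, ‖φ i q - φ i q'‖ < μ
  δpos : 0 < δ
  cover : ∀ e ∈ Sec π D, ∀ ζ, ∃ i, closedBall (e ζ) δ ⊆ (φ i).source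

/-- The vector of the coefficients of the forms at `p`, in the chart `φ`. -/
noncomputable def vec {S : Type*} [TopologicalSpace S] [ChartedSpace (ℂ × ℂ) S] {D : Set S}
    {m : ℕ} {ι : Type} [Fintype ι] (σ : ι → PluriForm S m D)
    (φ : OpenPartialHomeomorph S (ℂ × ℂ)) (p : S) : EuclideanSpace ℂ ι :=
  WithLp.toLp 2 (fun i => (σ i).coeff φ p)

/-- The distance of two close points `p`, `q` of a fibre, measured by the forms at `p`
(to the power `m`), in the vertical chart `φ`. -/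
noncomputable def PN {S : Type*} [TopologicalSpace S] [ChartedSpace (ℂ × ℂ) S] {D : Set S}
    {m : ℕ} {ι : Type} [Fintype ι] (σ : ι → PluriForm S m D)
    (φ : OpenPartialHomeomorph S (ℂ × ℂ)) (p q : S) : ℝ :=
  ‖(φ q).2 - (φ p).2‖ ^ m * ‖vec σ φ p‖

end Pool.Agent.ELL
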