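import Pool.Agent.ELL.Defs2

open scoped Manifold Topology
open Filter Metric Set

namespace Pool.Agent.ELL

section DET

theorem det_of_fst (M : ℂ × ℂ →L[ℂ] ℂ × ℂ) (h : ∀ v, (M v).1 = v.1) :
    M.det = (M (0, 1)).2 := by
  have h1 : M.det = LinearMap.det (M : ℂ × ℂ →ₗ[ℂ] ℂ × ℂ) := rfl
  rw [h1, ← LinearMap.det_toMatrix (Module.Basis.finTwoProd ℂ), Matrix.det_fin_two]
  simp [LinearMap.toMatrix_apply, h]

end DET

end Pool.Agent.ELL
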