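import Pool.Agent.ELL.Lim
import Pool.Agent.ELL.Lat

open scoped Manifold Topology
open Filter Metric Set

set_option linter.unusedSectionVars false

namespace Pool.Agent.ELL

section LPI
variable {S : Type*} [MetricSpace S] [ChartedSpace (ℂ × ℂ) S] [IsManifold 𝓘(ℂ, ℂ × ℂ) 1 S]
  {Λ : Submodule ℤ ℂ} [DiscreteTopology Λ] [IsZLattice ℝ Λ] {π : S → ℂ ⧸ Λ}

theorem pi_tendsto_ev (hπ : HolTo Λ π) {p : ℕ → S} {q : S} (hp : Tendsto p atTop (𝓝 q))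
    {t : ℕ → ℂ} {u : ℂ} (ht : Tendsto t atTop (𝓝 u))
    (h : ∀ᶠ k in atTop, π (p k) = Λ.mkQ (t k)) : π q = Λ.mkQ u := by
  obtain ⟨U, hU, f, hf, hfU⟩ := hπ q
  have hfc : ContinuousAt f q := hf.contAt hU
  have h1 : Tendsto (fun k => f (p k) - t k) atTop (𝓝 (f q - u)) :=
    (hfc.tendsto.comp hp).sub ht
  have h2 : ∀ᶠ k in atTop, f (p k) - t k ∈ (Λ : Set ℂ) := by
    filter_upwards [h, hp.eventually hU] with k hk hkU
    rw [hfU _ hkU, mkQ_eq_iff] at hk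
    exact hk
  rw [hfU q (mem_of_mem_nhds hU), mkQ_eq_iff]
  exact (lat_isClosed Λ).mem_of_tendsto h1 h2

theorem pi_tendsto (hπ : HolTo Λ π) {p : ℕ → S} {q : S} (hp : Tendsto p atTop (𝓝 q))
    {t : ℕ → ℂ} {u : ℂ} (ht : Tendsto t atTop (𝓝 u)) (h : ∀ k, π (p k) = Λ.mkQ (t k)) :
    π q = Λ.mkQ u :=
  pi_tendsto_ev hπ hp ht (Eventually.of_forall h)

theorem conv_pi (hπ : HolTo Λ π) {g : ℕ → ℂ → S} {G : ℂ → S} (hG : Continuous G)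
    (h : Conv g G) {t ρ : ℕ → ℂ} {ρ0 : ℂ} (hgp : ∀ k ζ, π (g k ζ) = Λ.mkQ (t k + ρ k * ζ))
    (hρ : Tendsto ρ atTop (𝓝 ρ0)) : ∃ t0 : ℂ, ∀ ζ, π (G ζ) = Λ.mkQ (t0 + ρ0 * ζ) := by
  obtain ⟨U, hU, f, hf, hfU⟩ := hπ (G 0)
  have hfc : ContinuousAt f (G 0) := hf.contAt hU
  have h0 : Tendsto (fun k => g k 0) atTop (𝓝 (G 0)) := h.tendsto hG tendsto_const_nhds
  refine ⟨f (G 0), fun ζ => ?_⟩
  have h1 : Tendsto (fun k => g k ζ) atTop (𝓝 (G ζ)) := h.tendsto hG tendsto_const_nhds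
  refine pi_tendsto_ev hπ h1 (t := fun k => f (g k 0) + ρ k * ζ)
    ((hfc.tendsto.comp h0).add (hρ.mul_const ζ)) ?_
  filter_upwards [h0.eventually hU] with k hk
  have h2 := hgp k 0
  rw [mul_zero, add_zero, hfU _ hk] at h2
  rw [hgp k ζ, map_add, map_add, ← h2]

end LPI

end Pool.Agent.ELL
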