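import Pool.Agent.ELL.Rig
import Pool.Agent.ELL.Bro

open scoped Manifold Topology
open Filter Metric Set

namespace Pool.Agent.ELL

section MAIN
variable {S : Type*} [MetricSpace S] [CompactSpace S] [ChartedSpace (ℂ × ℂ) S]
  [IsManifold 𝓘(ℂ, ℂ × ℂ) 1 S] {Λ : Submodule ℤ ℂ} [DiscreteTopology Λ] [IsZLattice ℝ Λ]
  {π : S → ℂ ⧸ Λ} {D : Set S} {m : ℕ} {ι : Type} [Fintype ι]

theorem main (hπ : HolTo Λ π) (hD : IsDivisor D) (hf : FibresHyperbolic π D)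
    (hs : NoSecIn π D) (hm : 0 < m) (σ : ι → PluriForm S m D) (hσ : Separates π D σ) :
    (Sec π D).Finite ∧
    (∃ n : ℕ, 0 < n ∧ ∀ e ∈ Sec π D, ∀ ω ∈ Λ, ∀ ζ, e (ζ + n * ω) = e ζ) ∧
    ∀ f : ℂ → S, HolC f → UniformContinuous f → (∀ ζ, f ζ ∉ D) → (∃ ζ, f ζ ≠ f 0) →
      (∃ e ∈ Sec π D, ∃ a b : ℂ, a ≠ 0 ∧ ∀ ζ, f ζ = e (a * ζ + b)) ∨
        ∃ b : ℂ, BadFibre π D b ∧ ∀ ζ, π (f ζ) = Λ.mkQ b := by
  have hfin := sec_finite hπ hD hf hs hσ hm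
  refine ⟨hfin, sec_periodic hfin, ?_⟩
  intro f hfh hfu hfD hfne
  obtain ⟨a, b, hab⟩ := brody_affine hπ hfh hfu
  by_cases ha : a = 0
  · right
    have hconst : ∀ ζ, π (f ζ) = Λ.mkQ b := by
      intro ζ
      rw [hab, ha, zero_mul, zero_add]
    refine ⟨b, ?_, hconst⟩
    by_cases hb : FibHyp π D b
    · left
      rcases hb f hfh hconst hfne with ⟨⟨ζ, hζ⟩, _⟩ | ⟨ζ, _, _, hn, _⟩
      · exact absurd hζ (hfD ζ)
      · exact ⟨f ζ, hn, hconst ζ⟩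
    · exact Or.inr hb
  · left
    refine ⟨fun ζ => f (a⁻¹ * ζ + -(a⁻¹ * b)), ⟨hfh.comp_affine _ _, fun ζ => hfD _, ?_⟩, a, b,
      ha, ?_⟩
    · intro ζ
      rw [hab]
      congr 1
      field_simp
      ring
    · intro ζ
      show f ζ = f (a⁻¹ * (a * ζ + b) + -(a⁻¹ * b))
      congr 1
      field_simp
      ring

end MAIN

end Pool.Agent.ELL
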