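import Pool.Agent.ELL.Vec
import Pool.Agent.ELL.Det

open scoped Manifold Topology
open Filter Metric Set

namespace Pool.Agent.ELL

section OVL
variable {S : Type*} [MetricSpace S] [CompactSpace S] [ChartedSpace (ℂ × ℂ) S]
  [IsManifold 𝓘(ℂ, ℂ × ℂ) 1 S] {Λ : Submodule ℤ ℂ} [DiscreteTopology Λ] [IsZLattice ℝ Λ]
  {π : S → ℂ ⧸ Λ} {D : Set S} {m : ℕ} {ι : Type} [Fintype ι] {σ : ι → PluriForm S m D}

omit [CompactSpace S] [IsManifold 𝓘(ℂ, ℂ × ℂ) 1 S] [DiscreteTopology Λ] [IsZLattice ℝ Λ] in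
theorem vert_const {μ : ℝ} (hμΛ : ∀ ω ∈ Λ, ω ≠ 0 → 2 * μ ≤ ‖ω‖)
    {φ ψ : OpenPartialHomeomorph S (ℂ × ℂ)}
    (hφv : ∀ q ∈ φ.source, π q = Λ.mkQ (φ q).1) (hψv : ∀ q ∈ ψ.source, π q = Λ.mkQ (ψ q).1)
    (hφo : ∀ q ∈ φ.source, ∀ q' ∈ φ.source, ‖φ q - φ q'‖ < μ)
    (hψo : ∀ q ∈ ψ.source, ∀ q' ∈ ψ.source, ‖ψ q - ψ q'‖ < μ)
    {p q : S} (hp : p ∈ φ.source) (hp' : p ∈ ψ.source) (hq : q ∈ φ.source)
    (hq' : q ∈ ψ.source) : (ψ q).1 = (φ q).1 + ((ψ p).1 - (φ p).1) := by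
  have h1 : (ψ q).1 - (φ q).1 ∈ Λ := by
    rw [← mkQ_eq_iff, ← hφv q hq, ← hψv q hq']
  have h2 : (ψ p).1 - (φ p).1 ∈ Λ := by
    rw [← mkQ_eq_iff, ← hφv p hp, ← hψv p hp']
  have h3 := Λ.sub_mem h1 h2
  by_contra hne
  have h4 := hμΛ _ h3 (fun h0 => hne (by linear_combination h0))
  have h5 : ‖(ψ q).1 - (φ q).1 - ((ψ p).1 - (φ p).1)‖ ≤ ‖ψ q - ψ p‖ + ‖φ q - φ p‖ := by
    have h6 : (ψ q).1 - (φ q).1 - ((ψ p).1 - (φ p).1) = (ψ q - ψ p).1 - (φ q - φ p).1 := by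
      simp only [Prod.fst_sub]
      ring
    rw [h6]
    exact (norm_sub_le _ _).trans (add_le_add (norm_fst_le _) (norm_fst_le _))
  have h7 := hφo q hq p hp
  have h8 := hψo q hq' p hp'
  linarith

/-- jacobian of a change of vertical charts -/
theorem vert_jac {μ : ℝ} (hμΛ : ∀ ω ∈ Λ, ω ≠ 0 → 2 * μ ≤ ‖ω‖)
    {φ ψ : OpenPartialHomeomorph S (ℂ × ℂ)} (hφ : φ ∈ MA S) (hψ : ψ ∈ MA S)
    (hφv : ∀ q ∈ φ.source, π q = Λ.mkQ (φ q).1) (hψv : ∀ q ∈ ψ.source, π q = Λ.mkQ (ψ q).1)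
    (hφo : ∀ q ∈ φ.source, ∀ q' ∈ φ.source, ‖φ q - φ q'‖ < μ)
    (hψo : ∀ q ∈ ψ.source, ∀ q' ∈ ψ.source, ‖ψ q - ψ q'‖ < μ)
    {p : S} (hp : p ∈ φ.source) (hp' : p ∈ ψ.source) :
    (fderiv ℂ (ψ ∘ φ.symm) (φ p)).det = (fderiv ℂ (ψ ∘ φ.symm) (φ p) (0, 1)).2 := by
  refine det_of_fst _ fun v => ?_
  have hT : ContDiffAt ℂ 1 (ψ ∘ φ.symm) (φ p) := contDiffAt_trans hφ hψ hp hp'
  have hd : HasFDerivAt (ψ ∘ φ.symm) (fderiv ℂ (ψ ∘ φ.symm) (φ p)) (φ p) :=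
    (hT.differentiableAt one_ne_zero).hasFDerivAt
  have h1 : HasFDerivAt (fun v => ((ψ ∘ φ.symm) v).1)
      ((ContinuousLinearMap.fst ℂ ℂ ℂ).comp (fderiv ℂ (ψ ∘ φ.symm) (φ p))) (φ p) :=
    (ContinuousLinearMap.fst ℂ ℂ ℂ).hasFDerivAt.comp (φ p) hd
  have h2 : HasFDerivAt (fun v : ℂ × ℂ => v.1 + ((ψ p).1 - (φ p).1))
      (ContinuousLinearMap.fst ℂ ℂ ℂ) (φ p) :=
    (ContinuousLinearMap.fst ℂ ℂ ℂ).hasFDerivAt.add_const _
  have h3 : (fun v => ((ψ ∘ φ.symm) v).1) =ᶠ[𝓝 (φ p)]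
      (fun v : ℂ × ℂ => v.1 + ((ψ p).1 - (φ p).1)) := by
    have g1 : ∀ᶠ v in 𝓝 (φ p), v ∈ φ.target := φ.open_target.mem_nhds (φ.map_source hp)
    have g2 : ∀ᶠ v in 𝓝 (φ p), φ.symm v ∈ ψ.source := by
      have h5 : ContinuousAt φ.symm (φ p) := φ.continuousAt_symm (φ.map_source hp)
      refine h5.preimage_mem_nhds ?_
      rw [φ.left_inv hp]
      exact ψ.open_source.mem_nhds hp'
    filter_upwards [g1, g2] with v hv1 hv2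
    have h4 := vert_const hμΛ hφv hψv hφo hψo hp hp' (φ.map_target hv1) hv2
    rw [φ.right_inv hv1] at h4
    exact h4
  have h4 := h1.unique (h2.congr_of_eventuallyEq h3)
  have h5 := DFunLike.congr_fun h4 v
  exact h5

theorem overlap (hπ : HolTo Λ π) (hD : IsDivisor D) (hf : FibresHyperbolic π D)
    (hs : NoSecIn π D) (hσ : Separates π D σ) (hm : 0 < m) {μ : ℝ}
    (hμΛ : ∀ ω ∈ Λ, ω ≠ 0 → 2 * μ ≤ ‖ω‖) (C : VCov π D μ) {τ : ℝ} (hτ : 0 < τ) :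
    ∃ ε > 0, ∀ i j, ∀ e ∈ Sec π D, ∀ x, ∀ q : S, dist q (e x) ≤ ε →
      closedBall (e x) (C.δ / 2) ⊆ (C.φ i).source →
      closedBall (e x) (C.δ / 2) ⊆ (C.φ j).source →
      (C.φ i (e x)).1 = (C.φ i q).1 →
        PN σ (C.φ j) (e x) q ≤ (1 + τ) * PN σ (C.φ i) (e x) q := by
  by_contra hcon
  push Not at hcon
  have hcon' : ∀ k : ℕ, ∃ ij : Fin C.n × Fin C.n, ∃ e ∈ Sec π D, ∃ x, ∃ q : S,
      dist q (e x) ≤ 1 / ((k : ℝ) + 1) ∧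
      closedBall (e x) (C.δ / 2) ⊆ (C.φ ij.1).source ∧
      closedBall (e x) (C.δ / 2) ⊆ (C.φ ij.2).source ∧
      (C.φ ij.1 (e x)).1 = (C.φ ij.1 q).1 ∧
        (1 + τ) * PN σ (C.φ ij.1) (e x) q < PN σ (C.φ ij.2) (e x) q := by
    intro k
    obtain ⟨i, j, e, he, x, q, h1, h2, h3, h4, h5⟩ := hcon (1 / ((k : ℝ) + 1)) (by positivity)
    exact ⟨(i, j), e, he, x, q, h1, h2, h3, h4, h5⟩
  choose ij e he x q h1 h2 h3 h4 h5 using hcon'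
  -- a constant pair of indices
  obtain ⟨⟨i, j⟩, hij⟩ : ∃ b : Fin C.n × Fin C.n, ∃ᶠ k in atTop, ij k = b := by
    obtain ⟨b, hb⟩ := Finite.exists_infinite_fiber ij
    refine ⟨b, ?_⟩
    rw [Nat.frequently_atTop_iff_infinite]
    exact Set.infinite_coe_iff.1 hb
  obtain ⟨s₀, hs₀, hs₀'⟩ := extraction_of_frequently_atTop hij
  obtain ⟨s, hsm, ω, hω, E, hE, E', hE', a, hc1, -, hxa⟩ :=
    sec_compact₂ hπ hD hf hs (fun k => e (s₀ k)) (fun k => e (s₀ k)) (fun k => he _)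
      (fun k => he _) (fun k => x (s₀ k))
  -- the sequences
  set t : ℕ → ℕ := fun k => s₀ (s k) with ht
  have htt : Tendsto t atTop atTop := (hs₀.comp hsm).tendsto_atTop
  have hpk : Tendsto (fun k => e (t k) (x (t k))) atTop (𝓝 (E a)) := by
    have g1 := hc1.tendsto hE.1.cont hxa
    refine g1.congr fun k => ?_
    simp only [sub_add_cancel]
    rfl
  have hqk : Tendsto (fun k => q (t k)) atTop (𝓝 (E a)) := by
    rw [tendsto_iff_dist_tendsto_zero] at hpk ⊢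
    have g1 : Tendsto (fun k => 1 / ((t k : ℝ) + 1)) atTop (𝓝 0) :=
      tendsto_one_div_add_atTop_nhds_zero_nat.comp htt
    have g2 := g1.add hpk
    rw [add_zero] at g2
    refine squeeze_zero (fun _ => dist_nonneg) (fun k => ?_) g2
    exact (dist_triangle _ (e (t k) (x (t k))) _).trans (add_le_add (h1 (t k)) le_rfl)
  have hijt : ∀ k, ij (t k) = (i, j) := fun k => hs₀' (s k)
  have hclose : ∀ᶠ k in atTop, dist (E a) (e (t k) (x (t k))) ≤ C.δ / 2 := by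
    have g1 := Metric.tendsto_nhds.1 hpk (C.δ / 2) (by have := C.δpos; positivity)
    filter_upwards [g1] with k hk
    rw [dist_comm]
    exact hk.le
  have hpi : E a ∈ (C.φ i).source := by
    obtain ⟨k, hk⟩ := hclose.exists
    have g1 := h2 (t k)
    rw [hijt k] at g1
    exact g1 (mem_closedBall.2 hk)
  have hpj : E a ∈ (C.φ j).source := by
    obtain ⟨k, hk⟩ := hclose.exists
    have g1 := h3 (t k)
    rw [hijt k] at g1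
    exact g1 (mem_closedBall.2 hk)
  have hpD : E a ∉ D := hE.2.1 a
  set φ := C.φ i with hφdef
  set ψ := C.φ j with hψdef
  have hφm : φ ∈ MA S := C.mem i
  have hψm : ψ ∈ MA S := C.mem j
  have hT : ContDiffAt ℂ 1 (ψ ∘ φ.symm) (φ (E a)) := contDiffAt_trans hφm hψm hpi hpj
  have hstrict : HasStrictFDerivAt (ψ ∘ φ.symm) (fderiv ℂ (ψ ∘ φ.symm) (φ (E a))) (φ (E a)) :=
    hT.hasStrictFDerivAt one_ne_zero
  have hjac : ∀ p, p ∈ φ.source → p ∈ ψ.source →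
      (fderiv ℂ (ψ ∘ φ.symm) (φ p)).det = (fderiv ℂ (ψ ∘ φ.symm) (φ p) (0, 1)).2 :=
    fun p hp hp' => vert_jac hμΛ hφm hψm (C.vert i) (C.vert j) (C.osc i) (C.osc j) hp hp'
  set J : ℂ × ℂ → ℂ := fun v => (fderiv ℂ (ψ ∘ φ.symm) v (0, 1)).2 with hJ
  have hJ0 : J (φ (E a)) ≠ 0 := by
    intro h0
    have g1 := vec_trans (σ := σ) hφm hψm hpi hpj hpD
    rw [hjac _ hpi hpj] at g1
    have g2 : (fderiv ℂ (ψ ∘ φ.symm) (φ (E a)) (0, 1)).2 = 0 := h0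
    rw [g2, zero_pow hm.ne', zero_smul] at g1
    exact vec_ne_zero hσ hE a hφm hpi g1
  have hJc : Tendsto (fun k => J (φ (e (t k) (x (t k))))) atTop (𝓝 (J (φ (E a)))) := by
    have g1 : ContinuousAt (fderiv ℂ (ψ ∘ φ.symm)) (φ (E a)) :=
      (hT.fderiv_right (m := 0) (by norm_num)).continuousAt
    have g2 : ContinuousAt J (φ (E a)) :=
      ((g1.clm_apply continuousAt_const)).snd
    have g3 : Tendsto (fun k => φ (e (t k) (x (t k)))) atTop (𝓝 (φ (E a))) :=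
      (φ.continuousAt hpi).tendsto.comp hpk
    exact g2.tendsto.comp g3
  -- choose c
  obtain ⟨c, hc0, hc⟩ : ∃ c > 0, (‖J (φ (E a))‖ + c) ^ m < (1 + τ) * ‖J (φ (E a))‖ ^ m := by
    have g1 : ContinuousAt (fun c : ℝ => (‖J (φ (E a))‖ + c) ^ m) 0 := by fun_prop
    have g2 : (‖J (φ (E a))‖ + 0) ^ m < (1 + τ) * ‖J (φ (E a))‖ ^ m := by
      have : 0 < ‖J (φ (E a))‖ ^ m := pow_pos (norm_pos_iff.2 hJ0) _
      rw [add_zero]
      nlinarith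
    have g3 : ∀ᶠ c : ℝ in 𝓝 0, (‖J (φ (E a))‖ + c) ^ m < (1 + τ) * ‖J (φ (E a))‖ ^ m :=
      g1.eventually_lt continuousAt_const g2
    obtain ⟨ε, hε, hε2⟩ := Metric.eventually_nhds_iff.1 g3
    refine ⟨ε / 2, by positivity, hε2 ?_⟩
    rw [Real.dist_eq, sub_zero, abs_of_pos (by positivity)]
    linarith
  have hev1 : ∀ᶠ k in atTop, (‖J (φ (E a))‖ + c) ^ m <
      (1 + τ) * ‖J (φ (e (t k) (x (t k))))‖ ^ m := by
    have g1 : Tendsto (fun k => (1 + τ) * ‖J (φ (e (t k) (x (t k))))‖ ^ m) atTop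
        (𝓝 ((1 + τ) * ‖J (φ (E a))‖ ^ m)) := (hJc.norm.pow m).const_mul _
    exact g1.eventually (lt_mem_nhds hc)
  have hev2 : ∀ᶠ k in atTop, ‖(ψ ∘ φ.symm) (φ (q (t k))) - (ψ ∘ φ.symm) (φ (e (t k) (x (t k))))
      - fderiv ℂ (ψ ∘ φ.symm) (φ (E a)) (φ (q (t k)) - φ (e (t k) (x (t k))))‖ ≤
      c * ‖φ (q (t k)) - φ (e (t k) (x (t k)))‖ := by
    have g1 := hstrict.isLittleO.def hc0
    have g2 : Tendsto (fun k => (φ (q (t k)), φ (e (t k) (x (t k))))) atTop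
        (𝓝 (φ (E a), φ (E a))) :=
      ((φ.continuousAt hpi).tendsto.comp hqk).prodMk_nhds
        ((φ.continuousAt hpi).tendsto.comp hpk)
    exact g2.eventually g1
  have hev3 : ∀ᶠ k in atTop, q (t k) ∈ φ.source :=
    hqk.eventually (φ.open_source.mem_nhds hpi)
  have hev4 : ∀ᶠ k in atTop, e (t k) (x (t k)) ∈ φ.source :=
    hpk.eventually (φ.open_source.mem_nhds hpi)
  have hev5 : ∀ᶠ k in atTop, e (t k) (x (t k)) ∈ ψ.source :=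
    hpk.eventually (ψ.open_source.mem_nhds hpj)
  obtain ⟨k, k1, k2, k3, k4, k5⟩ :=
    (hev1.and (hev2.and (hev3.and (hev4.and hev5)))).exists
  have hfst := h4 (t k)
  have hfin := h5 (t k)
  rw [hijt k] at hfst hfin
  simp only at hfst hfin
  rw [← hφdef] at hfst hfin
  rw [← hψdef] at hfin
  set P := e (t k) (x (t k)) with hP
  set Q := q (t k) with hQ
  have hPD : P ∉ D := (he (t k)).2.1 _
  have hdiff : φ Q - φ P = ((φ Q).2 - (φ P).2) • ((0 : ℂ), (1 : ℂ)) := by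
    ext
    · simp [hfst]
    · simp
  have hnd : ‖φ Q - φ P‖ = ‖(φ Q).2 - (φ P).2‖ := by
    rw [hdiff, norm_smul]
    simp
  have hsec : ‖(ψ Q).2 - (ψ P).2‖ ≤ (‖J (φ (E a))‖ + c) * ‖(φ Q).2 - (φ P).2‖ := by
    simp only [Function.comp] at k2
    rw [φ.left_inv k3, φ.left_inv k4, hnd] at k2
    have g1 : ((ψ Q).2 - (ψ P).2) = (ψ Q - ψ P
        - fderiv ℂ (ψ ∘ φ.symm) (φ (E a)) (φ Q - φ P)).2
        + ((φ Q).2 - (φ P).2) * J (φ (E a)) := by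
      rw [hdiff, map_smul]
      simp only [Prod.snd_sub, Prod.smul_snd, smul_eq_mul, hJ]
      ring
    rw [g1]
    calc ‖(ψ Q - ψ P - fderiv ℂ (ψ ∘ φ.symm) (φ (E a)) (φ Q - φ P)).2
        + ((φ Q).2 - (φ P).2) * J (φ (E a))‖
        ≤ ‖(ψ Q - ψ P - fderiv ℂ (ψ ∘ φ.symm) (φ (E a)) (φ Q - φ P)).2‖
          + ‖((φ Q).2 - (φ P).2) * J (φ (E a))‖ := norm_add_le _ _
      _ ≤ c * ‖(φ Q).2 - (φ P).2‖ + ‖(φ Q).2 - (φ P).2‖ * ‖J (φ (E a))‖ :=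
        add_le_add ((norm_snd_le _).trans k2) (norm_mul_le _ _)
      _ = _ := by ring
  have hv := vec_trans (σ := σ) hφm hψm k4 k5 hPD
  rw [hjac _ k4 k5] at hv
  have hvn : ‖vec σ φ P‖ = ‖J (φ P)‖ ^ m * ‖vec σ ψ P‖ := by
    rw [hv, norm_smul, norm_pow]
  unfold PN at hfin
  rw [hvn] at hfin
  have hle : ‖(ψ Q).2 - (ψ P).2‖ ^ m * ‖vec σ ψ P‖ ≤
      ((‖J (φ (E a))‖ + c) * ‖(φ Q).2 - (φ P).2‖) ^ m * ‖vec σ ψ P‖ :=
    mul_le_mul_of_nonneg_right (pow_le_pow_left₀ (norm_nonneg _) hsec m) (norm_nonneg _)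
  have hle2 : ((‖J (φ (E a))‖ + c) * ‖(φ Q).2 - (φ P).2‖) ^ m * ‖vec σ ψ P‖ ≤
      (1 + τ) * (‖(φ Q).2 - (φ P).2‖ ^ m * (‖J (φ P)‖ ^ m * ‖vec σ ψ P‖)) := by
    have g1 : 0 ≤ ‖(φ Q).2 - (φ P).2‖ ^ m * ‖vec σ ψ P‖ := by positivity
    have g2 := mul_le_mul_of_nonneg_right k1.le g1
    calc ((‖J (φ (E a))‖ + c) * ‖(φ Q).2 - (φ P).2‖) ^ m * ‖vec σ ψ P‖
        = (‖J (φ (E a))‖ + c) ^ m * (‖(φ Q).2 - (φ P).2‖ ^ m * ‖vec σ ψ P‖) := by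
          rw [mul_pow]; ring
      _ ≤ (1 + τ) * ‖J (φ P)‖ ^ m * (‖(φ Q).2 - (φ P).2‖ ^ m * ‖vec σ ψ P‖) := g2
      _ = _ := by ring
  linarith

end OVL

end Pool.Agent.ELL
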