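import Pool.Agent.ELL.Cht
import Pool.Agent.ELL.Lat

open scoped Manifold Topology
open Filter Metric Set

namespace Pool.Agent.ELL

theorem exists_inj_prod (L : ℂ × ℂ →L[ℂ] ℂ) (hL : ∃ v, L v ≠ 0) :
    ∃ l : ℂ × ℂ →L[ℂ] ℂ, Function.Injective (L.prod l) := by
  have hdec : ∀ v : ℂ × ℂ, L v = v.1 * L (1, 0) + v.2 * L (0, 1) := by
    intro v
    have h1 : v = v.1 • ((1 : ℂ), (0 : ℂ)) + v.2 • ((0 : ℂ), (1 : ℂ)) := by
      ext <;> simp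
    conv_lhs => rw [h1]
    rw [map_add, map_smul, map_smul, smul_eq_mul, smul_eq_mul]
  by_cases h0 : L (1, 0) = 0
  · refine ⟨ContinuousLinearMap.fst ℂ ℂ ℂ, ?_⟩
    rw [injective_iff_map_eq_zero]
    intro v hv
    rw [ContinuousLinearMap.prod_apply, Prod.mk_eq_zero] at hv
    obtain ⟨h1, h2⟩ := hv
    have h2' : v.1 = 0 := h2
    obtain ⟨w, hw⟩ := hL
    have h01 : L (0, 1) ≠ 0 := by
      intro h3
      apply hw
      rw [hdec, h0, h3]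
      ring
    rw [hdec, h2', zero_mul, zero_add] at h1
    have h4 : v.2 = 0 := by
      rcases mul_eq_zero.1 h1 with h | h
      · exact h
      · exact absurd h h01
    exact Prod.ext h2' h4
  · refine ⟨ContinuousLinearMap.snd ℂ ℂ ℂ, ?_⟩
    rw [injective_iff_map_eq_zero]
    intro v hv
    rw [ContinuousLinearMap.prod_apply, Prod.mk_eq_zero] at hv
    obtain ⟨h1, h2⟩ := hv
    have h2' : v.2 = 0 := h2
    rw [hdec, h2', zero_mul, add_zero] at h1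
    have h4 : v.1 = 0 := by
      rcases mul_eq_zero.1 h1 with h | h
      · exact h
      · exact absurd h h0
    exact Prod.ext h4 h2'

section VCH
variable {S : Type*} [MetricSpace S] [ChartedSpace (ℂ × ℂ) S]
  [IsManifold 𝓘(ℂ, ℂ × ℂ) 1 S] {Λ : Submodule ℤ ℂ} [DiscreteTopology Λ] [IsZLattice ℝ Λ]
  {π : S → ℂ ⧸ Λ}

theorem exists_vertical_chart (hπ : HolTo Λ π) {e : ℂ → S} (he : HolC e)
    (hpe : ∀ ζ, π (e ζ) = Λ.mkQ ζ) (x : ℂ) {μ : ℝ} (hμ : 0 < μ) :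
    ∃ φ ∈ MA S, e x ∈ φ.source ∧ (∀ q ∈ φ.source, π q = Λ.mkQ (φ q).1) ∧
      ∀ q ∈ φ.source, ∀ q' ∈ φ.source, ‖φ q - φ q'‖ < μ := by
  obtain ⟨U, hU, h, hh, hπU⟩ := hπ (e x)
  have hφ₀m : chartAt (ℂ × ℂ) (e x) ∈ MA S := IsManifold.chart_mem_maximalAtlas (e x)
  have hx0 : e x ∈ (chartAt (ℂ × ℂ) (e x)).source := mem_chart_source _ _
  generalize chartAt (ℂ × ℂ) (e x) = φ₀ at hφ₀m hx0
  have hH : ContDiffAt ℂ 1 (fun v => h (φ₀.symm v)) (φ₀ (e x)) := hh.contDiffAt hφ₀m hx0 hU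
  have hHd : HasFDerivAt (fun v => h (φ₀.symm v))
      (fderiv ℂ (fun v => h (φ₀.symm v)) (φ₀ (e x))) (φ₀ (e x)) :=
    (hH.differentiableAt one_ne_zero).hasFDerivAt
  have hed : DifferentiableAt ℂ (fun ζ => φ₀ (e ζ)) x := he.chart hφ₀m hx0
  obtain ⟨μ₀, hμ₀, hmin⟩ := lat_min Λ
  have hec : Continuous e := he.cont
  have hcont : ContinuousAt (fun ζ => h (e ζ)) x :=
    ContinuousAt.comp (f := e) (g := h) (hh.contAt hU) hec.continuousAt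
  have hloc : (fun ζ => h (e ζ)) =ᶠ[𝓝 x] fun ζ => ζ + (h (e x) - x) := by
    have h1 : ∀ᶠ ζ in 𝓝 x, e ζ ∈ U := hec.continuousAt.preimage_mem_nhds hU
    have h2 : ContinuousAt (fun ζ => h (e ζ) - ζ) x := hcont.sub continuousAt_id
    have h3 : ∀ᶠ ζ in 𝓝 x, dist (h (e ζ) - ζ) (h (e x) - x) < μ₀ :=
      Metric.tendsto_nhds.1 h2 μ₀ hμ₀
    have h5 : h (e x) - x ∈ Λ := by
      rw [← mkQ_eq_iff, ← hπU _ (mem_of_mem_nhds hU)]
      exact hpe x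
    filter_upwards [h1, h3] with ζ hζ1 hζ3
    have h4 : h (e ζ) - ζ ∈ Λ := by
      rw [← mkQ_eq_iff, ← hπU _ hζ1]
      exact hpe ζ
    have h6 := Λ.sub_mem h4 h5
    by_contra hne
    have h7 := hmin _ h6 (fun h0 => hne (by linear_combination h0))
    rw [dist_eq_norm] at hζ3
    linarith
  have hd1 : HasDerivAt (fun ζ => h (e ζ)) 1 x :=
    ((hasDerivAt_id x).add_const _).congr_of_eventuallyEq hloc
  have hd2 : HasDerivAt (fun ζ => h (e ζ))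
      (fderiv ℂ (fun v => h (φ₀.symm v)) (φ₀ (e x)) (deriv (fun ζ => φ₀ (e ζ)) x)) x := by
    have h1 := hHd.comp_hasDerivAt x hed.hasDerivAt
    refine h1.congr_of_eventuallyEq ?_
    have h2 : ∀ᶠ ζ in 𝓝 x, e ζ ∈ φ₀.source :=
      hec.continuousAt.preimage_mem_nhds (φ₀.open_source.mem_nhds hx0)
    filter_upwards [h2] with ζ hζ
    simp only [Function.comp]
    rw [φ₀.left_inv hζ]
  have hLv := hd2.unique hd1
  obtain ⟨l, hl⟩ := exists_inj_prod (fderiv ℂ (fun v => h (φ₀.symm v)) (φ₀ (e x)))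
    ⟨_, by rw [hLv]; exact one_ne_zero⟩
  set L := fderiv ℂ (fun v => h (φ₀.symm v)) (φ₀ (e x)) with hLdef
  have hl' : Function.Injective ((L.prod l : ℂ × ℂ →L[ℂ] ℂ × ℂ) : ℂ × ℂ →ₗ[ℂ] ℂ × ℂ) := hl
  obtain ⟨A, hA⟩ : ∃ A : (ℂ × ℂ) ≃L[ℂ] (ℂ × ℂ), (A : ℂ × ℂ →L[ℂ] ℂ × ℂ) = L.prod l := by
    refine ⟨(LinearEquiv.ofInjectiveEndo _ hl').toContinuousLinearEquiv, ?_⟩
    refine ContinuousLinearMap.ext fun v => ?_
    rfl
  set G : ℂ × ℂ → ℂ × ℂ := fun v => (h (φ₀.symm v), l v) with hG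
  have hGc : ContDiffAt ℂ 1 G (φ₀ (e x)) := hH.prodMk l.contDiff.contDiffAt
  have hGd : HasFDerivAt G (A : ℂ × ℂ →L[ℂ] ℂ × ℂ) (φ₀ (e x)) := by
    rw [hA]
    exact hHd.prodMk l.hasFDerivAt
  have hV : ∀ᶠ v in 𝓝 (φ₀ (e x)), ContDiffAt ℂ 1 G v ∧
      (∃ B : (ℂ × ℂ) ≃L[ℂ] (ℂ × ℂ), HasFDerivAt G (B : ℂ × ℂ →L[ℂ] ℂ × ℂ) v) ∧
      v ∈ φ₀.target ∧ φ₀.symm v ∈ U ∧ dist (G v) (G (φ₀ (e x))) < μ / 2 := by
    have h1 : ∀ᶠ v in 𝓝 (φ₀ (e x)), ContDiffAt ℂ 1 G v := hGc.eventually (by simp)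
    have h2 : ∀ᶠ v in 𝓝 (φ₀ (e x)), fderiv ℂ G v ∈ range
        (fun B : (ℂ × ℂ) ≃L[ℂ] (ℂ × ℂ) => (B : ℂ × ℂ →L[ℂ] ℂ × ℂ)) := by
      have h3 : ContinuousAt (fderiv ℂ G) (φ₀ (e x)) :=
        (hGc.fderiv_right (m := 0) (by norm_num)).continuousAt
      have h4 : fderiv ℂ G (φ₀ (e x)) = (A : ℂ × ℂ →L[ℂ] ℂ × ℂ) := hGd.fderiv
      have h5 := ContinuousLinearEquiv.nhds A
      rw [← h4] at h5
      exact h3 h5
    have h3 : ∀ᶠ v in 𝓝 (φ₀ (e x)), v ∈ φ₀.target :=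
      φ₀.open_target.mem_nhds (φ₀.map_source hx0)
    have h4 : ∀ᶠ v in 𝓝 (φ₀ (e x)), φ₀.symm v ∈ U := by
      have h5 : ContinuousAt φ₀.symm (φ₀ (e x)) := φ₀.continuousAt_symm (φ₀.map_source hx0)
      refine h5.preimage_mem_nhds ?_
      rw [φ₀.left_inv hx0]
      exact hU
    have h5 : ∀ᶠ v in 𝓝 (φ₀ (e x)), dist (G v) (G (φ₀ (e x))) < μ / 2 :=
      Metric.tendsto_nhds.1 hGc.continuousAt (μ / 2) (by positivity)
    filter_upwards [h1, h2, h3, h4, h5] with v g1 g2 g3 g4 g5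
    refine ⟨g1, ?_, g3, g4, g5⟩
    obtain ⟨B, hB⟩ := g2
    exact ⟨B, by
      have : (B : ℂ × ℂ →L[ℂ] ℂ × ℂ) = fderiv ℂ G v := hB
      rw [this]
      exact (g1.differentiableAt one_ne_zero).hasFDerivAt⟩
  obtain ⟨V, hVs, hVo, hVx⟩ := _root_.mem_nhds_iff.1 hV
  set Gh := hGc.toOpenPartialHomeomorph G hGd one_ne_zero with hGh
  have hGhc : (Gh : ℂ × ℂ → ℂ × ℂ) = G := rfl
  have hGhx : φ₀ (e x) ∈ Gh.source := hGc.mem_toOpenPartialHomeomorph_source hGd one_ne_zero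
  set φ := φ₀.trans (Gh.restrOpen V hVo) with hφ
  have hsrc : ∀ q, q ∈ φ.source ↔ q ∈ φ₀.source ∧ φ₀ q ∈ Gh.source ∧ φ₀ q ∈ V := by
    intro q
    simp [hφ]
  have hφapp : ∀ q, φ q = G (φ₀ q) := fun q => rfl
  have hφsymm : ∀ y, φ.symm y = φ₀.symm (Gh.symm y) := fun y => rfl
  have hmem : φ ∈ MA S := by
    refine OpenPartialHomeomorph.mem_maximalAtlas_of_contMDiffOn φ ?_ ?_
    · intro q hq
      obtain ⟨h1, h2, h3⟩ := (hsrc q).1 hq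
      have h4 : ContMDiffAt 𝓘(ℂ, ℂ × ℂ) 𝓘(ℂ, ℂ × ℂ) 1 φ₀ q :=
        contMDiffAt_of_mem_maximalAtlas hφ₀m h1
      have h5 : ContMDiffAt 𝓘(ℂ, ℂ × ℂ) 𝓘(ℂ, ℂ × ℂ) 1 G (φ₀ q) :=
        ((hVs h3).1).contMDiffAt
      exact (ContMDiffAt.comp q h5 h4).contMDiffWithinAt
    · intro y hy
      have hq := (hsrc _).1 (φ.map_target hy)
      have hyt : y ∈ (Gh.restrOpen V hVo).target := by
        have : y ∈ (φ₀.trans (Gh.restrOpen V hVo)).target := hy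
        rw [OpenPartialHomeomorph.trans_target] at this
        exact this.1
      have hyt2 : y ∈ Gh.target := by
        have h1 := (Gh.restrOpen V hVo).map_target hyt
        have h2 : (Gh.restrOpen V hVo).symm y = Gh.symm y := rfl
        have h3 := (Gh.restrOpen V hVo).right_inv hyt
        rw [OpenPartialHomeomorph.restrOpen_source] at h1
        have h4 : Gh ((Gh.restrOpen V hVo).symm y) = y := h3
        rw [← h4]
        exact Gh.map_source h1.1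
      have hz : Gh.symm y ∈ V ∧ Gh.symm y ∈ Gh.source := by
        have h1 := (Gh.restrOpen V hVo).map_target hyt
        rw [OpenPartialHomeomorph.restrOpen_source] at h1
        exact ⟨h1.2, h1.1⟩
      obtain ⟨g1, ⟨B, g2⟩, g3, g4, g5⟩ := hVs hz.1
      have h1 : ContDiffAt ℂ 1 Gh.symm y := Gh.contDiffAt_symm hyt2 g2 g1
      have h2 : ContMDiffAt 𝓘(ℂ, ℂ × ℂ) 𝓘(ℂ, ℂ × ℂ) 1 Gh.symm y := h1.contMDiffAt
      have h3 : ContMDiffAt 𝓘(ℂ, ℂ × ℂ) 𝓘(ℂ, ℂ × ℂ) 1 φ₀.symm (Gh.symm y) :=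
        contMDiffAt_symm_of_mem_maximalAtlas hφ₀m g3
      exact (ContMDiffAt.comp y h3 h2).contMDiffWithinAt
  refine ⟨φ, hmem, (hsrc _).2 ⟨hx0, hGhx, hVx⟩, ?_, ?_⟩
  · intro q hq
    obtain ⟨h1, h2, h3⟩ := (hsrc q).1 hq
    obtain ⟨g1, g2, g3, g4, g5⟩ := hVs h3
    rw [φ₀.left_inv h1] at g4
    rw [hπU q g4, hφapp]
    simp only [hG]
    rw [φ₀.left_inv h1]
  · intro q hq q' hq'
    obtain ⟨h1, h2, h3⟩ := (hsrc q).1 hq
    obtain ⟨h1', h2', h3'⟩ := (hsrc q').1 hq'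
    obtain ⟨g1, g2, g3, g4, g5⟩ := hVs h3
    obtain ⟨g1', g2', g3', g4', g5'⟩ := hVs h3'
    rw [hφapp, hφapp, ← dist_eq_norm]
    calc dist (G (φ₀ q)) (G (φ₀ q')) ≤ dist (G (φ₀ q)) (G (φ₀ (e x)))
          + dist (G (φ₀ q')) (G (φ₀ (e x))) := dist_triangle_right _ _ _
      _ < μ / 2 + μ / 2 := add_lt_add g5 g5'
      _ = μ := by ring

end VCH

end Pool.Agent.ELL
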