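import Pool.Agent.ELL.Bnd
import Pool.Agent.ELL.Vch

open scoped Manifold Topology
open Filter Metric Set

namespace Pool.Agent.ELL

section VCV
variable {S : Type*} [MetricSpace S] [CompactSpace S] [ChartedSpace (ℂ × ℂ) S]
  [IsManifold 𝓘(ℂ, ℂ × ℂ) 1 S] {Λ : Submodule ℤ ℂ} [DiscreteTopology Λ] [IsZLattice ℝ Λ]
  {π : S → ℂ ⧸ Λ} {D : Set S}

theorem vcv_isCompact (hπ : HolTo Λ π) (hD : IsDivisor D) (hf : FibresHyperbolic π D)
    (hs : NoSecIn π D) : IsCompact {p : S | ∃ e ∈ Sec π D, ∃ ζ, e ζ = p} := by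
  apply IsSeqCompact.isCompact
  intro p hp
  choose e he x hx using hp
  obtain ⟨s, hs', ω, hω, E, hE, E', hE', a, hc, -, ha⟩ :=
    sec_compact₂ hπ hD hf hs e e he he x
  refine ⟨E a, ⟨E, hE, a, rfl⟩, s, hs', ?_⟩
  have := hc.tendsto hE.1.cont ha
  have h2 : (fun k => e (s k) (x (s k) - ω k + ω k)) = p ∘ s := by
    funext k
    simp [hx]
  rw [← h2]
  exact this

theorem exists_vcov (hπ : HolTo Λ π) (hD : IsDivisor D) (hf : FibresHyperbolic π D)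
    (hs : NoSecIn π D) {μ : ℝ} (hμ : 0 < μ) : Nonempty (VCov π D μ) := by
  classical
  have hcpt := vcv_isCompact hπ hD hf hs
  have hch : ∀ p : {p : S | ∃ e ∈ Sec π D, ∃ ζ, e ζ = p},
      ∃ φ ∈ MA S, (p : S) ∈ φ.source ∧ (∀ q ∈ φ.source, π q = Λ.mkQ (φ q).1) ∧
        ∀ q ∈ φ.source, ∀ q' ∈ φ.source, ‖φ q - φ q'‖ < μ := by
    rintro ⟨p, e, he, x, rfl⟩
    exact exists_vertical_chart hπ he.1 he.2.2 x hμ
  choose φ hφ hpφ hvert hosc using hch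
  obtain ⟨t, ht⟩ := hcpt.elim_finite_subcover (fun p => (φ p).source)
    (fun p => (φ p).open_source) (fun p hp => mem_iUnion.2 ⟨⟨p, hp⟩, hpφ ⟨p, hp⟩⟩)
  have ht' : {p : S | ∃ e ∈ Sec π D, ∃ ζ, e ζ = p} ⊆
      ⋃ i : Fin t.card, (φ (t.equivFin.symm i)).source := by
    intro p hp
    obtain ⟨q, hq⟩ := mem_iUnion.1 (ht hp)
    obtain ⟨hqt, hq⟩ := mem_iUnion.1 hq
    refine mem_iUnion.2 ⟨t.equivFin ⟨q, hqt⟩, ?_⟩
    simpa using hq
  obtain ⟨δ, hδ, hleb⟩ := lebesgue_number_lemma_of_metric hcpt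
    (fun i => (φ (t.equivFin.symm i)).open_source) ht'
  exact ⟨{
    n := t.card
    φ := fun i => φ (t.equivFin.symm i)
    δ := δ / 2
    mem := fun i => hφ _
    vert := fun i => hvert _
    osc := fun i => hosc _
    δpos := by positivity
    cover := fun e he ζ => by
      obtain ⟨i, hi⟩ := hleb (e ζ) ⟨e, he, ζ, rfl⟩
      exact ⟨i, (closedBall_subset_ball (by linarith)).trans hi⟩ }⟩

end VCV

end Pool.Agent.ELL
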