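import Pool.Agent.ELL.Smc
import Pool.Agent.ELL.Ovl
import Pool.Agent.ELL.Vcv

open scoped Manifold Topology
open Filter Metric Set

namespace Pool.Agent.ELL

section PAI
variable {S : Type*} [MetricSpace S] [CompactSpace S] [ChartedSpace (ℂ × ℂ) S]
  [IsManifold 𝓘(ℂ, ℂ × ℂ) 1 S] {Λ : Submodule ℤ ℂ} [DiscreteTopology Λ] [IsZLattice ℝ Λ]
  {π : S → ℂ ⧸ Λ} {D : Set S} {m : ℕ} {ι : Type} [Fintype ι] {σ : ι → PluriForm S m D}

omit [CompactSpace S] [IsManifold 𝓘(ℂ, ℂ × ℂ) 1 S] [DiscreteTopology Λ] [IsZLattice ℝ Λ] in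
/-- two elements of `Sec` have the same first coordinate in a vertical chart -/
theorem pai_fst {μ0 : ℝ} (hμ : 0 < μ0) (hμΛ : ∀ w ∈ Λ, w ≠ 0 → μ0 ≤ ‖w‖) {e e' : ℂ → S}
    (he : e ∈ Sec π D)
    (he' : e' ∈ Sec π D) {φ : OpenPartialHomeomorph S (ℂ × ℂ)}
    (hv : ∀ q ∈ φ.source, π q = Λ.mkQ (φ q).1)
    (ho : ∀ q ∈ φ.source, ∀ q' ∈ φ.source, ‖φ q - φ q'‖ < μ0 / 2) {z : ℂ}
    (h : e z ∈ φ.source) (h' : e' z ∈ φ.source) : (φ (e z)).1 = (φ (e' z)).1 := by
  have h1 : Λ.mkQ (φ (e z)).1 = Λ.mkQ (φ (e' z)).1 := by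
    rw [← hv _ h, ← hv _ h', he.2.2 z, he'.2.2 z]
  rw [mkQ_eq_iff] at h1
  by_contra hne
  have h2 := hμΛ _ h1 (sub_ne_zero.2 hne)
  have h3 := ho _ h _ h'
  have h4 : ‖(φ (e z)).1 - (φ (e' z)).1‖ ≤ ‖φ (e z) - φ (e' z)‖ := by
    have := norm_fst_le (φ (e z) - φ (e' z))
    rwa [Prod.fst_sub] at this
  linarith

theorem pair_prop (hπ : HolTo Λ π) (hD : IsDivisor D) (hf : FibresHyperbolic π D)
    (hs : NoSecIn π D) (hσ : Separates π D σ) (hm : 0 < m) :
    ∃ r > 0, ∃ ε > 0, ∃ κ : ℝ, 0 ≤ κ ∧ κ < 1 ∧ ∃ B : ℝ, ∀ e ∈ Sec π D, ∀ e' ∈ Sec π D,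
      ∃ N : ℂ → ℝ, (∀ ζ, 0 ≤ N ζ ∧ N ζ ≤ B) ∧
        ∀ H : Set ℂ, (∀ ζ ∈ H, dist (e ζ) (e' ζ) ≤ ε) →
          (∀ a, closedBall a r ⊆ H → ∀ β : ℂ, ∃ b ∈ sphere a r,
            N a ≤ κ * (N b * Real.exp ((β * (b - a)).re))) ∧
          ∀ ζ ∈ H, N ζ = 0 → e ζ = e' ζ := by
  obtain ⟨μ0, hμ0, hμΛ⟩ := lat_min Λ
  obtain ⟨C⟩ := exists_vcov (D := D) hπ hD hf hs (μ := μ0 / 2) (by positivity)
  have hδ := C.δpos
  obtain ⟨δ1, hδ1, hmod⟩ := sec_modulus hπ hD hf (ε := C.δ / 4) (by positivity)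
  obtain ⟨r, hr, hrμ, hrδ⟩ : ∃ r > 0, r < μ0 ∧ r < δ1 :=
    ⟨min (μ0 / 2) (δ1 / 2), by positivity,
      lt_of_le_of_lt (min_le_left _ _) (by linarith),
      lt_of_le_of_lt (min_le_right _ _) (by linarith)⟩
  obtain ⟨κ0, hκ00, hκ01, hcs⟩ := strict_cs hπ hD hf hs hσ hr
    (fun w hw hne => lt_of_lt_of_le hrμ (hμΛ w hw hne))
  obtain ⟨τ, hτ, hκτ⟩ : ∃ τ > 0, κ0 * (1 + τ) < 1 :=
    ⟨(1 - κ0) / 2, by linarith, by nlinarith⟩
  obtain ⟨ε1, hε1, hov⟩ := overlap hπ hD hf hs hσ hm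
    (fun w hw hne => by have := hμΛ w hw hne; linarith) C hτ
  obtain ⟨B, hB, hvb⟩ := vec_bdd (σ := σ) hπ hD hf hs C
  refine ⟨r, hr, min (C.δ / 4) ε1, lt_min (by positivity) hε1, κ0 * (1 + τ), by positivity, hκτ,
    (μ0 / 2) ^ m * B, ?_⟩
  intro e he e' he'
  choose i hi using C.cover e he
  classical
  refine ⟨fun ζ => if e' ζ ∈ (C.φ (i ζ)).source then PN σ (C.φ (i ζ)) (e ζ) (e' ζ) else 0,
    ?_, ?_⟩
  · intro ζ
    by_cases h : e' ζ ∈ (C.φ (i ζ)).source
    · simp only [h, if_true]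
      have h0 : e ζ ∈ (C.φ (i ζ)).source := hi ζ (mem_closedBall_self hδ.le)
      refine ⟨by unfold PN; positivity, ?_⟩
      unfold PN
      have h1 : ‖((C.φ (i ζ)) (e' ζ)).2 - ((C.φ (i ζ)) (e ζ)).2‖ ≤ μ0 / 2 := by
        have h2 := norm_snd_le ((C.φ (i ζ)) (e' ζ) - (C.φ (i ζ)) (e ζ))
        rw [Prod.snd_sub] at h2
        exact h2.trans (C.osc _ _ h _ h0).le
      exact mul_le_mul (pow_le_pow_left₀ (norm_nonneg _) h1 m) (hvb _ e he ζ (hi ζ))
        (norm_nonneg _) (by positivity)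
    · simp only [h, if_false]
      exact ⟨le_refl _, by positivity⟩
  · intro H hH
    have hsrc' : ∀ ζ ∈ H, e' ζ ∈ (C.φ (i ζ)).source := by
      intro ζ hζ
      apply hi ζ
      rw [mem_closedBall, dist_comm]
      have := hH ζ hζ
      have h2 := min_le_left (C.δ / 4) ε1
      linarith
    constructor
    · intro a ha β
      have haH : a ∈ H := ha (mem_closedBall_self hr.le)
      set φ := C.φ (i a) with hφdef
      have hφ : φ ∈ MA S := C.mem _
      have hclose : ∀ z ∈ closedBall a r, dist (e z) (e a) ≤ C.δ / 4 := by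
        intro z hz
        exact hmod e he a z (lt_of_le_of_lt (mem_closedBall.1 hz) hrδ)
      have hclose' : ∀ z ∈ closedBall a r, dist (e' z) (e z) ≤ C.δ / 4 := by
        intro z hz
        rw [dist_comm]
        exact (hH z (ha hz)).trans (min_le_left _ _)
      have hin : ∀ z ∈ closedBall a r, e z ∈ φ.source := by
        intro z hz
        apply hi a
        rw [mem_closedBall]
        have := hclose z hz
        linarith
      have hin' : ∀ z ∈ closedBall a r, e' z ∈ φ.source := by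
        intro z hz
        apply hi a
        rw [mem_closedBall]
        have h1 := hclose z hz
        have h2 := hclose' z hz
        have h3 := dist_triangle (e' z) (e z) (e a)
        linarith
      have hball : ∀ z ∈ closedBall a r, closedBall (e z) (C.δ / 2) ⊆ φ.source := by
        intro z hz w hw
        apply hi a
        rw [mem_closedBall] at hw ⊢
        have h1 := hclose z hz
        have h3 := dist_triangle w (e z) (e a)
        linarith
      -- the holomorphic function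
      set f : ℂ → EuclideanSpace ℂ ι := fun z => vec σ φ (e z) with hfdef
      set v : ℂ → ℂ := fun z => (φ (e' z)).2 - (φ (e z)).2 with hvdef
      set Q : ℂ → ℂ := fun z => v z ^ m * inner ℂ (f a) (f z) * Complex.exp (β * (z - a))
        with hQdef
      have hvd : ∀ z ∈ closedBall a r, DifferentiableAt ℂ v z := by
        intro z hz
        have h1 := (he'.1.chart hφ (hin' z hz)).snd
        have h2 := (he.1.chart hφ (hin z hz)).snd
        exact h1.sub h2
      have hfd : ∀ z ∈ closedBall a r, DifferentiableAt ℂ (fun z => inner ℂ (f a) (f z)) z := by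
        intro z hz
        have h1 : DifferentiableAt ℂ f z := vec_hol hD he hφ (hin z hz)
        exact ((innerSL ℂ (f a)).differentiableAt).comp z h1
      have hQd : ∀ z ∈ closedBall a r, DifferentiableAt ℂ Q z := by
        intro z hz
        refine (((hvd z hz).pow m).mul (hfd z hz)).mul ?_
        fun_prop
      have hDC : DiffContOnCl ℂ Q (ball a r) := by
        refine ⟨fun z hz => (hQd z (ball_subset_closedBall hz)).differentiableWithinAt, ?_⟩
        rw [closure_ball a hr.ne']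
        exact fun z hz => (hQd z hz).continuousAt.continuousWithinAt
      obtain ⟨b, hb, hmax⟩ := Complex.exists_mem_frontier_isMaxOn_norm isBounded_ball
        ⟨a, mem_ball_self hr⟩ hDC
      rw [frontier_ball a hr.ne'] at hb
      have hbc : b ∈ closedBall a r := sphere_subset_closedBall hb
      refine ⟨b, hb, ?_⟩
      have hQab : ‖Q a‖ ≤ ‖Q b‖ := hmax (subset_closure (mem_ball_self hr))
      have haa : a ∈ closedBall a r := mem_closedBall_self hr.le
      have hQa : ‖Q a‖ = ‖v a‖ ^ m * (‖f a‖ * ‖f a‖) := by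
        rw [hQdef]
        simp only [sub_self, mul_zero, Complex.exp_zero, mul_one, norm_mul, norm_pow]
        rw [inner_self_eq_norm_sq_to_K]
        simp only [norm_pow, Complex.coe_algebraMap, Complex.norm_real, norm_norm]
        ring
      have hQb : ‖Q b‖ ≤ ‖v b‖ ^ m * (κ0 * ‖f a‖ * ‖f b‖) * Real.exp ((β * (b - a)).re) := by
        rw [hQdef]
        simp only [norm_mul, norm_pow, Complex.norm_exp]
        apply mul_le_mul_of_nonneg_right _ (Real.exp_pos _).le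
        apply mul_le_mul_of_nonneg_left _ (by positivity)
        exact hcs e he a b (mem_sphere.1 hb) φ hφ φ hφ (hin a haa) (hin b hbc)
      have hfa : 0 < ‖f a‖ := norm_pos_iff.2 (vec_ne_zero hσ he a hφ (hin a haa))
      have hmain : ‖v a‖ ^ m * ‖f a‖ ≤
          κ0 * (‖v b‖ ^ m * ‖f b‖) * Real.exp ((β * (b - a)).re) := by
        have h1 : ‖v a‖ ^ m * (‖f a‖ * ‖f a‖) ≤
            ‖v b‖ ^ m * (κ0 * ‖f a‖ * ‖f b‖) * Real.exp ((β * (b - a)).re) := by
          rw [← hQa]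
          exact hQab.trans hQb
        have h2 : ‖f a‖ * (‖v a‖ ^ m * ‖f a‖) ≤
            ‖f a‖ * (κ0 * (‖v b‖ ^ m * ‖f b‖) * Real.exp ((β * (b - a)).re)) := by
          calc ‖f a‖ * (‖v a‖ ^ m * ‖f a‖) = ‖v a‖ ^ m * (‖f a‖ * ‖f a‖) := by ring
            _ ≤ ‖v b‖ ^ m * (κ0 * ‖f a‖ * ‖f b‖) * Real.exp ((β * (b - a)).re) := h1
            _ = ‖f a‖ * (κ0 * (‖v b‖ ^ m * ‖f b‖) * Real.exp ((β * (b - a)).re)) := by ring
        exact le_of_mul_le_mul_left h2 hfa
      have hPNa : PN σ φ (e a) (e' a) = ‖v a‖ ^ m * ‖f a‖ := rfl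
      have hPNb : PN σ φ (e b) (e' b) = ‖v b‖ ^ m * ‖f b‖ := rfl
      have hbH : b ∈ H := ha hbc
      have hov' := hov (i b) (i a) e he b (e' b)
        (by rw [dist_comm]; exact (hH b hbH).trans (min_le_right _ _))
        ((closedBall_subset_closedBall (by linarith)).trans (hi b)) (hball b hbc)
        (pai_fst hμ0 hμΛ he he' (C.vert _) (C.osc _) (hi b (mem_closedBall_self hδ.le))
          (hsrc' b hbH))
      simp only [hsrc' a haH, hsrc' b hbH, if_true]
      change PN σ φ (e b) (e' b) ≤ _ at hov'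
      change PN σ φ (e a) (e' a) ≤ _
      rw [hPNb] at hov'
      rw [hPNa]
      have hexp : 0 ≤ Real.exp ((β * (b - a)).re) := (Real.exp_pos _).le
      calc ‖v a‖ ^ m * ‖f a‖ ≤ κ0 * (‖v b‖ ^ m * ‖f b‖) * Real.exp ((β * (b - a)).re) := hmain
        _ ≤ κ0 * ((1 + τ) * PN σ (C.φ (i b)) (e b) (e' b)) * Real.exp ((β * (b - a)).re) := by
          apply mul_le_mul_of_nonneg_right _ hexp
          exact mul_le_mul_of_nonneg_left hov' hκ00
        _ = κ0 * (1 + τ) * (PN σ (C.φ (i b)) (e b) (e' b) * Real.exp ((β * (b - a)).re)) := by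
          ring
    · intro ζ hζ h0
      simp only [hsrc' ζ hζ, if_true] at h0
      have hin : e ζ ∈ (C.φ (i ζ)).source := hi ζ (mem_closedBall_self hδ.le)
      unfold PN at h0
      rcases mul_eq_zero.1 h0 with h | h
      · have h1 := (pow_eq_zero_iff hm.ne').1 h
        rw [norm_eq_zero, sub_eq_zero] at h1
        have h2 := pai_fst hμ0 hμΛ he he' (C.vert _) (C.osc _) hin (hsrc' ζ hζ)
        apply (C.φ (i ζ)).injOn hin (hsrc' ζ hζ)
        exact Prod.ext h2 h1.symm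
      · exact absurd (norm_eq_zero.1 h) (vec_ne_zero hσ he ζ (C.mem _) hin)

end PAI

end Pool.Agent.ELL
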