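import Pool.Agent.ELL.Pai
import Pool.Agent.ELL.Bar

open scoped Manifold Topology
open Filter Metric Set

namespace Pool.Agent.ELL

section RIG
variable {S : Type*} [MetricSpace S] [CompactSpace S] [ChartedSpace (ℂ × ℂ) S]
  [IsManifold 𝓘(ℂ, ℂ × ℂ) 1 S] {Λ : Submodule ℤ ℂ} [DiscreteTopology Λ] [IsZLattice ℝ Λ]
  {π : S → ℂ ⧸ Λ} {D : Set S} {m : ℕ} {ι : Type} [Fintype ι] {σ : ι → PluriForm S m D}

theorem rigidity (hπ : HolTo Λ π) (hD : IsDivisor D) (hf : FibresHyperbolic π D)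
    (hs : NoSecIn π D) (hσ : Separates π D σ) (hm : 0 < m) :
    ∃ ε > 0, ∀ e ∈ Sec π D, ∀ e' ∈ Sec π D, ∀ u x : ℂ, ‖u‖ = 1 →
      (∀ ζ : ℂ, (starRingEnd ℂ u * (ζ - x)).re < 0 → dist (e ζ) (e' ζ) ≤ ε) → e = e' := by
  obtain ⟨r, hr, ε, hε, κ, hκ0, hκ, B, hpair⟩ := pair_prop hπ hD hf hs hσ hm
  refine ⟨ε, hε, fun e he e' he' u x hu hclose => ?_⟩
  obtain ⟨N, hN, hH⟩ := hpair e he e' he'
  obtain ⟨hP, hZ⟩ := hH {ζ : ℂ | (starRingEnd ℂ u * (ζ - x)).re < 0} (fun ζ hζ => hclose ζ hζ)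
  have key : ∀ a : ℂ, (starRingEnd ℂ u * (a - x)).re < -r → e a = e' a := by
    intro a ha
    refine hZ a ?_ (barrier hu hr hκ0 hκ hN hP ha)
    show (starRingEnd ℂ u * (a - x)).re < 0
    linarith
  have huu : starRingEnd ℂ u * u = 1 := by
    rw [mul_comm, Complex.mul_conj, Complex.normSq_eq_norm_sq, hu]
    norm_num
  refine HolC.eq_of_eventuallyEq he.1 he'.1 (x := x - ((r + 1 : ℝ) : ℂ) * u) ?_
  have hopen : IsOpen {a : ℂ | (starRingEnd ℂ u * (a - x)).re < -r} := by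
    refine isOpen_lt ?_ continuous_const
    exact Complex.continuous_re.comp (continuous_const.mul (continuous_id.sub continuous_const))
  refine (hopen.mem_nhds ?_ : _ ∈ 𝓝 _) |> fun h => Filter.mem_of_superset h (fun a ha => key a ha)
  show (starRingEnd ℂ u * (x - ((r + 1 : ℝ) : ℂ) * u - x)).re < -r
  have h1 : starRingEnd ℂ u * (x - ((r + 1 : ℝ) : ℂ) * u - x) = -((r + 1 : ℝ) : ℂ) := by
    have : starRingEnd ℂ u * (x - ((r + 1 : ℝ) : ℂ) * u - x)
        = -((r + 1 : ℝ) : ℂ) * (starRingEnd ℂ u * u) := by ring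
    rw [this, huu, mul_one]
  rw [h1, ← Complex.ofReal_neg, Complex.ofReal_re]
  linarith

theorem rig_norm_lt {z w : ℕ → ℂ} {u b : ℂ} (hz : Tendsto (fun k => ‖z k‖) atTop atTop)
    (hv : Tendsto (fun k => z k / (‖z k‖ : ℂ)) atTop (𝓝 u)) (hw : Tendsto w atTop (𝓝 b))
    (hneg : (starRingEnd ℂ u * b).re < 0) : ∀ᶠ k in atTop, ‖z k + w k‖ < ‖z k‖ := by
  have h1 : Tendsto (fun k => (starRingEnd ℂ (z k / (‖z k‖ : ℂ)) * w k).re) atTop
      (𝓝 (starRingEnd ℂ u * b).re) := by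
    refine (Complex.continuous_re.tendsto _).comp ?_
    exact ((Complex.continuous_conj.tendsto _).comp hv).mul hw
  have h2 : ∀ᶠ k in atTop, (starRingEnd ℂ (z k / (‖z k‖ : ℂ)) * w k).re
      < (starRingEnd ℂ u * b).re / 2 := h1.eventually_lt_const (by linarith)
  have h3 : ∀ᶠ k in atTop, ‖w k‖ ^ 2 < ‖b‖ ^ 2 + 1 :=
    (hw.norm.pow 2).eventually_lt_const (by linarith)
  have h4 : ∀ᶠ k in atTop, max 1 ((‖b‖ ^ 2 + 1) / (-(starRingEnd ℂ u * b).re)) < ‖z k‖ :=
    hz.eventually_gt_atTop _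
  filter_upwards [h2, h3, h4] with k h2 h3 h4
  have hzpos : 0 < ‖z k‖ := lt_of_lt_of_le (by norm_num) ((le_max_left _ _).trans h4.le)
  have hzne : (‖z k‖ : ℂ) ≠ 0 := by exact_mod_cast hzpos.ne'
  have hb : (‖b‖ ^ 2 + 1) / (-(starRingEnd ℂ u * b).re) < ‖z k‖ := (le_max_right _ _).trans_lt h4
  rw [div_lt_iff₀ (by linarith)] at hb
  have hre : (starRingEnd ℂ (z k) * w k).re
      = ‖z k‖ * (starRingEnd ℂ (z k / (‖z k‖ : ℂ)) * w k).re := by
    have : starRingEnd ℂ (z k) * w k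
        = (‖z k‖ : ℂ) * (starRingEnd ℂ (z k / (‖z k‖ : ℂ)) * w k) := by
      rw [map_div₀, Complex.conj_ofReal]
      field_simp
    rw [this, Complex.re_ofReal_mul]
  have hsq : ‖z k + w k‖ ^ 2 = ‖z k‖ ^ 2 + 2 * (starRingEnd ℂ (z k) * w k).re + ‖w k‖ ^ 2 := by
    rw [← Complex.normSq_eq_norm_sq, ← Complex.normSq_eq_norm_sq, ← Complex.normSq_eq_norm_sq,
      Complex.normSq_add]
    have : (z k * starRingEnd ℂ (w k)).re = (starRingEnd ℂ (z k) * w k).re := by
      simp [Complex.mul_re]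
    rw [this]
    ring
  have hlt : ‖z k + w k‖ ^ 2 < ‖z k‖ ^ 2 := by
    rw [hsq, hre]
    nlinarith
  exact lt_of_pow_lt_pow_left₀ 2 (norm_nonneg _) hlt

theorem sec_finite (hπ : HolTo Λ π) (hD : IsDivisor D) (hf : FibresHyperbolic π D)
    (hs : NoSecIn π D) (hσ : Separates π D σ) (hm : 0 < m) : (Sec π D).Finite := by
  obtain ⟨ε, hε, hrig⟩ := rigidity hπ hD hf hs hσ hm
  by_contra hinf
  have hinf' : (Sec π D).Infinite := hinf
  obtain ⟨s0, hs0, E, hE, hconv0⟩ := sec_compact hπ hD hf hs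
    (fun k => ((hinf'.natEmbedding (Sec π D)) k : ℂ → S)) (fun k => (hinf'.natEmbedding _ k).2)
  have hinj : Function.Injective
      (fun k => ((hinf'.natEmbedding (Sec π D)) (s0 k) : ℂ → S)) := by
    intro a b hab
    exact hs0.injective ((hinf'.natEmbedding _).injective (Subtype.ext hab))
  obtain ⟨K0, hK0⟩ : ∃ K0, ∀ k ≥ K0, ((hinf'.natEmbedding (Sec π D)) (s0 k) : ℂ → S) ≠ E := by
    by_cases h : ∃ k, ((hinf'.natEmbedding (Sec π D)) (s0 k) : ℂ → S) = E
    · obtain ⟨k, hk⟩ := h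
      refine ⟨k + 1, fun l hl hlE => ?_⟩
      have : l = k := hinj (hlE.trans hk.symm)
      omega
    · exact ⟨0, fun k _ hk => h ⟨k, hk⟩⟩
  set g : ℕ → ℂ → S := fun k => ((hinf'.natEmbedding (Sec π D)) (s0 (k + K0)) : ℂ → S) with hg
  have hgS : ∀ k, g k ∈ Sec π D := fun k => (hinf'.natEmbedding _ _).2
  have hgE : ∀ k, g k ≠ E := fun k => hK0 _ (by omega)
  have hconv : Conv g E := by
    have := hconv0.subseq (s := fun k => k + K0) (tendsto_add_atTop_nat K0)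
    exact this
  -- the closed sets
  have hT : ∀ k, ∃ z : ℂ, ε ≤ dist (g k z) (E z) ∧
      ∀ x : ℂ, ‖x‖ < ‖z‖ → dist (g k x) (E x) < ε := by
    intro k
    have hcl : IsClosed {z : ℂ | ε ≤ dist (g k z) (E z)} :=
      isClosed_le continuous_const ((hgS k).1.cont.dist hE.1.cont)
    have hne : {z : ℂ | ε ≤ dist (g k z) (E z)}.Nonempty := by
      by_contra hemp
      rw [Set.not_nonempty_iff_eq_empty, Set.eq_empty_iff_forall_notMem] at hemp
      refine hgE k (hrig (g k) (hgS k) E hE 1 0 (by simp) (fun ζ _ => ?_))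
      exact (not_le.mp (hemp ζ)).le
    obtain ⟨z, hz, hzd⟩ := hcl.exists_infDist_eq_dist hne 0
    refine ⟨z, hz, fun x hx => ?_⟩
    by_contra hcon
    have h1 : Metric.infDist 0 {z : ℂ | ε ≤ dist (g k z) (E z)} ≤ dist 0 x :=
      Metric.infDist_le_dist_of_mem (not_lt.mp hcon)
    rw [hzd, dist_zero_left, dist_zero_left] at h1
    linarith
  choose z hz1 hz2 using hT
  have hzinf : Tendsto (fun k => ‖z k‖) atTop atTop := by
    rw [Filter.tendsto_atTop]
    intro R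
    obtain ⟨K, hK⟩ := hconv R ε hε
    filter_upwards [eventually_ge_atTop K] with k hk
    by_contra hcon
    have := hK k hk (z k) (not_le.mp hcon).le
    linarith [hz1 k]
  obtain ⟨s, hsm, ω, hω, E1, hE1, E2, hE2, a, hc1, hc2, ha⟩ :=
    sec_compact₂ hπ hD hf hs g (fun _ => E) hgS (fun _ => hE) z
  obtain ⟨u, -, t, ht, hut⟩ := (isCompact_closedBall (0 : ℂ) 1).tendsto_subseq
    (x := fun k => z (s k) / (‖z (s k)‖ : ℂ)) (by
      intro k
      rw [mem_closedBall_zero_iff, norm_div, Complex.norm_real, norm_norm]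
      exact div_self_le_one _)
  have hst : Tendsto (fun k => s (t k)) atTop atTop := hsm.tendsto_atTop.comp ht.tendsto_atTop
  have hzst : Tendsto (fun k => ‖z (s (t k))‖) atTop atTop := hzinf.comp hst
  have hu1 : ‖u‖ = 1 := by
    refine tendsto_nhds_unique hut.norm ?_
    refine tendsto_const_nhds.congr' ?_
    filter_upwards [hzst.eventually_gt_atTop 0] with k hk
    show 1 = ‖z (s (t k)) / (‖z (s (t k))‖ : ℂ)‖
    rw [norm_div, Complex.norm_real, norm_norm, div_self hk.ne']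
  -- distance at a
  have hda : ε ≤ dist (E1 a) (E2 a) := by
    have h1 := hc1.tendsto hE1.1.cont ha
    have h2 := hc2.tendsto hE2.1.cont ha
    refine ge_of_tendsto (h1.dist h2) (Eventually.of_forall fun k => ?_)
    have : z (s k) - ω k + ω k = z (s k) := by ring
    simp only [this]
    exact hz1 (s k)
  have hdle : ∀ ζ : ℂ, (starRingEnd ℂ u * (ζ - a)).re < 0 → dist (E1 ζ) (E2 ζ) ≤ ε := by
    intro ζ hζ
    have hc1t := hc1.subseq ht.tendsto_atTop
    have hc2t := hc2.subseq ht.tendsto_atTop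
    have h1 := hc1t.tendsto hE1.1.cont (x := fun _ => ζ) tendsto_const_nhds
    have h2 := hc2t.tendsto hE2.1.cont (x := fun _ => ζ) tendsto_const_nhds
    refine le_of_tendsto (h1.dist h2) ?_
    have hat : Tendsto (fun k => ζ - (z (s (t k)) - ω (t k))) atTop (𝓝 (ζ - a)) :=
      tendsto_const_nhds.sub (ha.comp ht.tendsto_atTop)
    filter_upwards [rig_norm_lt hzst hut hat hζ] with k hk
    have hk' : z (s (t k)) + (ζ - (z (s (t k)) - ω (t k))) = ζ + ω (t k) := by ring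
    rw [hk'] at hk
    exact (hz2 (s (t k)) _ hk).le
  have := hrig E1 hE1 E2 hE2 u a hu1 hdle
  rw [this, dist_self] at hda
  linarith

omit [CompactSpace S] in
theorem sec_periodic (hfin : (Sec π D).Finite) :
    ∃ n : ℕ, 0 < n ∧ ∀ e ∈ Sec π D, ∀ ω ∈ Λ, ∀ ζ, e (ζ + n * ω) = e ζ := by
  classical
  refine ⟨hfin.toFinset.card.factorial, Nat.factorial_pos _, fun e he ω hω ζ => ?_⟩
  set N := hfin.toFinset.card with hN
  have hmem : ∀ j : ℕ, ((j : ℂ) * ω) ∈ Λ := by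
    intro j
    rw [← nsmul_eq_mul]
    exact nsmul_mem hω j
  obtain ⟨i, hi, j, hj, hne, hij⟩ := Finset.exists_ne_map_eq_of_card_lt_of_maps_to
    (s := Finset.range (N + 1)) (t := hfin.toFinset)
    (f := fun (j : ℕ) => fun ζ : ℂ => e (ζ + (j : ℂ) * ω))
    (by rw [Finset.card_range]; omega)
    (fun j _ => by
      rw [Finset.mem_coe, Set.Finite.mem_toFinset]
      exact sec_translate he (hmem j))
  have key : ∀ i j : ℕ, i < j → j ≤ N →
      (fun ζ : ℂ => e (ζ + (i : ℂ) * ω)) = (fun ζ : ℂ => e (ζ + (j : ℂ) * ω)) →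
      e (ζ + (N.factorial : ℕ) * ω) = e ζ := by
    intro i j hlt hle hfun
    have hper : ∀ ζ : ℂ, e (ζ + ((j - i : ℕ) : ℂ) * ω) = e ζ := by
      intro ζ
      have : e (ζ - (i : ℂ) * ω + (i : ℂ) * ω) = e (ζ - (i : ℂ) * ω + (j : ℂ) * ω) :=
        congrFun hfun (ζ - (i : ℂ) * ω)
      rw [sub_add_cancel] at this
      rw [this, Nat.cast_sub hlt.le]
      congr 1
      ring
    have hper2 : ∀ k : ℕ, e (ζ + ((k * (j - i) : ℕ) : ℂ) * ω) = e ζ := by
      intro k
      induction k with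
      | zero => simp
      | succ k ih =>
        rw [← ih, ← hper (ζ + ((k * (j - i) : ℕ) : ℂ) * ω)]
        congr 1
        push_cast
        ring
    have hdvd : (j - i) ∣ N.factorial := Nat.dvd_factorial (by omega) (by omega)
    obtain ⟨k, hk⟩ := hdvd
    have := hper2 k
    rw [mul_comm k, ← hk] at this
    exact this
  rw [Finset.mem_range] at hi hj
  rcases lt_or_gt_of_ne hne with h | h
  · exact key i j h (by omega) hij
  · exact key j i h (by omega) hij.symm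

end RIG

end Pool.Agent.ELL
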