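import Pool.Agent.ELL.Vec

open scoped Manifold Topology
open Filter Metric Set

namespace Pool.Agent.ELL

section SMC
variable {S : Type*} [MetricSpace S] [CompactSpace S] [ChartedSpace (ℂ × ℂ) S]
  [IsManifold 𝓘(ℂ, ℂ × ℂ) 1 S] {Λ : Submodule ℤ ℂ} [DiscreteTopology Λ] [IsZLattice ℝ Λ]
  {π : S → ℂ ⧸ Λ} {D : Set S} {m : ℕ} {ι : Type} [Fintype ι] {σ : ι → PluriForm S m D}

theorem smc_scale {ι : Type} [Fintype ι] {u v u' v' : EuclideanSpace ℂ ι} {a b : ℂ} {κ : ℝ}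
    (hu : u' = a • u) (hv : v' = b • v) (h : κ * ‖u‖ * ‖v‖ ≤ ‖inner ℂ u v‖) :
    κ * ‖u'‖ * ‖v'‖ ≤ ‖inner ℂ u' v'‖ := by
  rw [hu, hv, inner_smul_left, inner_smul_right, norm_smul, norm_smul, norm_mul, norm_mul,
    RCLike.norm_conj]
  have h1 := mul_le_mul_of_nonneg_left h (mul_nonneg (norm_nonneg a) (norm_nonneg b))
  calc κ * (‖a‖ * ‖u‖) * (‖b‖ * ‖v‖) = ‖a‖ * ‖b‖ * (κ * ‖u‖ * ‖v‖) := by ring
    _ ≤ ‖a‖ * ‖b‖ * ‖inner ℂ u v‖ := h1
    _ = ‖a‖ * (‖b‖ * ‖inner ℂ u v‖) := by ring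

omit [CompactSpace S] [IsManifold 𝓘(ℂ, ℂ × ℂ) 1 S] [DiscreteTopology Λ] [IsZLattice ℝ Λ] in
theorem smc_indep (hσ : Separates π D σ) {p q : S} (hp : p ∉ D) (hq : q ∉ D) (hpq : π p ≠ π q) :
    ‖inner ℂ (vec σ (chartAt (ℂ × ℂ) p) p) (vec σ (chartAt (ℂ × ℂ) q) q)‖ <
      ‖vec σ (chartAt (ℂ × ℂ) p) p‖ * ‖vec σ (chartAt (ℂ × ℂ) q) q‖ := by
  have hli := hσ p q hp hq hpq
  rw [LinearIndependent.pair_iff] at hli
  refine lt_of_le_of_ne (norm_inner_le_norm _ _) fun heq => ?_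
  have hu : vec σ (chartAt (ℂ × ℂ) p) p ≠ 0 := by
    intro h0
    have h1 : (fun i => (σ i).coeff (chartAt (ℂ × ℂ) p) p) = 0 := by
      have := congrArg (WithLp.ofLp) h0
      exact this
    have := hli 1 0 (by rw [h1]; simp)
    exact one_ne_zero this.1
  have hv : vec σ (chartAt (ℂ × ℂ) q) q ≠ 0 := by
    intro h0
    have h1 : (fun i => (σ i).coeff (chartAt (ℂ × ℂ) q) q) = 0 := by
      have := congrArg (WithLp.ofLp) h0
      exact this
    have := hli 0 1 (by rw [h1]; simp)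
    exact one_ne_zero this.2
  obtain ⟨r, hr, hvr⟩ := (norm_inner_eq_norm_iff hu hv).1 heq
  have h1 : (fun i => (σ i).coeff (chartAt (ℂ × ℂ) q) q)
      = r • (fun i => (σ i).coeff (chartAt (ℂ × ℂ) p) p) := by
    have := congrArg (WithLp.ofLp) hvr
    exact this
  have := hli (-r) 1 (by rw [h1]; simp)
  exact one_ne_zero this.2

/-- uniform strict Cauchy-Schwarz inequality -/
theorem strict_cs (hπ : HolTo Λ π) (hD : IsDivisor D) (hf : FibresHyperbolic π D)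
    (hs : NoSecIn π D) (hσ : Separates π D σ) {r : ℝ} (hr : 0 < r)
    (hrΛ : ∀ ω ∈ Λ, ω ≠ 0 → r < ‖ω‖) :
    ∃ κ : ℝ, 0 ≤ κ ∧ κ < 1 ∧ ∀ e ∈ Sec π D, ∀ x y : ℂ, dist y x = r → ∀ φ ∈ MA S, ∀ ψ ∈ MA S,
      e x ∈ φ.source → e y ∈ ψ.source →
        ‖inner ℂ (vec σ φ (e x)) (vec σ ψ (e y))‖ ≤
          κ * ‖vec σ φ (e x)‖ * ‖vec σ ψ (e y)‖ := by
  by_contra hcon
  push Not at hcon
  have hκ : ∀ k : ℕ, 0 ≤ (1 : ℝ) - 1 / ((k : ℝ) + 1) ∧ (1 : ℝ) - 1 / ((k : ℝ) + 1) < 1 := by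
    intro k
    have hk : (0 : ℝ) < (k : ℝ) + 1 := by positivity
    have h1 : 1 / ((k : ℝ) + 1) ≤ 1 := by
      rw [div_le_one hk]
      linarith [Nat.cast_nonneg (α := ℝ) k]
    have h2 : 0 < 1 / ((k : ℝ) + 1) := by positivity
    constructor <;> linarith
  choose e he x y hxy φ hφ ψ hψ hxφ hyψ hlt using fun k : ℕ => hcon _ (hκ k).1 (hκ k).2
  obtain ⟨s, hsm, ω, hω, E, hE, -, -, a, hc, -, ha⟩ :=
    sec_compact₂ hπ hD hf hs e e he he x
  obtain ⟨d, hd, t, ht, hdt⟩ := (isCompact_sphere (0 : ℂ) r).tendsto_subseq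
    (x := fun k => y (s k) - x (s k)) (by
      intro k
      rw [mem_sphere_zero_iff_norm, ← dist_eq_norm]
      exact hxy (s k))
  rw [mem_sphere_zero_iff_norm] at hd
  have hat := ha.comp ht.tendsto_atTop
  have hbt : Tendsto (fun k => y (s (t k)) - ω (t k)) atTop (𝓝 (a + d)) := by
    refine (hat.add hdt).congr fun k => ?_
    simp only [Function.comp_apply]
    ring
  have hct := hc.subseq ht.tendsto_atTop
  have hp : Tendsto (fun k => e (s (t k)) (x (s (t k)))) atTop (𝓝 (E a)) := by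
    refine (hct.tendsto hE.1.cont hat).congr fun k => ?_
    simp only [Function.comp_apply, sub_add_cancel]
  have hq : Tendsto (fun k => e (s (t k)) (y (s (t k)))) atTop (𝓝 (E (a + d))) := by
    refine (hct.tendsto hE.1.cont hbt).congr fun k => ?_
    simp only [sub_add_cancel]
  have hpq : π (E a) ≠ π (E (a + d)) := by
    rw [hE.2.2, hE.2.2]
    intro h
    rw [mkQ_eq_iff] at h
    have hd' : d ∈ Λ := by
      have := Λ.neg_mem h
      simpa using this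
    have hd0 : d ≠ 0 := by
      intro h0
      rw [h0, norm_zero] at hd
      linarith
    have := hrΛ d hd' hd0
    linarith
  have hstrict := smc_indep hσ (hE.2.1 a) (hE.2.1 (a + d)) hpq
  have hP := IsManifold.chart_mem_maximalAtlas (I := 𝓘(ℂ, ℂ × ℂ)) (n := 1) (E a)
  have hQ := IsManifold.chart_mem_maximalAtlas (I := 𝓘(ℂ, ℂ × ℂ)) (n := 1) (E (a + d))
  have hvp := (vec_contAt (σ := σ) hD hP (mem_chart_source (ℂ × ℂ) (E a)) (hE.2.1 a)).tendsto.comp hp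
  have hvq := (vec_contAt (σ := σ) hD hQ (mem_chart_source (ℂ × ℂ) (E (a + d)))
    (hE.2.1 (a + d))).tendsto.comp hq
  have hin : Tendsto (fun k => ‖inner ℂ
      (vec σ (chartAt (ℂ × ℂ) (E a)) (e (s (t k)) (x (s (t k)))))
      (vec σ (chartAt (ℂ × ℂ) (E (a + d))) (e (s (t k)) (y (s (t k)))))‖) atTop
      (𝓝 ‖inner ℂ (vec σ (chartAt (ℂ × ℂ) (E a)) (E a))
        (vec σ (chartAt (ℂ × ℂ) (E (a + d))) (E (a + d)))‖) :=
    (hvp.inner hvq).norm
  have hst : Tendsto (fun k => s (t k)) atTop atTop := hsm.tendsto_atTop.comp ht.tendsto_atTop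
  have hκt : Tendsto (fun k => (1 : ℝ) - 1 / (((s (t k) : ℕ) : ℝ) + 1)) atTop (𝓝 (1 - 0)) :=
    tendsto_const_nhds.sub (tendsto_one_div_add_atTop_nhds_zero_nat.comp hst)
  rw [sub_zero] at hκt
  have hrhs := (hκt.mul hvp.norm).mul hvq.norm
  have hle := le_of_tendsto_of_tendsto hrhs hin (by
    have e1 : ∀ᶠ k in atTop, e (s (t k)) (x (s (t k))) ∈ (chartAt (ℂ × ℂ) (E a)).source :=
      hp.eventually_mem ((chartAt (ℂ × ℂ) (E a)).open_source.mem_nhds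
        (mem_chart_source (ℂ × ℂ) (E a)))
    have e2 : ∀ᶠ k in atTop, e (s (t k)) (y (s (t k))) ∈
        (chartAt (ℂ × ℂ) (E (a + d))).source :=
      hq.eventually_mem ((chartAt (ℂ × ℂ) (E (a + d))).open_source.mem_nhds
        (mem_chart_source (ℂ × ℂ) (E (a + d))))
    filter_upwards [e1, e2] with k h1 h2
    exact smc_scale
      (vec_trans hP (hφ (s (t k))) h1 (hxφ (s (t k))) ((he (s (t k))).2.1 _))
      (vec_trans hQ (hψ (s (t k))) h2 (hyψ (s (t k))) ((he (s (t k))).2.1 _))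
      (hlt (s (t k))).le)
  rw [one_mul] at hle
  linarith

end SMC

end Pool.Agent.ELL
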