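import Pool.Agent.ELL.Bnd

open scoped Manifold Topology
open Filter Metric Set

namespace Pool.Agent.ELL

section VEC
variable {S : Type*} [MetricSpace S] [ChartedSpace (ℂ × ℂ) S]
  [IsManifold 𝓘(ℂ, ℂ × ℂ) 1 S] {Λ : Submodule ℤ ℂ} [DiscreteTopology Λ] [IsZLattice ℝ Λ]
  {π : S → ℂ ⧸ Λ} {D : Set S} {m : ℕ} {ι : Type} [Fintype ι] {σ : ι → PluriForm S m D}

omit [DiscreteTopology Λ] [IsZLattice ℝ Λ] in
theorem vec_trans {φ ψ : OpenPartialHomeomorph S (ℂ × ℂ)} (hφ : φ ∈ MA S) (hψ : ψ ∈ MA S)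
    {p : S} (hp : p ∈ φ.source) (hp' : p ∈ ψ.source) (hpD : p ∉ D) :
    vec σ φ p = (fderiv ℂ (ψ ∘ φ.symm) (φ p)).det ^ m • vec σ ψ p := by
  ext i
  simp only [vec, PiLp.smul_apply, smul_eq_mul]
  rw [(σ i).trans φ hφ ψ hψ p ⟨hp, hp'⟩ hpD, mul_comm]

theorem vec_ne_zero (hσ : Separates π D σ) {e : ℂ → S} (he : e ∈ Sec π D) (x : ℂ)
    {φ : OpenPartialHomeomorph S (ℂ × ℂ)} (hφ : φ ∈ MA S) (hx : e x ∈ φ.source) :
    vec σ φ (e x) ≠ 0 := by
  obtain ⟨μ, hμ, hmin⟩ := lat_min Λ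
  have hx0 : e x ∉ D := he.2.1 x
  have hne : π (e x) ≠ π (e (x + (μ / 2 : ℝ))) := by
    rw [he.2.2, he.2.2]
    intro h
    rw [mkQ_eq_iff] at h
    have h1 : x - (x + ((μ / 2 : ℝ) : ℂ)) = -((μ / 2 : ℝ) : ℂ) := by ring
    rw [h1] at h
    have h2 : -((μ / 2 : ℝ) : ℂ) ≠ 0 := by
      rw [neg_ne_zero, Complex.ofReal_ne_zero]
      positivity
    have h3 := hmin _ h h2
    rw [norm_neg, Complex.norm_real, Real.norm_of_nonneg (by positivity)] at h3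
    linarith
  have hli := hσ (e x) (e (x + (μ / 2 : ℝ))) hx0 (he.2.1 _) hne
  have h0 := hli.ne_zero 0
  simp only [Matrix.cons_val_zero] at h0
  have h1 : vec σ (chartAt (ℂ × ℂ) (e x)) (e x) ≠ 0 := by
    intro h
    apply h0
    funext i
    have := congrArg (fun v : EuclideanSpace ℂ ι => v i) h
    simpa [vec] using this
  intro h
  apply h1
  rw [vec_trans (σ := σ) (IsManifold.chart_mem_maximalAtlas (e x)) hφ (mem_chart_source _ _) hx hx0,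
    h, smul_zero]

omit [DiscreteTopology Λ] [IsZLattice ℝ Λ] in
theorem vec_contAt (hD : IsDivisor D) {φ : OpenPartialHomeomorph S (ℂ × ℂ)} (hφ : φ ∈ MA S)
    {p : S} (hp : p ∈ φ.source) (hpD : p ∉ D) : ContinuousAt (vec σ φ) p := by
  have hU : φ.source \ D ∈ 𝓝 p := (φ.open_source.sdiff hD.1).mem_nhds ⟨hp, hpD⟩
  have h1 : ContinuousAt (fun p => (fun i => (σ i).coeff φ p)) p :=
    continuousAt_pi.2 fun i => ((σ i).hol φ hφ).contAt hU
  exact (PiLp.continuous_toLp 2 (fun _ : ι => ℂ)).continuousAt.comp h1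

omit [DiscreteTopology Λ] [IsZLattice ℝ Λ] in
theorem vec_hol (hD : IsDivisor D) {e : ℂ → S} (he : e ∈ Sec π D) {x : ℂ}
    {φ : OpenPartialHomeomorph S (ℂ × ℂ)} (hφ : φ ∈ MA S) (hx : e x ∈ φ.source) :
    DifferentiableAt ℂ (fun ζ => vec σ φ (e ζ)) x := by
  have hU : φ.source \ D ∈ 𝓝 (e x) :=
    (φ.open_source.sdiff hD.1).mem_nhds ⟨hx, he.2.1 x⟩
  rw [differentiableAt_euclidean]
  intro i
  exact he.1.fn ((σ i).hol φ hφ) hU

theorem vec_bdd [CompactSpace S] (hπ : HolTo Λ π) (hD : IsDivisor D)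
    (hf : FibresHyperbolic π D) (hs : NoSecIn π D) {μ : ℝ} (C : VCov π D μ) :
    ∃ B : ℝ, 0 < B ∧ ∀ i, ∀ e ∈ Sec π D, ∀ x, closedBall (e x) C.δ ⊆ (C.φ i).source →
      ‖vec σ (C.φ i) (e x)‖ ≤ B := by
  by_contra hcon
  push Not at hcon
  have h1 : ∀ k : ℕ, ∃ i : Fin C.n, ∃ e ∈ Sec π D, ∃ x, closedBall (e x) C.δ ⊆ (C.φ i).source ∧
      (k : ℝ) + 1 < ‖vec σ (C.φ i) (e x)‖ := fun k => hcon ((k : ℝ) + 1) (by positivity)
  choose i e he x hsrc hB using h1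
  obtain ⟨i0, t, ht, hti⟩ := CompactSpace.tendsto_subseq i
  obtain ⟨s, hs', ω, hω, E, hE, E', hE', a, hc, -, ha⟩ :=
    sec_compact₂ hπ hD hf hs (fun k => e (t k)) (fun k => e (t k)) (fun k => he _)
      (fun k => he _) (fun k => x (t k))
  have hp : Tendsto (fun k => e (t (s k)) (x (t (s k)))) atTop (𝓝 (E a)) := by
    have := hc.tendsto hE.1.cont ha
    simpa using this
  rw [nhds_discrete, tendsto_pure] at hti
  have hti' : ∀ᶠ k in atTop, i (t (s k)) = i0 := hs'.tendsto_atTop.eventually hti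
  have hcl : ∀ᶠ k in atTop, dist (e (t (s k)) (x (t (s k)))) (E a) < C.δ :=
    (Metric.tendsto_nhds.1 hp) C.δ C.δpos
  have hpsrc : E a ∈ (C.φ i0).source := by
    obtain ⟨k, hk1, hk2⟩ := (hti'.and hcl).exists
    have := hsrc (t (s k)) (show E a ∈ closedBall _ _ by
      rw [mem_closedBall, dist_comm]; exact hk2.le)
    rw [hk1] at this
    exact this
  have hcont := vec_contAt (σ := σ) hD (C.mem i0) hpsrc (hE.2.1 a)
  have hlim : Tendsto (fun k => ‖vec σ (C.φ i0) (e (t (s k)) (x (t (s k))))‖) atTop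
      (𝓝 ‖vec σ (C.φ i0) (E a)‖) := (hcont.tendsto.comp hp).norm
  have hlt : ∀ᶠ k in atTop, ‖vec σ (C.φ i0) (e (t (s k)) (x (t (s k))))‖ <
      ‖vec σ (C.φ i0) (E a)‖ + 1 := hlim.eventually (gt_mem_nhds (by linarith))
  obtain ⟨N, hN⟩ := exists_nat_gt (‖vec σ (C.φ i0) (E a)‖)
  obtain ⟨k, hk1, hk2, hk3⟩ := (hti'.and (hlt.and (eventually_ge_atTop N))).exists
  have h5 := hB (t (s k))
  rw [hk1] at h5
  have h6 : (N : ℝ) ≤ (t (s k) : ℝ) := by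
    exact_mod_cast le_trans hk3 (le_trans (hs'.id_le k) (ht.id_le (s k)))
  linarith

end VEC

end Pool.Agent.ELL
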